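import Pool.Agent.Lib_helper76.UE10.Ten2
import Pool.Agent.Lib_helper87.FAM.TenL
import Pool.Agent.Lib_helper87.FAM.TenM
import Pool.Agent.Lib_helper2.K4N.Q10BY

/-!
# Points of order ten: the clause
-/

set_option autoImplicit false

namespace Pool.Agent.FK4

open Pool.Agent.MK4 WeierstrassCurve.Affine

variable {k : Type*} [Field k] [DecidableEq k] [CharZero k] {W : WeierstrassCurve.Affine k}
  {F : Type*} [Field F] [Algebra k F] {X Y : F}

/-- **points of order ten** -/
theorem ten (hg : Generic W X Y) (P : W.Point) (h : addOrderOf P = 10) : Ten P X Y :=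
  ten_of' hg P h (line10a hg) (line10m_reg K4N.rz_xi10b hg)

end Pool.Agent.FK4
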