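import Pool.Agent.Lib_helper87.FAM.T10

/-!
# The multiples of the points of order ten
-/

set_option autoImplicit false
set_option linter.unusedSectionVars false

namespace Pool.Agent.UE10

open WeierstrassCurve.Affine
open UEG (P0)
open TN (Wt)

variable {k : Type*} [Field k] [DecidableEq k] {t : k}

/-- the abscissa of `4P` -/
def x4 (t : k) : k := t ^ 2 * (t - 1) * (2 * t - 1) / (t - (t - 1) ^ 2) ^ 2

/-- the ordinate of `4P` -/
def y4 (t : k) : k := t ^ 4 * (t - 1) ^ 2 * (2 * t - 1) / (t - (t - 1) ^ 2) ^ 3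

/-- the abscissa of `5P` -/
def x5 (t : k) : k := t ^ 3 * (t - 1) / (t - (t - 1) ^ 2)

/-- the ordinate of `5P` -/
def y5 (t : k) : k := t ^ 4 * (t - 1) ^ 2 / (t - (t - 1) ^ 2) * (t / (t - (t - 1) ^ 2))

variable (ht : t ≠ 0) (ht1 : t - 1 ≠ 0) (ht2 : 2 * t - 1 ≠ 0) (ht3 : t - (t - 1) ^ 2 ≠ 0)
  {hb : bb t ≠ 0}

include ht ht1 ht2 ht3 in
omit [DecidableEq k] in
lemma cc_ne : cc t ≠ 0 := by
  unfold cc
  exact div_ne_zero (mul_ne_zero (mul_ne_zero ht ht1) ht2) ht3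

lemma p1 : ∃ h, (1 : ZMod 10).val • P0 (cc t) hb = .some 0 0 h := ⟨_, one_nsmul _⟩

lemma p2 : ∃ h, (2 : ZMod 10).val • P0 (cc t) hb = .some (bb t) (bb t * cc t) h := UEG.two_P0 hb

lemma p3 : ∃ h, (3 : ZMod 10).val • P0 (cc t) hb = .some (cc t) (bb t - cc t) h :=
  UEG.three_P0 hb

include ht3 in
omit [DecidableEq k] in
lemma e_f : cc t = t * (t ^ 2 / (t - (t - 1) ^ 2) - 1) := by
  unfold cc
  field_simp
  ring

include ht ht1 ht2 ht3 in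
lemma p4 : ∃ h, (4 : ZMod 10).val • P0 (cc t) hb = .some (x4 t) (y4 t) h := by
  obtain ⟨h, e⟩ := UEG.four_P0 hb (cc_ne ht ht1 ht2 ht3) (d := t ^ 2 / (t - (t - 1) ^ 2)) rfl
  have e1 : t ^ 2 / (t - (t - 1) ^ 2) * (t ^ 2 / (t - (t - 1) ^ 2) - 1) = x4 t := by
    unfold x4
    field_simp
    ring
  have e2 : (t ^ 2 / (t - (t - 1) ^ 2)) ^ 2 * (cc t + 1 - t ^ 2 / (t - (t - 1) ^ 2)) = y4 t := by
    unfold y4 cc
    field_simp
    ring
  rw [e1, e2] at h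
  refine ⟨h, ?_⟩
  have e3 : (4 : ZMod 10).val = 4 := rfl
  rw [e3, e]
  simp only [Point.some.injEq]
  exact ⟨e1, e2⟩

include ht ht1 ht2 ht3 in
lemma p5 : ∃ h, (5 : ZMod 10).val • P0 (cc t) hb = .some (x5 t) (y5 t) h := by
  obtain ⟨h, e⟩ := UEG.five_P0 hb (cc_ne ht ht1 ht2 ht3) (d := t ^ 2 / (t - (t - 1) ^ 2)) (f := t)
    rfl (e_f ht3)
  have e1 : t ^ 2 / (t - (t - 1) ^ 2) * t * (t - 1) = x5 t := by
    unfold x5
    field_simp
  have e2 : t ^ 2 / (t - (t - 1) ^ 2) * t ^ 2 * (t ^ 2 / (t - (t - 1) ^ 2) - t) = y5 t := by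
    unfold y5
    field_simp
    ring
  rw [e1, e2] at h
  refine ⟨h, ?_⟩
  have e3 : (5 : ZMod 10).val = 5 := rfl
  rw [e3, e]
  simp only [Point.some.injEq]
  exact ⟨e1, e2⟩

end Pool.Agent.UE10
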