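import Pool.Agent.Lib_helper76.UEN.T
import Pool.Agent.Lib_helper76.UE10.Def2
import Pool.Agent.Lib_helper76.UE8.P7

/-!
# Points of order ten: the exceptional solutions
-/

set_option autoImplicit false
set_option linter.unusedSectionVars false

open scoped TensorProduct

namespace Pool.Agent.UE10

open WeierstrassCurve.Affine Polynomial WithZero GK UP
open UEG (Gen IsUn LineOK P0 negY_wt)
open UEN
open TN (Wt Orb)
open MK4 (FT lg)
open FK4 (LineS Supp supp_iff)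
open UE8 (orb_sub orb_inv)

section main

variable {k : Type*} [Field k] [DecidableEq k] [CharZero k] {t : k}
  {F : Type*} [Field F] [DecidableEq F] [Algebra k F] {x y : F}

/-- the exceptional solution -/
def gg (t : k) (z : F) : F := (z - algebraMap k F (bb t)) * (z - algebraMap k F (cc t)) /
  (z * (z - algebraMap k F (x4 t)))

/-- the constant -/
def kap (t : k) : k := t * (t - 1) * (2 * t - 1) ^ 2 / (t - (t - 1) ^ 2) ^ 2

lemma kap_ne (ht : t ≠ 0) (ht1 : t - 1 ≠ 0) (ht2 : 2 * t - 1 ≠ 0) (ht3 : t - (t - 1) ^ 2 ≠ 0) :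
    kap t ≠ 0 :=
  div_ne_zero (mul_ne_zero (mul_ne_zero ht ht1) (pow_ne_zero 2 ht2)) (pow_ne_zero 2 ht3)

lemma kap_1 (ht3 : t - (t - 1) ^ 2 ≠ 0) : bb t + cc t - x4 t = kap t := by
  unfold bb cc x4 kap
  field_simp
  ring

lemma kap_2 (ht3 : t - (t - 1) ^ 2 ≠ 0) : bb t * cc t = kap t * x5 t := by
  unfold bb cc x5 kap
  field_simp

lemma gg_sub (ht3 : t - (t - 1) ^ 2 ≠ 0) {z : F} (h0 : z ≠ 0)
    (h4 : z - algebraMap k F (x4 t) ≠ 0) : 1 - gg t z =
      algebraMap k F (kap t) * ((z - algebraMap k F (x5 t)) / (z * (z - algebraMap k F (x4 t)))) := by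
  have e1 := congrArg (algebraMap k F) (kap_1 ht3)
  have e2 := congrArg (algebraMap k F) (kap_2 ht3)
  simp only [map_add, map_sub, map_mul] at e1 e2
  unfold gg
  field_simp
  linear_combination z * e1 - e2

variable (ht : t ≠ 0) (ht1 : t - 1 ≠ 0) (ht2 : 2 * t - 1 ≠ 0) (ht3 : t - (t - 1) ^ 2 ≠ 0)
  {hb : bb t ≠ 0} (hO : addOrderOf (P0 (cc t) hb) = 10)
  [Fintype (AddSubgroup.zmultiples (P0 (cc t) hb))]
  [DecidableEq (AddSubgroup.zmultiples (P0 (cc t) hb))] (hg : Gen (Wt (bb t) (cc t)) x y)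

include ht ht1 ht2 ht3 in
/-- the divisors of the exceptional solution -/
lemma q3_gg : Q3 hO hg (gg t x) (![0, 0, 1, 1, 0, 0, 0, 1, 1, 0] : Fin 10 → ℤ)
    (![2, 0, 0, 0, 0, 2, 0, 0, 0, 0] : Fin 10 → ℤ)
    (![0, 1, 0, 0, 1, 0, 1, 0, 0, 1] : Fin 10 → ℤ) := by
  have V1 := pq_vert hO hg p1
  have V2 := pq_vert hO hg p2
  have V3 := pq_vert hO hg p3
  have V4 := pq_vert hO hg (p4 ht ht1 ht2 ht3)
  have V5 := pq_vert hO hg (p5 ht ht1 ht2 ht3)
  rw [map_zero, sub_zero] at V1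
  constructor
  · have := (V2.mul V3).mul (V1.mul V4).inv
    rw [← div_eq_mul_inv] at this
    exact this.congr (by decide)
  · rw [gg_sub ht3 V1.1.1 V4.1.1]
    have := (V5.mul (V1.mul V4).inv).smul (kap_ne ht ht1 ht2 ht3)
    rw [← div_eq_mul_inv] at this
    exact this.congr (by decide)

include ht ht1 ht2 ht3 hO hg in
lemma gg_ne : gg t x ≠ 0 ∧ gg t x - 1 ≠ 0 := by
  have h := q3_gg ht ht1 ht2 ht3 hO hg
  refine ⟨h.p.1.1, fun h' => h.q.1.1 ?_⟩
  rw [← neg_sub, h', neg_zero]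

include ht ht1 ht2 ht3 in
/-- a function with these divisors -/
lemma cls_gg {f : F} (h : Q3 hO hg f (![2, 0, 0, 0, 0, 2, 0, 0, 0, 0] : Fin 10 → ℤ)
    (![0, 1, 0, 0, 1, 0, 1, 0, 0, 1] : Fin 10 → ℤ)
    (![0, 0, 1, 1, 0, 0, 0, 1, 1, 0] : Fin 10 → ℤ)) : Orb (gg t x) f := by
  have h1 := h.sub.inv
  have h2 := q3_gg ht ht1 ht2 ht3 hO hg
  have e : (1 - f)⁻¹ = gg t x := h1.p.eq h2.p h1.q h2.q (x := 2) (by decide)
  obtain ⟨n0, n1⟩ := gg_ne ht ht1 ht2 ht3 hO hg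
  refine orb_sub n0 n1 (orb_inv n0 n1 ?_)
  exact Or.inl e

include ht ht1 ht2 ht3 in
/-- the double divisors do not occur -/
lemma no_gg {f : F} (h : Q3 hO hg f (![4, 0, 0, 0, 0, 4, 0, 0, 0, 0] : Fin 10 → ℤ)
    (![0, 2, 0, 0, 2, 0, 2, 0, 0, 2] : Fin 10 → ℤ)
    (![0, 0, 2, 2, 0, 0, 0, 2, 2, 0] : Fin 10 → ℤ)) : False := by
  have h1 := h.sub.inv
  have h2 := q3_gg ht ht1 ht2 ht3 hO hg
  obtain ⟨c, hc, e1⟩ := h1.p.eq_smul ((h2.p.pow 2).congr (by decide))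
  obtain ⟨c', hc', e2⟩ := h1.q.eq_smul ((h2.q.pow 2).congr (by decide))
  have e3 : algebraMap k F c * gg t x ^ 2 + algebraMap k F c' * (1 - gg t x) ^ 2 = 1 := by
    rw [← e1, ← e2]; ring
  have n0 : x ≠ 0 := by
    have := (pq_vert hO hg p1).1.1
    rwa [map_zero, sub_zero] at this
  have n4 := (pq_vert hO hg (p4 ht ht1 ht2 ht3)).1.1
  rw [gg_sub ht3 n0 n4] at e3
  unfold gg at e3
  field_simp at e3
  have e4 : algebraMap k F (c * (bb t * cc t) ^ 2 + c' * (kap t * x5 t) ^ 2) +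
      algebraMap k F (-2 * c * (bb t * cc t) * (bb t + cc t) - 2 * c' * kap t ^ 2 * x5 t) * x +
      algebraMap k F 0 * y +
      algebraMap k F (c * ((bb t + cc t) ^ 2 + 2 * (bb t * cc t)) + c' * kap t ^ 2 - x4 t ^ 2) *
        x ^ 2 + algebraMap k F 0 * (x * y) +
      algebraMap k F (-2 * c * (bb t + cc t) + 2 * x4 t) * x ^ 3 +
      algebraMap k F 0 * (x ^ 2 * y) + algebraMap k F (c - 1) * x ^ 4 +
      algebraMap k F 0 * (x ^ 3 * y) = 0 := by
    simp only [map_add, map_sub, map_mul, map_neg, map_one, map_zero, map_pow, map_ofNat]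
    linear_combination e3
  obtain ⟨-, -, -, -, -, g1, -, g2, -⟩ := ind9 hg e4
  have g3 : 2 * kap t = 0 := by
    rw [← kap_1 ht3]
    linear_combination -g1 - 2 * (bb t + cc t) * g2
  rcases mul_eq_zero.mp g3 with h3 | h3
  · norm_num at h3
  · exact kap_ne ht ht1 ht2 ht3 h3

end main

end Pool.Agent.UE10
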