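import Pool.Agent.Lib_helper76.UE10.A

/-!
# Points of order ten: the unit equation
-/

set_option autoImplicit false
set_option linter.unusedSectionVars false

open scoped TensorProduct

namespace Pool.Agent.UE10

open WeierstrassCurve.Affine Polynomial WithZero GK UP
open UEG (Gen IsUn LineOK P0 negY_wt)
open UEN
open TN (Wt Orb)
open MK4 (FT lg)
open FK4 (LineS Supp supp_iff)
open UE8 (orb_sub orb_inv)

variable {k : Type*} [Field k] [DecidableEq k] [CharZero k] {t : k}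
  {F : Type*} [Field F] [DecidableEq F] [Algebra k F] {x y : F}

/-- the abscissa of `(x, y) + jP` -/
def zj (t : k) (x y : F) (j : ℕ) : F := ((tP (algebraMap k F (bb t)))^[j] (x, y)).1

/-- the nonconstant solutions -/
def Cl10 (t : k) (hb : bb t ≠ 0) (x y f : F) : Prop :=
  LineS (AddSubgroup.zmultiples (P0 (cc t) hb)) x y f ∨ ∃ j : ℕ, Orb (gg t (zj t x y j)) f

variable (ht : t ≠ 0) (ht1 : t - 1 ≠ 0) (ht2 : 2 * t - 1 ≠ 0) (ht3 : t - (t - 1) ^ 2 ≠ 0)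
  {hb : bb t ≠ 0} (hO : addOrderOf (P0 (cc t) hb) = 10)
  [Fintype (AddSubgroup.zmultiples (P0 (cc t) hb))]
  [DecidableEq (AddSubgroup.zmultiples (P0 (cc t) hb))] (hg : Gen (Wt (bb t) (cc t)) x y)

include ht ht1 ht2 ht3 hO hg in
lemma ggj_ne (j : ℕ) : gg t (zj t x y j) ≠ 0 ∧ gg t (zj t x y j) - 1 ≠ 0 := by
  obtain ⟨hg', -⟩ := gen_pp (hO := hO) hg j
  exact gg_ne ht ht1 ht2 ht3 hO hg'

include ht ht1 ht2 ht3 hO hg in
lemma ggj_un (j : ℕ) : IsUn (AddSubgroup.zmultiples (P0 (cc t) hb)) x y (gg t (zj t x y j)) ∧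
    IsUn (AddSubgroup.zmultiples (P0 (cc t) hb)) x y (1 - gg t (zj t x y j)) := by
  obtain ⟨hg', e⟩ := gen_pp (hO := hO) hg j
  have h := q3_gg ht ht1 ht2 ht3 hO hg'
  have e' : gp hg = gp hg' + pp F (AddSubgroup.zmultiples (P0 (cc t) hb))
      (en hO (-(j : ZMod 10))) := by
    rw [e, map_neg, map_neg, add_neg_cancel_right]
  exact ⟨(h.p.tr e').1, (h.q.tr e').1⟩

include ht ht1 ht2 ht3 hO hg in
lemma cl10_sub (f : F) (h : Cl10 t hb x y (1 - f)) : Cl10 t hb x y f := by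
  rcases h with h | ⟨j, h⟩
  · exact Or.inl (h.orb (Or.inr (Or.inl (by ring))))
  · obtain ⟨n0, n1⟩ := ggj_ne ht ht1 ht2 ht3 hO hg j
    exact Or.inr ⟨j, orb_sub n0 n1 h⟩

include ht ht1 ht2 ht3 hO hg in
lemma cl10_inv (f : F) (h : Cl10 t hb x y f⁻¹) : Cl10 t hb x y f := by
  rcases h with h | ⟨j, h⟩
  · exact Or.inl (h.orb (Or.inr (Or.inr (Or.inl (by rw [one_div, inv_inv])))))
  · obtain ⟨n0, n1⟩ := ggj_ne ht ht1 ht2 ht3 hO hg j
    exact Or.inr ⟨j, orb_inv n0 n1 h⟩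

/-- a vector as a function on `ZMod 10` -/
def vz (v : Fin 10 → ℤ) : ZMod 10 → ℤ := v

include ht ht1 ht2 ht3 in
/-- the exceptional triples -/
theorem ex10 {f : F} {D E G : ZMod 10 → ℤ} (h : Q3 hO hg f D E G) {s : ZMod 10}
    (ho : Six (fun A B C => Ex10 (fun x => A (x + s)) (fun x => B (x + s))
      (fun x => C (x + s))) D E G) : Cl10 t hb x y f := by
  obtain ⟨f', X', Y', hg', A, B, C, e, hE, h', hR⟩ := ex_shift (cl10_sub ht ht1 ht2 ht3 hO hg)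
    (cl10_inv ht ht1 ht2 ht3 hO hg) h ho
  apply hR
  obtain ⟨X'', Y'', hg'', e''⟩ := gen_add hg' (((en hO (-2) :
    AddSubgroup.zmultiples (P0 (cc t) hb)) : (Wt (bb t) (cc t)).Point))
  have e1 : gp hg'' = gp hg' + pp F (AddSubgroup.zmultiples (P0 (cc t) hb)) (en hO (-2)) := e''
  have e2 : gp hg'' = gp hg + pp F (AddSubgroup.zmultiples (P0 (cc t) hb)) (en hO (-s + -2)) := by
    rw [e1, e, map_add, map_add, add_assoc]
  have h1 := h'.tr e1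
  have e3 := gen_eq e2
  rcases hE with ⟨rfl, rfl, rfl⟩ | ⟨rfl, rfl, rfl⟩
  · have g1 : ∀ x, vz ![0, 0, 2, 0, 0, 0, 0, 2, 0, 0] (x - -2) =
        vz ![2, 0, 0, 0, 0, 2, 0, 0, 0, 0] x := by decide
    have g2 : ∀ x, vz ![0, 1, 0, 1, 0, 0, 1, 0, 1, 0] (x - -2) =
        vz ![0, 1, 0, 0, 1, 0, 1, 0, 0, 1] x := by decide
    have g3 : ∀ x, vz ![1, 0, 0, 0, 1, 1, 0, 0, 0, 1] (x - -2) =
        vz ![0, 0, 1, 1, 0, 0, 0, 1, 1, 0] x := by decide
    have h2 := cls_gg ht ht1 ht2 ht3 hO hg'' (h1.congr g1 g2 g3)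
    have e4 : X'' = zj t x y (-s + -2).val := by
      unfold zj
      rw [← e3]
    rw [e4] at h2
    exact Or.inr ⟨_, h2⟩
  · have g1 : ∀ x, vz ![0, 0, 4, 0, 0, 0, 0, 4, 0, 0] (x - -2) =
        vz ![4, 0, 0, 0, 0, 4, 0, 0, 0, 0] x := by decide
    have g2 : ∀ x, vz ![0, 2, 0, 2, 0, 0, 2, 0, 2, 0] (x - -2) =
        vz ![0, 2, 0, 0, 2, 0, 2, 0, 0, 2] x := by decide
    have g3 : ∀ x, vz ![2, 0, 0, 0, 2, 2, 0, 0, 0, 2] (x - -2) =
        vz ![0, 0, 2, 2, 0, 0, 0, 2, 2, 0] x := by decide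
    exact (no_gg ht ht1 ht2 ht3 hO hg'' (h1.congr g1 g2 g3)).elim

include ht ht1 ht2 ht3 hO hg in
/-- **the unit equation** -/
theorem unit10 (hM : Main Ex10) (hG : IndG (AddSubgroup.zmultiples (P0 (cc t) hb)) F)
    {f : F} (hf : IsUn (AddSubgroup.zmultiples (P0 (cc t) hb)) x y f)
    (hf' : IsUn (AddSubgroup.zmultiples (P0 (cc t) hb)) x y (1 - f)) :
    (∃ c : k, f = algebraMap k F c) ∨ Cl10 t hb x y f := by
  rcases exists_Q3 (hO := hO) hG hg hf hf' with h | ⟨D, E, G, d, hT, h, h1, h2, h3⟩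
  · exact Or.inl h
  right
  rcases hM hT h1 h2 h3 with ⟨S, p, q, r, n, hn, a1, a2, a3⟩ | ⟨s, hs⟩
  · exact Or.inl (pencilN hT h hn a1 a2 a3)
  · exact ex10 ht ht1 ht2 ht3 hO hg h hs

end Pool.Agent.UE10
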