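import Pool.Agent.Lib_helper76.UE10.B
import Pool.Agent.Lib_helper76.UEN.F

/-!
# Points of order ten: the generators and their divisors
-/

set_option autoImplicit false
set_option linter.unusedSectionVars false

open scoped TensorProduct

namespace Pool.Agent.UE10

open WeierstrassCurve.Affine Polynomial WithZero GK UP
open UEG (Gen IsUn LineOK P0 negY_wt)
open UEN
open TN (Wt Orb)
open MK4 (FT lg)
open FK4 (LineS Supp supp_iff)
open KC72

variable {k : Type*} [Field k] [DecidableEq k] [CharZero k] {t : k}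
  {F : Type*} [Field F] [DecidableEq F] [Algebra k F] {x y : F}

/-- the slopes of the lines through `P` and `jP` -/
def s3 (t : k) : k := (2 * t - 1) * (t - 1) / (t - (t - 1) ^ 2)

/-- the slopes of the lines through `P` and `jP` -/
def s4 (t : k) : k := t ^ 2 * (t - 1) / (t - (t - 1) ^ 2)

/-- the generators -/
def G10 (t : k) (x y : F) : Fin 13 → F := ![x, x - algebraMap k F (bb t), x - algebraMap k F (cc t),
  x - algebraMap k F (x4 t), x - algebraMap k F (x5 t), y, y - algebraMap k F (cc t) * x,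
  y - algebraMap k F (s3 t) * x, y - algebraMap k F (s4 t) * x, algebraMap k F t,
  algebraMap k F (t - 1), algebraMap k F (2 * t - 1), algebraMap k F (t ^ 2 - 3 * t + 1)]

/-- the list of the generators -/
def gl10 (t : k) (x y : F) : List F := [x, x - algebraMap k F (bb t), x - algebraMap k F (cc t),
  x - algebraMap k F (x4 t), x - algebraMap k F (x5 t), y, y - algebraMap k F (cc t) * x,
  y - algebraMap k F (s3 t) * x, y - algebraMap k F (s4 t) * x, algebraMap k F t,
  algebraMap k F (t - 1), algebraMap k F (2 * t - 1), algebraMap k F (t ^ 2 - 3 * t + 1)]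

omit [DecidableEq k] [CharZero k] [DecidableEq F] in
lemma ofFn_G10 (t : k) (x y : F) : List.ofFn (G10 t x y) = gl10 t x y := rfl

/-- the divisors of the generators -/
def ds10 : List (ZMod 10 → ℤ) := [dV 1, dV 2, dV 3, dV 4, dV 5, dL 1 1, dL 1 2, dL 1 3, dL 1 4,
  fun _ => 0, fun _ => 0, fun _ => 0, fun _ => 0]

variable (ht : t ≠ 0) (ht1 : t - 1 ≠ 0) (ht2 : 2 * t - 1 ≠ 0) (ht3 : t - (t - 1) ^ 2 ≠ 0)
  {hb : bb t ≠ 0} (hO : addOrderOf (P0 (cc t) hb) = 10)
  [Fintype (AddSubgroup.zmultiples (P0 (cc t) hb))]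
  [DecidableEq (AddSubgroup.zmultiples (P0 (cc t) hb))] (hg : Gen (Wt (bb t) (cc t)) x y)

omit [DecidableEq k] [CharZero k] in
lemma w_eq (t : k) : t ^ 2 - 3 * t + 1 = -(t - (t - 1) ^ 2) := by ring

include ht ht1 ht2 ht3 in
lemma pq_gl10 : List.Forall₂ (fun f d => PQ hO hg f d) (gl10 t x y) ds10 := by
  have V1 := pq_vert hO hg p1
  have V2 := pq_vert hO hg p2
  have V3 := pq_vert hO hg p3
  have V4 := pq_vert hO hg (p4 ht ht1 ht2 ht3)
  have V5 := pq_vert hO hg (p5 ht ht1 ht2 ht3)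
  rw [map_zero, sub_zero] at V1
  have hc := cc_ne ht ht1 ht2 ht3
  have hx4 : x4 t ≠ 0 := div_ne_zero (mul_ne_zero (mul_ne_zero (pow_ne_zero 2 ht) ht1) ht2)
    (pow_ne_zero 2 ht3)
  have L1 : PQ hO hg y (dL 1 1) := by
    have h' : LineOK (bb t) (cc t) 0 0 0 0 0 0 := by
      refine ⟨by ring, Or.inr ⟨rfl, rfl, fun h' => hb (by linear_combination -h'), by ring⟩⟩
    have := pq_line hO hg p1 p1 h'
    simpa using this
  have L2 : PQ hO hg (y - algebraMap k F (cc t) * x) (dL 1 2) := by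
    have h' : LineOK (bb t) (cc t) 0 0 (bb t) (bb t * cc t) (cc t) 0 :=
      ⟨by ring, Or.inl ⟨Ne.symm hb, by ring⟩⟩
    have := pq_line hO hg p1 p2 h'
    rwa [map_zero, add_zero] at this
  have L3 : PQ hO hg (y - algebraMap k F (s3 t) * x) (dL 1 3) := by
    have h' : LineOK (bb t) (cc t) 0 0 (cc t) (bb t - cc t) (s3 t) 0 :=
      ⟨by ring, Or.inl ⟨Ne.symm hc, by unfold s3 bb cc; field_simp; ring⟩⟩
    have := pq_line hO hg p1 p3 h'
    rwa [map_zero, add_zero] at this
  have L4 : PQ hO hg (y - algebraMap k F (s4 t) * x) (dL 1 4) := by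
    have h' : LineOK (bb t) (cc t) 0 0 (x4 t) (y4 t) (s4 t) 0 :=
      ⟨by ring, Or.inl ⟨Ne.symm hx4, by unfold s4 x4 y4; field_simp; ring⟩⟩
    have := pq_line hO hg p1 (p4 ht ht1 ht2 ht3) h'
    rwa [map_zero, add_zero] at this
  have hq : t ^ 2 - 3 * t + 1 ≠ 0 := by rw [w_eq]; exact neg_ne_zero.mpr ht3
  exact .cons V1 (.cons V2 (.cons V3 (.cons V4 (.cons V5 (.cons L1 (.cons L2 (.cons L3 (.cons L4
    (.cons (PQ.const hg ht) (.cons (PQ.const hg ht1) (.cons (PQ.const hg ht2)
    (.cons (PQ.const hg hq) .nil))))))))))))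

end Pool.Agent.UE10
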