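import Pool.Agent.Lib_helper76.UEN.S

/-!
# The solutions of the unit equation for a point of order ten: the generators
-/

set_option autoImplicit false
set_option linter.unusedSectionVars false
set_option linter.unusedSimpArgs false
set_option maxRecDepth 100000

namespace Pool.Agent.UE10

open Pool.Agent.KC72
open UE8 (evn okl clr)

variable {F : Type*} [Field F] {x y T : F}

/-- the scaled generators -/
def gs10 (x y T : F) : List F :=
  [x, x - T ^ 3 * (T - 1) * (2 * T - 1), x - (3 * T - T ^ 2 - 1) * (T * (T - 1) * (2 * T - 1)),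
    x - T ^ 2 * (T - 1) * (2 * T - 1), x - (3 * T - T ^ 2 - 1) * (T ^ 3 * (T - 1)), y,
    y - T * (T - 1) * (2 * T - 1) * x, y - (2 * T - 1) * (T - 1) * x,
    y - T ^ 2 * (T - 1) * x, T, T - 1, 2 * T - 1] ++ [T ^ 2 - 3 * T + 1]

end Pool.Agent.UE10
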