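import Pool.Agent.Lib_helper76.UE10.C
import Pool.Agent.Lib_helper76.UE10.S0

/-!
# Points of order ten: scaling
-/

set_option autoImplicit false
set_option linter.unusedSectionVars false

namespace Pool.Agent.UE10

open WeierstrassCurve.Affine
open UEG (Gen P0)
open UEN
open TN (Wt)
open KC72

variable {k : Type*} [Field k] {t : k} {F : Type*} [Field F] [Algebra k F] {x y : F}

/-- the weights -/
def ks10 : List ℤ := [2, 2, 2, 2, 2, 3, 3, 3, 3, 0, 0, 0, 0]

/-- the number `w` in `F` -/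
def wF (F : Type*) [Field F] [Algebra k F] (t : k) : F := algebraMap k F (t - (t - 1) ^ 2)

lemma gl10_eq (ht3 : t - (t - 1) ^ 2 ≠ 0) : gl10 t x y =
    scl (-(algebraMap k F t ^ 2 - 3 * algebraMap k F t + 1))⁻¹ ks10
      (gs10 (x * wF F t ^ 2) (y * wF F t ^ 3) (algebraMap k F t)) := by
  have hw : wF F t ≠ 0 := (_root_.map_ne_zero _).mpr ht3
  have e0 : -(algebraMap k F t ^ 2 - 3 * algebraMap k F t + 1) = wF F t := by
    unfold wF
    simp only [map_sub, map_pow, map_one]
    ring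
  have e1 : (3 * algebraMap k F t - algebraMap k F t ^ 2 - 1) = wF F t := by
    rw [← e0]; ring
  have ec : algebraMap k F (cc t) * wF F t =
      algebraMap k F t * (algebraMap k F t - 1) * (2 * algebraMap k F t - 1) := by
    unfold wF cc
    rw [← map_mul, div_mul_cancel₀ _ ht3]
    simp only [map_sub, map_mul, map_one, map_ofNat]
  have eb : algebraMap k F (bb t) * wF F t ^ 2 =
      algebraMap k F t ^ 3 * (algebraMap k F t - 1) * (2 * algebraMap k F t - 1) := by
    have : bb t * (t - (t - 1) ^ 2) ^ 2 = t ^ 3 * (t - 1) * (2 * t - 1) := by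
      unfold bb cc; field_simp
    unfold wF
    rw [← map_pow, ← map_mul, this]
    simp only [map_sub, map_mul, map_one, map_ofNat, map_pow]
  have e4 : algebraMap k F (x4 t) * wF F t ^ 2 =
      algebraMap k F t ^ 2 * (algebraMap k F t - 1) * (2 * algebraMap k F t - 1) := by
    have : x4 t * (t - (t - 1) ^ 2) ^ 2 = t ^ 2 * (t - 1) * (2 * t - 1) := by
      unfold x4; field_simp
    unfold wF
    rw [← map_pow, ← map_mul, this]
    simp only [map_sub, map_mul, map_one, map_ofNat, map_pow]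
  have e5 : algebraMap k F (x5 t) * wF F t =
      algebraMap k F t ^ 3 * (algebraMap k F t - 1) := by
    unfold wF x5
    rw [← map_mul, div_mul_cancel₀ _ ht3]
    simp only [map_sub, map_mul, map_one, map_pow]
  have es3 : algebraMap k F (s3 t) * wF F t =
      (2 * algebraMap k F t - 1) * (algebraMap k F t - 1) := by
    unfold wF s3
    rw [← map_mul, div_mul_cancel₀ _ ht3]
    simp only [map_sub, map_mul, map_one, map_ofNat]
  have es4 : algebraMap k F (s4 t) * wF F t =
      algebraMap k F t ^ 2 * (algebraMap k F t - 1) := by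
    unfold wF s4
    rw [← map_mul, div_mul_cancel₀ _ ht3]
    simp only [map_sub, map_mul, map_one, map_pow]
  rw [e0]
  unfold gs10 gl10 ks10
  rw [e1]
  simp only [List.cons_append, List.nil_append, scl, List.cons.injEq, zpow_zero, mul_one,
    and_true]
  have hz2 : (wF F t)⁻¹ ^ (2 : ℤ) = (wF F t ^ 2)⁻¹ := by
    rw [inv_zpow]; norm_cast
  have hz3 : (wF F t)⁻¹ ^ (3 : ℤ) = (wF F t ^ 3)⁻¹ := by
    rw [inv_zpow]; norm_cast
  rw [hz2, hz3]
  have h2 : wF F t ^ 2 ≠ 0 := pow_ne_zero 2 hw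
  have h3 : wF F t ^ 3 ≠ 0 := pow_ne_zero 3 hw
  refine ⟨?_, ?_, ?_, ?_, ?_, ?_, ?_, ?_, ?_, trivial, ?_, ?_, ?_⟩
  · rw [eq_mul_inv_iff_mul_eq₀ h2]
  · rw [eq_mul_inv_iff_mul_eq₀ h2]; linear_combination -eb
  · rw [eq_mul_inv_iff_mul_eq₀ h2]; linear_combination -wF F t * ec
  · rw [eq_mul_inv_iff_mul_eq₀ h2]; linear_combination -e4
  · rw [eq_mul_inv_iff_mul_eq₀ h2]; linear_combination -wF F t * e5
  · rw [eq_mul_inv_iff_mul_eq₀ h3]
  · rw [eq_mul_inv_iff_mul_eq₀ h3]; linear_combination -(x * wF F t ^ 2) * ec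
  · rw [eq_mul_inv_iff_mul_eq₀ h3]; linear_combination -(x * wF F t ^ 2) * es3
  · rw [eq_mul_inv_iff_mul_eq₀ h3]; linear_combination -(x * wF F t ^ 2) * es4
  · simp only [map_sub, map_one]
  · simp only [map_sub, map_one, map_mul, map_ofNat]
  · simp only [map_sub, map_one, map_mul, map_ofNat, map_add, map_pow]

/-- the equation of the scaled curve -/
lemma he10 (ht3 : t - (t - 1) ^ 2 ≠ 0) (he : y ^ 2 + (1 - algebraMap k F (cc t)) * x * y -
    algebraMap k F (bb t) * y = x ^ 3 - algebraMap k F (bb t) * x ^ 2) {X Y T : F}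
    (hX : X = x * wF F t ^ 2) (hY : Y = y * wF F t ^ 3) (hT : T = algebraMap k F t) :
    Y ^ 2 + ((3 * T - T ^ 2 - 1) - T * (T - 1) * (2 * T - 1)) * (X * Y) -
      T ^ 3 * (T - 1) * (2 * T - 1) * (3 * T - T ^ 2 - 1) * Y =
    X ^ 3 - T ^ 3 * (T - 1) * (2 * T - 1) * X ^ 2 := by
  have e1 : (3 * T - T ^ 2 - 1) = wF F t := by
    rw [hT]; unfold wF
    simp only [map_sub, map_pow, map_one]
    ring
  have ec : algebraMap k F (cc t) * wF F t = T * (T - 1) * (2 * T - 1) := by
    rw [hT]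
    unfold wF cc
    rw [← map_mul, div_mul_cancel₀ _ ht3]
    simp only [map_sub, map_mul, map_one, map_ofNat]
  have eb : algebraMap k F (bb t) * wF F t ^ 2 = T ^ 3 * (T - 1) * (2 * T - 1) := by
    rw [hT]
    have : bb t * (t - (t - 1) ^ 2) ^ 2 = t ^ 3 * (t - 1) * (2 * t - 1) := by
      unfold bb cc; field_simp
    unfold wF
    rw [← map_pow, ← map_mul, this]
    simp only [map_sub, map_mul, map_one, map_ofNat, map_pow]
  rw [e1, ← ec, ← eb, hX, hY]
  linear_combination wF F t ^ 6 * he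

end Pool.Agent.UE10
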