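import Pool.Agent.Lib_helper76.UE9.T9

/-!
# The parameters of the Tate normal form of the points of order ten
-/

set_option autoImplicit false

namespace Pool.Agent.UE10

variable {k : Type*} [Field k]

/-- the coefficient `c` -/
def cc (t : k) : k := t * (t - 1) * (2 * t - 1) / (t - (t - 1) ^ 2)

/-- the coefficient `b` -/
def bb (t : k) : k := t ^ 2 / (t - (t - 1) ^ 2) * cc t

end Pool.Agent.UE10
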