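import Pool.Agent.Lib_helper76.UE10.D
import Pool.Agent.Lib_helper76.UEN.RC
import Pool.Agent.Lib_helper24.FAM.R45

/-!
# Points of order ten: the closed elements, from a certificate
-/

set_option autoImplicit false
set_option linter.unusedSectionVars false

open scoped TensorProduct

namespace Pool.Agent.UE10

open WeierstrassCurve.Affine Polynomial WithZero GK UP
open UEG (Gen IsUn LineOK P0 negY_wt)
open UEN
open TN (Wt Orb)
open MK4 (FT lg)
open FK4 (LineS Supp supp_iff OnlyConst Generic)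
open KC72

/-- the four numbers are independent -/
def Ind4 {k : Type*} [Field k] (t : k) : Prop :=
  ∀ l m n o : ℤ, t ^ l * (t - 1) ^ m * (2 * t - 1) ^ n * (t ^ 2 - 3 * t + 1) ^ o = 1 →
    l = 0 ∧ m = 0 ∧ n = 0 ∧ o = 0

/-- the divisors of the nine functions -/
def dU : Fin 9 → ZMod 10 → ℤ := ![dV 1, dV 2, dV 3, dV 4, dV 5, dL 1 1, dL 1 2, dL 1 3, dL 1 4]

/-- the divisors are independent -/
lemma dU_inj {e : Fin 9 → ℤ} (h : ∀ x, ∑ j, e j * dU j x = 0) : e = 0 := by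
  have r1 : e 0 * 1 + (e 1 * 0 + e 2 * 0 + e 3 * 0 + e 4 * 0 + e 5 * 2 + e 6 * 1 + e 7 * 1 + e 8 * 1) = 0 := by
    have q := h 1
    rw [Fin.sum_univ_succ, Fin.sum_univ_eight] at q
    exact q
  have r2 : e 0 * 0 + (e 1 * 1 + e 2 * 0 + e 3 * 0 + e 4 * 0 + e 5 * 0 + e 6 * 1 + e 7 * 0 + e 8 * 0) = 0 := by
    have q := h 2
    rw [Fin.sum_univ_succ, Fin.sum_univ_eight] at q
    exact q
  have r3 : e 0 * 0 + (e 1 * 0 + e 2 * 1 + e 3 * 0 + e 4 * 0 + e 5 * 0 + e 6 * 0 + e 7 * 1 + e 8 * 0) = 0 := by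
    have q := h 3
    rw [Fin.sum_univ_succ, Fin.sum_univ_eight] at q
    exact q
  have r4 : e 0 * 0 + (e 1 * 0 + e 2 * 0 + e 3 * 1 + e 4 * 0 + e 5 * 0 + e 6 * 0 + e 7 * 0 + e 8 * 1) = 0 := by
    have q := h 4
    rw [Fin.sum_univ_succ, Fin.sum_univ_eight] at q
    exact q
  have r5 : e 0 * 0 + (e 1 * 0 + e 2 * 0 + e 3 * 0 + e 4 * 2 + e 5 * 0 + e 6 * 0 + e 7 * 0 + e 8 * 1) = 0 := by
    have q := h 5
    rw [Fin.sum_univ_succ, Fin.sum_univ_eight] at q
    exact q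
  have r6 : e 0 * 0 + (e 1 * 0 + e 2 * 0 + e 3 * 1 + e 4 * 0 + e 5 * 0 + e 6 * 0 + e 7 * 1 + e 8 * 0) = 0 := by
    have q := h 6
    rw [Fin.sum_univ_succ, Fin.sum_univ_eight] at q
    exact q
  have r7 : e 0 * 0 + (e 1 * 0 + e 2 * 1 + e 3 * 0 + e 4 * 0 + e 5 * 0 + e 6 * 1 + e 7 * 0 + e 8 * 0) = 0 := by
    have q := h 7
    rw [Fin.sum_univ_succ, Fin.sum_univ_eight] at q
    exact q
  have r8 : e 0 * 0 + (e 1 * 1 + e 2 * 0 + e 3 * 0 + e 4 * 0 + e 5 * 1 + e 6 * 0 + e 7 * 0 + e 8 * 0) = 0 := by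
    have q := h 8
    rw [Fin.sum_univ_succ, Fin.sum_univ_eight] at q
    exact q
  have r9 : e 0 * 1 + (e 1 * 0 + e 2 * 0 + e 3 * 0 + e 4 * 0 + e 5 * 0 + e 6 * 0 + e 7 * 0 + e 8 * 0) = 0 := by
    have q := h 9
    rw [Fin.sum_univ_succ, Fin.sum_univ_eight] at q
    exact q
  funext i
  fin_cases i
  · show e 0 = 0; omega
  · show e 1 = 0; omega
  · show e 2 = 0; omega
  · show e 3 = 0; omega
  · show e 4 = 0; omega
  · show e 5 = 0; omega
  · show e 6 = 0; omega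
  · show e 7 = 0; omega
  · show e 8 = 0; omega

lemma mz10 : ∀ S p x : ZMod 10, mz S p x = dg (cdn 10 S.val p.val) x := by decide +kernel

lemma sub10 : ∀ S p q : ZMod 10, p = S - q ↔ p.val = (S.val + 10 - q.val) % 10 := by
  decide +kernel

/-- the exceptional divisors belong to classes of the list -/
def ExMat (cls : List (Mo × Mo)) : Prop := ∀ s : ZMod 10,
  Mat ds10 cls (fun x => vz ![0, 0, 2, 0, 0, 0, 0, 2, 0, 0] (x - s))
    (fun x => vz ![0, 1, 0, 1, 0, 0, 1, 0, 1, 0] (x - s))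
    (fun x => vz ![1, 0, 0, 0, 1, 1, 0, 0, 0, 1] (x - s))

section closed

variable {k : Type*} [Field k] [DecidableEq k] [CharZero k] {t : k}
  {F : Type*} [Field F] [Algebra k F] {x y : F}

section

variable [DecidableEq F] (ht : t ≠ 0) (ht1 : t - 1 ≠ 0) (ht2 : 2 * t - 1 ≠ 0)
  (ht3 : t - (t - 1) ^ 2 ≠ 0)
  {hb : bb t ≠ 0} (hO : addOrderOf (P0 (cc t) hb) = 10)
  [Fintype (AddSubgroup.zmultiples (P0 (cc t) hb))]
  [DecidableEq (AddSubgroup.zmultiples (P0 (cc t) hb))] (hg : Gen (Wt (bb t) (cc t)) x y)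

include ht ht1 ht2 ht3 hO hg in
/-- the unit equation, with the classes of the list -/
theorem unit10_cls (hM : Main Ex10) (hG : IndG (AddSubgroup.zmultiples (P0 (cc t) hb)) F)
    {cls : List (Mo × Mo)} {T : ℕ → List (ℕ × ℕ × ℕ × ℕ)}
    (hT : ∀ S < 10, ∀ r ∈ T S, RowOK ds10 cls r) (hs : srch 10 T = true) (hX : ExMat cls)
    (hsol : Sols (gl10 t x y) cls) {f : F}
    (hf : IsUn (AddSubgroup.zmultiples (P0 (cc t) hb)) x y f)
    (hf' : IsUn (AddSubgroup.zmultiples (P0 (cc t) hb)) x y (1 - f)) :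
    (∃ c : k, f = algebraMap k F c) ∨ RL (gl10 t x y) cls f := by
  have hd := pq_gl10 ht ht1 ht2 ht3 hO hg
  refine unitR hO hM hG hg (rl_sub hd hsol) (rl_inv hd hsol) (fun hn h =>
    rl_mat hd hsol h (mat_nd hT hs mz10 sub10 hn)) ?_ hf hf'
  rintro f s A B C (⟨rfl, rfl, rfl⟩ | ⟨rfl, rfl, rfl⟩) h
  · exact rl_mat hd hsol h (hX s)
  · exfalso
    obtain ⟨X'', Y'', hg'', e''⟩ := gen_add hg (((en hO (-2 - s) :
      AddSubgroup.zmultiples (P0 (cc t) hb)) : (Wt (bb t) (cc t)).Point))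
    have e1 : gp hg'' = gp hg + pp F (AddSubgroup.zmultiples (P0 (cc t) hb)) (en hO (-2 - s)) := e''
    have h1 := h.tr e1
    have e2 : ∀ x : ZMod 10, x - (-2 - s) - s = x - -2 := fun x => by ring
    have g1 : ∀ x, vz ![0, 0, 4, 0, 0, 0, 0, 4, 0, 0] (x - -2) =
        vz ![4, 0, 0, 0, 0, 4, 0, 0, 0, 0] x := by decide
    have g2 : ∀ x, vz ![0, 2, 0, 2, 0, 0, 2, 0, 2, 0] (x - -2) =
        vz ![0, 2, 0, 0, 2, 0, 2, 0, 0, 2] x := by decide
    have g3 : ∀ x, vz ![2, 0, 0, 0, 2, 2, 0, 0, 0, 2] (x - -2) =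
        vz ![0, 0, 2, 2, 0, 0, 0, 2, 2, 0] x := by decide
    refine no_gg ht ht1 ht2 ht3 hO hg'' (h1.congr (fun x => ?_) (fun x => ?_) (fun x => ?_))
    · rw [e2]; exact g1 x
    · rw [e2]; exact g2 x
    · rw [e2]; exact g3 x

end

/-- **the closed elements are constant** -/
theorem closed10_of (hM : Main Ex10) (ht : t ≠ 0) (ht1 : t - 1 ≠ 0) (ht2 : 2 * t - 1 ≠ 0)
    (ht3 : t - (t - 1) ^ 2 ≠ 0) (hb : bb t ≠ 0) (hi : Ind4 t)
    (hO : addOrderOf (P0 (cc t) hb) = 10)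
    (hG : ∀ [Fintype (AddSubgroup.zmultiples (P0 (cc t) hb))] [DecidableEq F]
      [DecidableEq (AddSubgroup.zmultiples (P0 (cc t) hb))],
      IndG (AddSubgroup.zmultiples (P0 (cc t) hb)) F)
    (h : Generic (Wt (bb t) (cc t)) x y) {R : MC.RCert} (hR : MC.ROk R) (hn : R.n = 13) (hr : R.r = 9)
    {cls : List (Mo × Mo)} (hcl : MC.sameC R.cls cls = true)
    {T : ℕ → List (ℕ × ℕ × ℕ × ℕ)}
    (hT : ∀ S < 10, ∀ r ∈ T S, RowOK ds10 cls r) (hs : srch 10 T = true) (hX : ExMat cls)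
    (hsol : (∀ z ∈ gl10 t x y, z ≠ 0) → y ^ 2 + (1 - algebraMap k F (cc t)) * x * y -
      algebraMap k F (bb t) * y = x ^ 3 - algebraMap k F (bb t) * x ^ 2 →
      Sols (gl10 t x y) cls) :
    OnlyConst (AddSubgroup.zmultiples (P0 (cc t) hb)) x y := by
  classical
  have hfin : Finite (AddSubgroup.zmultiples (P0 (cc t) hb)) :=
    Finite.of_equiv _ (en hO).toEquiv
  have hft : Fintype (AddSubgroup.zmultiples (P0 (cc t) hb)) := Fintype.ofFinite _
  have hg := h.toU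
  have hq : t ^ 2 - 3 * t + 1 ≠ 0 := by rw [w_eq]; exact neg_ne_zero.mpr ht3
  have hd := pq_gl10 ht ht1 ht2 ht3 hO hg
  have hsol' := hsol (pq_ne hd) (UE4.of_UEG hg).eq
  have hU := fun (f : F) => unit10_cls ht ht1 ht2 ht3 hO hg hM hG hT hs hX hsol' (f := f)
  have hPU : ∀ j : Fin 9, PQ hO hg (G10 t x y (Fin.castLE (by norm_num) j)) (dU j) := by
    obtain ⟨h0, hd⟩ := List.forall₂_cons.mp hd
    obtain ⟨h1, hd⟩ := List.forall₂_cons.mp hd
    obtain ⟨h2, hd⟩ := List.forall₂_cons.mp hd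
    obtain ⟨h3, hd⟩ := List.forall₂_cons.mp hd
    obtain ⟨h4, hd⟩ := List.forall₂_cons.mp hd
    obtain ⟨h5, hd⟩ := List.forall₂_cons.mp hd
    obtain ⟨h6, hd⟩ := List.forall₂_cons.mp hd
    obtain ⟨h7, hd⟩ := List.forall₂_cons.mp hd
    obtain ⟨h8, hd⟩ := List.forall₂_cons.mp hd
    intro j
    fin_cases j
    · exact h0
    · exact h1
    · exact h2
    · exact h3
    · exact h4
    · exact h5
    · exact h6
    · exact h7
    · exact h8
  refine only_rcert hR (n := 13) (r := 9) hn hr (cls := cls) hcl (G := G10 t x y)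
    (by norm_num) ?_ ?_ ?_ ?_ ?_ ?_
  · intro i
    rw [supp_iff]
    fin_cases i
    · exact (hPU 0).1
    · exact (hPU 1).1
    · exact (hPU 2).1
    · exact (hPU 3).1
    · exact (hPU 4).1
    · exact (hPU 5).1
    · exact (hPU 6).1
    · exact (hPU 7).1
    · exact (hPU 8).1
    · exact (PQ.const (hO := hO) hg ht).1
    · exact (PQ.const (hO := hO) hg ht1).1
    · exact (PQ.const (hO := hO) hg ht2).1
    · exact (PQ.const (hO := hO) hg hq).1
  · intro i hi'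
    fin_cases i
    · simp at hi'
    · simp at hi'
    · simp at hi'
    · simp at hi'
    · simp at hi'
    · simp at hi'
    · simp at hi'
    · simp at hi'
    · simp at hi'
    · exact ⟨t, rfl⟩
    · exact ⟨t - 1, rfl⟩
    · exact ⟨2 * t - 1, rfl⟩
    · exact ⟨t ^ 2 - 3 * t + 1, rfl⟩
  · intro e c hc he
    apply dU_inj
    intro z
    have h1 := PQ.prod Finset.univ fun j => (hPU j).zpow (e j)
    rw [he] at h1
    exact h1.unique (PQ.const hg hc) z
  · intro e h0 he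
    have z0 := h0 0 (by norm_num)
    have z1 := h0 1 (by norm_num)
    have z2 := h0 2 (by norm_num)
    have z3 := h0 3 (by norm_num)
    have z4 := h0 4 (by norm_num)
    have z5 := h0 5 (by norm_num)
    have z6 := h0 6 (by norm_num)
    have z7 := h0 7 (by norm_num)
    have z8 := h0 8 (by norm_num)
    have h1 : algebraMap k F (t ^ e 9 * (t - 1) ^ e 10 * (2 * t - 1) ^ e 11 *
        (t ^ 2 - 3 * t + 1) ^ e 12) = 1 := by
      rw [← he, map_mul, map_mul, map_mul, map_zpow₀, map_zpow₀, map_zpow₀, map_zpow₀]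
      simp only [Fin.prod_univ_succ, Fin.prod_univ_zero, mul_one]
      have e0 : ∀ z : F, z ^ (0 : ℤ) = 1 := fun z => zpow_zero z
      show _ = G10 t x y 0 ^ e 0 * (G10 t x y 1 ^ e 1 * (G10 t x y 2 ^ e 2 * (G10 t x y 3 ^ e 3 *
        (G10 t x y 4 ^ e 4 * (G10 t x y 5 ^ e 5 * (G10 t x y 6 ^ e 6 * (G10 t x y 7 ^ e 7 *
        (G10 t x y 8 ^ e 8 * (G10 t x y 9 ^ e 9 * (G10 t x y 10 ^ e 10 * (G10 t x y 11 ^ e 11 *
        G10 t x y 12 ^ e 12)))))))))))
      rw [z0, z1, z2, z3, z4, z5, z6, z7, z8, e0, e0, e0, e0, e0, e0, e0, e0, e0]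
      simp only [one_mul]
      rw [mul_assoc, mul_assoc]
      rfl
    rw [← map_one (algebraMap k F)] at h1
    obtain ⟨g1, g2, g3, g4⟩ := hi _ _ _ _ ((algebraMap k F).injective h1)
    funext i
    fin_cases i
    · exact z0
    · exact z1
    · exact z2
    · exact z3
    · exact z4
    · exact z5
    · exact z6
    · exact z7
    · exact z8
    · exact g1
    · exact g2
    · exact g3
    · exact g4
  · rw [ofFn_G10]
    exact hsol'
  · intro f h1 h2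
    rw [ofFn_G10]
    exact hU f (supp_iff.mp h1) (supp_iff.mp h2)

end closed

end Pool.Agent.UE10
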