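import Pool.Agent.Lib_helper76.UE10.S0

/-!
# The solutions of the unit equation for a point of order ten, part 1c
-/

set_option autoImplicit false
set_option linter.unusedSectionVars false
set_option linter.unusedSimpArgs false
set_option maxRecDepth 100000

namespace Pool.Agent.UE10

open Pool.Agent.KC72
open UE8 (evn okl clr)

variable {F : Type*} [Field F] {x y T : F}

variable (he : y ^ 2 + ((3 * T - T ^ 2 - 1) - T * (T - 1) * (2 * T - 1)) * (x * y) -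
  T ^ 3 * (T - 1) * (2 * T - 1) * (3 * T - T ^ 2 - 1) * y =
    x ^ 3 - T ^ 3 * (T - 1) * (2 * T - 1) * x ^ 2)

include he in
lemma c20 : (bif true then -1 else 1) * evn (gs10 x y T) [0, 0, 0, 0, 0, 1, 1, 0, 0, 1, 1, 1, 0] +
    (bif false then -1 else 1) * evn (gs10 x y T) [0, 1, 1, 0, 0, 1, 0, 0, 0, 0, 0, 0, 0] =
    evn (gs10 x y T) [1, 1, 0, 0, 0, 0, 1, 0, 0, 0, 0, 0, 0] := by
  simp only [gs10, List.cons_append, List.nil_append, evn, cond_true, cond_false]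
  linear_combination (-2 * T ^ 3 + 3 * T ^ 2 - T) * he

include he in
lemma c21 : (bif true then -1 else 1) * evn (gs10 x y T) [0, 0, 0, 0, 0, 1, 0, 1, 0, 0, 1, 1, 0] +
    (bif false then -1 else 1) * evn (gs10 x y T) [0, 0, 1, 1, 0, 1, 0, 0, 0, 0, 0, 0, 0] =
    evn (gs10 x y T) [1, 1, 0, 0, 0, 0, 0, 1, 0, 0, 0, 0, 0] := by
  simp only [gs10, List.cons_append, List.nil_append, evn, cond_true, cond_false]
  linear_combination (-2 * T ^ 2 + 3 * T - 1) * he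

include he in
lemma c22 : (bif true then -1 else 1) * evn (gs10 x y T) [0, 0, 0, 0, 0, 1, 0, 0, 1, 2, 1, 0, 0] +
    (bif false then -1 else 1) * evn (gs10 x y T) [0, 0, 0, 1, 1, 1, 0, 0, 0, 0, 0, 0, 0] =
    evn (gs10 x y T) [1, 1, 0, 0, 0, 0, 0, 0, 1, 0, 0, 0, 0] := by
  simp only [gs10, List.cons_append, List.nil_append, evn, cond_true, cond_false]
  linear_combination (-T ^ 3 + T ^ 2) * he

include he in
lemma c23 : (bif false then -1 else 1) * evn (gs10 x y T) [0, 0, 0, 0, 0, 0, 1, 1, 0, 0, 2, 1, 0] +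
    (bif false then -1 else 1) * evn (gs10 x y T) [0, 0, 1, 1, 0, 0, 1, 0, 0, 0, 0, 0, 0] =
    evn (gs10 x y T) [0, 1, 1, 0, 0, 0, 0, 1, 0, 0, 0, 0, 0] := by
  simp only [gs10, List.cons_append, List.nil_append, evn, cond_true, cond_false]
  linear_combination (2 * T ^ 3 - 5 * T ^ 2 + 4 * T - 1) * he

include he in
lemma c24 : (bif false then -1 else 1) * evn (gs10 x y T) [0, 0, 0, 0, 0, 0, 1, 0, 1, 1, 2, 0, 0] +
    (bif false then -1 else 1) * evn (gs10 x y T) [0, 0, 0, 1, 1, 0, 1, 0, 0, 0, 0, 0, 0] =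
    evn (gs10 x y T) [0, 1, 1, 0, 0, 0, 0, 0, 1, 0, 0, 0, 0] := by
  simp only [gs10, List.cons_append, List.nil_append, evn, cond_true, cond_false]
  linear_combination (T ^ 3 - 2 * T ^ 2 + T) * he

include he in
lemma c25 : (bif true then -1 else 1) * evn (gs10 x y T) [0, 0, 0, 0, 0, 0, 0, 1, 1, 0, 3, 0, 0] +
    (bif false then -1 else 1) * evn (gs10 x y T) [0, 0, 0, 1, 1, 0, 0, 1, 0, 0, 0, 0, 0] =
    evn (gs10 x y T) [0, 0, 1, 1, 0, 0, 0, 0, 1, 0, 0, 0, 0] := by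
  simp only [gs10, List.cons_append, List.nil_append, evn, cond_true, cond_false]
  linear_combination (-T ^ 3 + 3 * T ^ 2 - 3 * T + 1) * he

include he in
lemma c26 : (bif true then -1 else 1) * evn (gs10 x y T) [1, 1, 0, 0, 0, 0, 1, 1, 0, 0, 1, 0, 0] +
    (bif false then -1 else 1) * evn (gs10 x y T) [0, 0, 1, 1, 0, 1, 1, 0, 0, 1, 0, 0, 0] =
    evn (gs10 x y T) [0, 1, 1, 0, 0, 1, 0, 1, 0, 0, 0, 0, 0] := by
  simp only [gs10, List.cons_append, List.nil_append, evn, cond_true, cond_false]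
  linear_combination (4 * x * T ^ 6 - 16 * x * T ^ 5 + 25 * x * T ^ 4 - 19 * x * T ^ 3 + 7 * x * T ^ 2 - x * T) * he

include he in
lemma c27 : (bif true then -1 else 1) * evn (gs10 x y T) [1, 1, 0, 0, 0, 0, 1, 0, 1, 0, 1, 0, 0] +
    (bif false then -1 else 1) * evn (gs10 x y T) [0, 0, 0, 1, 1, 1, 1, 0, 0, 0, 0, 1, 0] =
    evn (gs10 x y T) [0, 1, 1, 0, 0, 1, 0, 0, 1, 1, 0, 0, 0] := by
  simp only [gs10, List.cons_append, List.nil_append, evn, cond_true, cond_false]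
  linear_combination (2 * x * T ^ 7 - 7 * x * T ^ 6 + 9 * x * T ^ 5 - 5 * x * T ^ 4 + x * T ^ 3) * he

include he in
lemma c28 : (bif false then -1 else 1) * evn (gs10 x y T) [1, 1, 0, 0, 0, 0, 0, 1, 1, 0, 2, 0, 0] +
    (bif false then -1 else 1) * evn (gs10 x y T) [0, 0, 0, 1, 1, 1, 0, 1, 0, 0, 0, 1, 0] =
    evn (gs10 x y T) [0, 0, 1, 1, 0, 1, 0, 0, 1, 2, 0, 0, 0] := by
  simp only [gs10, List.cons_append, List.nil_append, evn, cond_true, cond_false]
  linear_combination (-2 * x * T ^ 7 + 9 * x * T ^ 6 - 16 * x * T ^ 5 + 14 * x * T ^ 4 - 6 * x * T ^ 3 + x * T ^ 2) * he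

include he in
lemma c29 : (bif true then -1 else 1) * evn (gs10 x y T) [0, 1, 1, 0, 0, 0, 0, 1, 1, 0, 1, 0, 0] +
    (bif false then -1 else 1) * evn (gs10 x y T) [0, 0, 0, 1, 1, 0, 1, 1, 0, 0, 0, 1, 0] =
    evn (gs10 x y T) [0, 0, 1, 1, 0, 0, 1, 0, 1, 1, 0, 0, 0] := by
  simp only [gs10, List.cons_append, List.nil_append, evn, cond_true, cond_false]
  linear_combination (2 * x * T ^ 7 - 11 * x * T ^ 6 + 25 * x * T ^ 5 - 30 * x * T ^ 4 + 20 * x * T ^ 3 - 7 * x * T ^ 2 + x * T) * he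

end Pool.Agent.UE10
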