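import Pool.Agent.Lib_helper76.UE10.S0

/-!
# The solutions of the unit equation for a point of order ten, part 1d
-/

set_option autoImplicit false
set_option linter.unusedSectionVars false
set_option linter.unusedSimpArgs false
set_option maxRecDepth 100000

namespace Pool.Agent.UE10

open Pool.Agent.KC72
open UE8 (evn okl clr)

variable {F : Type*} [Field F] {x y T : F}

variable (he : y ^ 2 + ((3 * T - T ^ 2 - 1) - T * (T - 1) * (2 * T - 1)) * (x * y) -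
  T ^ 3 * (T - 1) * (2 * T - 1) * (3 * T - T ^ 2 - 1) * y =
    x ^ 3 - T ^ 3 * (T - 1) * (2 * T - 1) * x ^ 2)

include he in
lemma c30 : (bif false then -1 else 1) * evn (gs10 x y T) [0, 1, 0, 0, 0, 0, 1, 0, 0, 0, 0, 0, 1] +
    (bif false then -1 else 1) * evn (gs10 x y T) [1, 1, 1, 0, 0, 0, 0, 0, 0, 0, 0, 0, 0] =
    evn (gs10 x y T) [0, 0, 0, 0, 0, 1, 1, 0, 0, 0, 0, 0, 0] := by
  simp only [gs10, List.cons_append, List.nil_append, evn, cond_true, cond_false]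
  linear_combination (-1) * he

include he in
lemma c31 : (bif true then -1 else 1) * evn (gs10 x y T) [0, 1, 0, 0, 0, 0, 1, 1, 0, 2, 0, 0, 0] +
    (bif false then -1 else 1) * evn (gs10 x y T) [0, 1, 1, 1, 0, 1, 0, 0, 0, 0, 0, 0, 0] =
    evn (gs10 x y T) [0, 0, 0, 0, 0, 1, 1, 1, 0, 0, 0, 0, 0] := by
  simp only [gs10, List.cons_append, List.nil_append, evn, cond_true, cond_false]
  linear_combination (-y + 4 * T ^ 7 - 12 * T ^ 6 + 13 * T ^ 5 - 6 * T ^ 4 + T ^ 3) * he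

include he in
lemma c32 : (bif false then -1 else 1) * evn (gs10 x y T) [0, 1, 0, 0, 0, 0, 0, 1, 1, 1, 0, 0, 1] +
    (bif false then -1 else 1) * evn (gs10 x y T) [0, 0, 1, 1, 1, 1, 0, 0, 0, 0, 0, 0, 0] =
    evn (gs10 x y T) [0, 0, 0, 0, 0, 1, 0, 1, 1, 0, 0, 0, 0] := by
  simp only [gs10, List.cons_append, List.nil_append, evn, cond_true, cond_false]
  linear_combination (-y - 2 * T ^ 8 + 11 * T ^ 7 - 21 * T ^ 6 + 18 * T ^ 5 - 7 * T ^ 4 + T ^ 3) * he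

include he in
lemma c33 : (bif true then -1 else 1) * evn (gs10 x y T) [0, 1, 0, 0, 0, 0, 0, 0, 2, 0, 0, 1, 0] +
    (bif false then -1 else 1) * evn (gs10 x y T) [0, 0, 0, 2, 1, 1, 0, 0, 0, 0, 0, 0, 0] =
    evn (gs10 x y T) [0, 0, 0, 0, 0, 1, 0, 0, 2, 0, 0, 0, 0] := by
  simp only [gs10, List.cons_append, List.nil_append, evn, cond_true, cond_false]
  linear_combination (-y + 2 * T ^ 7 - 5 * T ^ 6 + 4 * T ^ 5 - T ^ 4) * he

include he in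
lemma c34 : (bif true then -1 else 1) * evn (gs10 x y T) [0, 0, 0, 0, 0, 0, 1, 1, 0, 0, 1, 1, 0] +
    (bif false then -1 else 1) * evn (gs10 x y T) [0, 0, 1, 1, 0, 1, 0, 0, 0, 0, 0, 0, 0] =
    evn (gs10 x y T) [1, 0, 1, 0, 0, 0, 0, 1, 0, 0, 0, 0, 0] := by
  simp only [gs10, List.cons_append, List.nil_append, evn, cond_true, cond_false]
  linear_combination (-2 * T ^ 2 + 3 * T - 1) * he

include he in
lemma c35 : (bif false then -1 else 1) * evn (gs10 x y T) [0, 1, 0, 0, 0, 0, 1, 1, 1, 0, 1, 0, 1] +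
    (bif false then -1 else 1) * evn (gs10 x y T) [0, 0, 1, 1, 1, 1, 1, 0, 0, 0, 0, 0, 0] =
    evn (gs10 x y T) [1, 1, 1, 0, 0, 0, 0, 1, 1, 0, 0, 0, 0] := by
  simp only [gs10, List.cons_append, List.nil_append, evn, cond_true, cond_false]
  linear_combination (2 * x ^ 2 * T ^ 5 - 5 * x ^ 2 * T ^ 4 + 4 * x ^ 2 * T ^ 3 - x ^ 2 * T ^ 2 + x * y * T ^ 3 - 4 * x * y * T ^ 2 + 4 * x * y * T - x * y + 4 * x * T ^ 11 - 28 * x * T ^ 10 + 77 * x * T ^ 9 - 110 * x * T ^ 8 + 89 * x * T ^ 7 - 41 * x * T ^ 6 + 10 * x * T ^ 5 - x * T ^ 4 - 2 * y * T ^ 8 + 11 * y * T ^ 7 - 21 * y * T ^ 6 + 18 * y * T ^ 5 - 7 * y * T ^ 4 + y * T ^ 3) * he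

include he in
lemma c36 : (bif true then -1 else 1) * evn (gs10 x y T) [0, 1, 0, 0, 0, 0, 1, 0, 2, 1, 1, 0, 0] +
    (bif false then -1 else 1) * evn (gs10 x y T) [0, 0, 0, 2, 1, 1, 1, 0, 0, 0, 0, 0, 0] =
    evn (gs10 x y T) [1, 1, 1, 0, 0, 0, 0, 0, 2, 0, 0, 0, 0] := by
  simp only [gs10, List.cons_append, List.nil_append, evn, cond_true, cond_false]
  linear_combination (x ^ 2 * T ^ 6 - 2 * x ^ 2 * T ^ 5 + x ^ 2 * T ^ 4 - x * y * T ^ 2 + x * y * T - 4 * x * T ^ 10 + 16 * x * T ^ 9 - 25 * x * T ^ 8 + 19 * x * T ^ 7 - 7 * x * T ^ 6 + x * T ^ 5 + 2 * y * T ^ 7 - 5 * y * T ^ 6 + 4 * y * T ^ 5 - y * T ^ 4) * he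

include he in
lemma c37 : (bif false then -1 else 1) * evn (gs10 x y T) [0, 1, 0, 0, 0, 0, 1, 1, 1, 1, 2, 0, 0] +
    (bif false then -1 else 1) * evn (gs10 x y T) [0, 0, 1, 1, 1, 1, 1, 0, 0, 0, 0, 0, 0] =
    evn (gs10 x y T) [0, 1, 1, 1, 0, 1, 0, 0, 1, 0, 0, 0, 0] := by
  simp only [gs10, List.cons_append, List.nil_append, evn, cond_true, cond_false]
  linear_combination (x * y * T ^ 3 - 2 * x * y * T ^ 2 + x * y * T + 4 * x * T ^ 11 - 24 * x * T ^ 10 + 61 * x * T ^ 9 - 85 * x * T ^ 8 + 70 * x * T ^ 7 - 34 * x * T ^ 6 + 9 * x * T ^ 5 - x * T ^ 4 - 2 * y * T ^ 8 + 7 * y * T ^ 7 - 9 * y * T ^ 6 + 5 * y * T ^ 5 - y * T ^ 4) * he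

include he in
lemma c38 : (bif false then -1 else 1) * evn (gs10 x y T) [0, 1, 0, 0, 0, 0, 1, 1, 2, 0, 2, 0, 0] +
    (bif false then -1 else 1) * evn (gs10 x y T) [0, 0, 0, 2, 1, 1, 1, 1, 0, 0, 0, 0, 0] =
    evn (gs10 x y T) [0, 1, 1, 1, 0, 1, 0, 0, 2, 0, 0, 0, 0] := by
  simp only [gs10, List.cons_append, List.nil_append, evn, cond_true, cond_false]
  linear_combination (x ^ 2 * y * T ^ 6 - 6 * x ^ 2 * y * T ^ 5 + 13 * x ^ 2 * y * T ^ 4 - 13 * x ^ 2 * y * T ^ 3 + 6 * x ^ 2 * y * T ^ 2 - x ^ 2 * y * T - 4 * x ^ 2 * T ^ 13 + 28 * x ^ 2 * T ^ 12 - 85 * x ^ 2 * T ^ 11 + 146 * x ^ 2 * T ^ 10 - 155 * x ^ 2 * T ^ 9 + 104 * x ^ 2 * T ^ 8 - 43 * x ^ 2 * T ^ 7 + 10 * x ^ 2 * T ^ 6 - x ^ 2 * T ^ 5 + x * y ^ 2 * T ^ 2 - 2 * x * y ^ 2 * T + x * y ^ 2 + 4 * x * y * T ^ 10 - 20 * x * y * T ^ 9 + 41 * x * y * T ^ 8 - 44 * x * y * T ^ 7 + 26 * x * y * T ^ 6 - 8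 * x * y * T ^ 5 + x * y * T ^ 4 - 2 * y ^ 2 * T ^ 7 + 7 * y ^ 2 * T ^ 6 - 9 * y ^ 2 * T ^ 5 + 5 * y ^ 2 * T ^ 4 - y ^ 2 * T ^ 3) * he

include he in
lemma c39 : (bif true then -1 else 1) * evn (gs10 x y T) [0, 1, 0, 0, 0, 0, 0, 1, 2, 0, 3, 0, 0] +
    (bif false then -1 else 1) * evn (gs10 x y T) [0, 0, 0, 2, 1, 1, 0, 1, 0, 0, 0, 0, 0] =
    evn (gs10 x y T) [0, 0, 1, 1, 1, 1, 0, 0, 1, 0, 0, 0, 0] := by
  simp only [gs10, List.cons_append, List.nil_append, evn, cond_true, cond_false]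
  linear_combination (-x * y * T ^ 3 + 3 * x * y * T ^ 2 - 3 * x * y * T + x * y - 2 * x * T ^ 11 + 13 * x * T ^ 10 - 36 * x * T ^ 9 + 55 * x * T ^ 8 - 50 * x * T ^ 7 + 27 * x * T ^ 6 - 8 * x * T ^ 5 + x * T ^ 4 + 2 * y * T ^ 8 - 9 * y * T ^ 7 + 16 * y * T ^ 6 - 14 * y * T ^ 5 + 6 * y * T ^ 4 - y * T ^ 3) * he

end Pool.Agent.UE10
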