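import Pool.Agent.Lib_helper76.UE10.S1a
import Pool.Agent.Lib_helper76.UE10.S1b
import Pool.Agent.Lib_helper76.UE10.S1c
import Pool.Agent.Lib_helper76.UE10.S1d

/-!
# The solutions of the unit equation for a point of order ten, part 1
-/

set_option autoImplicit false
set_option linter.unusedSectionVars false
set_option linter.unusedSimpArgs false
set_option maxRecDepth 100000

namespace Pool.Agent.UE10

open Pool.Agent.KC72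
open UE8 (evn okl clr)

variable {F : Type*} [Field F] {x y T : F}

variable (he : y ^ 2 + ((3 * T - T ^ 2 - 1) - T * (T - 1) * (2 * T - 1)) * (x * y) -
  T ^ 3 * (T - 1) * (2 * T - 1) * (3 * T - T ^ 2 - 1) * y =
    x ^ 3 - T ^ 3 * (T - 1) * (2 * T - 1) * x ^ 2)

/-- part 1 of the list -/
def cp1 : List (Mo × Mo) := [
  ((false, [-1, 0, 0, 0, 0, 0, 0, 0, 0, 3, 1, 1, 0]), (false, [-1, 1, 0, 0, 0, 0, 0, 0, 0, 0, 0, 0, 0])),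
  ((true, [-1, 0, 0, 0, 0, 0, 0, 0, 0, 1, 1, 1, 1]), (false, [-1, 0, 1, 0, 0, 0, 0, 0, 0, 0, 0, 0, 0])),
  ((false, [-1, 0, 0, 0, 0, 0, 0, 0, 0, 2, 1, 1, 0]), (false, [-1, 0, 0, 1, 0, 0, 0, 0, 0, 0, 0, 0, 0])),
  ((true, [-1, 0, 0, 0, 0, 0, 0, 0, 0, 3, 1, 0, 1]), (false, [-1, 0, 0, 0, 1, 0, 0, 0, 0, 0, 0, 0, 0])),
  ((true, [0, -1, 0, 0, 0, 0, 0, 0, 0, 1, 2, 2, 0]), (false, [0, -1, 1, 0, 0, 0, 0, 0, 0, 0, 0, 0, 0])),
  ((true, [0, -1, 0, 0, 0, 0, 0, 0, 0, 2, 2, 1, 0]), (false, [0, -1, 0, 1, 0, 0, 0, 0, 0, 0, 0, 0, 0])),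
  ((true, [0, -1, 0, 0, 0, 0, 0, 0, 0, 4, 2, 0, 0]), (false, [0, -1, 0, 0, 1, 0, 0, 0, 0, 0, 0, 0, 0])),
  ((false, [0, 0, -1, 0, 0, 0, 0, 0, 0, 1, 3, 1, 0]), (false, [0, 0, -1, 1, 0, 0, 0, 0, 0, 0, 0, 0, 0])),
  ((true, [0, 0, -1, 0, 0, 0, 0, 0, 0, 1, 3, 0, 1]), (false, [0, 0, -1, 0, 1, 0, 0, 0, 0, 0, 0, 0, 0])),
  ((true, [0, 0, 0, -1, 0, 0, 0, 0, 0, 2, 4, 0, 0]), (false, [0, 0, 0, -1, 1, 0, 0, 0, 0, 0, 0, 0, 0])),
  ((false, [1, -1, 0, 0, 0, 0, 0, 0, 0, 0, 1, 1, -1]), (true, [0, -1, 1, 0, 0, 0, 0, 0, 0, 2, 0, 0, -1])),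
  ((true, [1, -1, 0, 0, 0, 0, 0, 0, 0, 0, 1, 0, 0]), (false, [0, -1, 0, 1, 0, 0, 0, 0, 0, 1, 0, 0, 0])),
  ((false, [1, -1, 0, 0, 0, 0, 0, 0, 0, 1, 1, 0, -1]), (true, [0, -1, 0, 0, 1, 0, 0, 0, 0, 0, 0, 1, -1])),
  ((false, [1, 0, -1, 0, 0, 0, 0, 0, 0, -1, 2, 0, 0]), (true, [0, 0, -1, 1, 0, 0, 0, 0, 0, -1, 0, 0, 1])),
  ((false, [1, 0, -1, 0, 0, 0, 0, 0, 0, -2, 2, 0, 0]), (false, [0, 0, -1, 0, 1, 0, 0, 0, 0, -2, 0, 1, 0])),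
  ((false, [1, 0, 0, -1, 0, 0, 0, 0, 0, -1, 3, 0, -1]), (true, [0, 0, 0, -1, 1, 0, 0, 0, 0, -1, 0, 1, -1])),
  ((true, [0, 1, -1, 0, 0, 0, 0, 0, 0, -1, 1, 0, 0]), (false, [0, 0, -1, 1, 0, 0, 0, 0, 0, -1, 0, 1, 0])),
  ((false, [0, 1, -1, 0, 0, 0, 0, 0, 0, -3, 1, 0, 1]), (false, [0, 0, -1, 0, 1, 0, 0, 0, 0, -3, 0, 2, 0])),
  ((false, [0, 1, 0, -1, 0, 0, 0, 0, 0, -2, 2, 0, 0]), (false, [0, 0, 0, -1, 1, 0, 0, 0, 0, -2, 0, 1, 0])),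
  ((false, [0, 0, 1, -1, 0, 0, 0, 0, 0, 1, 1, 0, -1]), (true, [0, 0, 0, -1, 1, 0, 0, 0, 0, 0, 0, 1, -1])),
  ((true, [-1, -1, 0, 0, 0, 1, 0, 0, 0, 1, 1, 1, 0]), (false, [-1, 0, 1, 0, 0, 1, -1, 0, 0, 0, 0, 0, 0])),
  ((true, [-1, -1, 0, 0, 0, 1, 0, 0, 0, 0, 1, 1, 0]), (false, [-1, -1, 1, 1, 0, 1, 0, -1, 0, 0, 0, 0, 0])),
  ((true, [-1, -1, 0, 0, 0, 1, 0, 0, 0, 2, 1, 0, 0]), (false, [-1, -1, 0, 1, 1, 1, 0, 0, -1, 0, 0, 0, 0])),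
  ((false, [0, -1, -1, 0, 0, 0, 1, 0, 0, 0, 2, 1, 0]), (false, [0, -1, 0, 1, 0, 0, 1, -1, 0, 0, 0, 0, 0])),
  ((false, [0, -1, -1, 0, 0, 0, 1, 0, 0, 1, 2, 0, 0]), (false, [0, -1, -1, 1, 1, 0, 1, 0, -1, 0, 0, 0, 0])),
  ((true, [0, 0, -1, -1, 0, 0, 0, 1, 0, 0, 3, 0, 0]), (false, [0, 0, -1, 0, 1, 0, 0, 1, -1, 0, 0, 0, 0])),
  ((true, [1, 0, -1, 0, 0, -1, 1, 0, 0, 0, 1, 0, 0]), (false, [0, -1, 0, 1, 0, 0, 1, -1, 0, 1, 0, 0, 0])),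
  ((true, [1, 0, -1, 0, 0, -1, 1, 0, 0, -1, 1, 0, 0]), (false, [0, -1, -1, 1, 1, 0, 1, 0, -1, -1, 0, 1, 0])),
  ((false, [1, 1, -1, -1, 0, -1, 0, 1, 0, -2, 2, 0, 0]), (false, [0, 0, -1, 0, 1, 0, 0, 1, -1, -2, 0, 1, 0])),
  ((true, [0, 1, 0, -1, 0, 0, -1, 1, 0, -1, 1, 0, 0]), (false, [0, 0, -1, 0, 1, 0, 0, 1, -1, -1, 0, 1, 0])),
  ((false, [0, 1, 0, 0, 0, -1, 0, 0, 0, 0, 0, 0, 1]), (false, [1, 1, 1, 0, 0, -1, -1, 0, 0, 0, 0, 0, 0])),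
  ((true, [0, 1, 0, 0, 0, -1, 0, 0, 0, 2, 0, 0, 0]), (false, [0, 1, 1, 1, 0, 0, -1, -1, 0, 0, 0, 0, 0])),
  ((false, [0, 1, 0, 0, 0, -1, 0, 0, 0, 1, 0, 0, 1]), (false, [0, 0, 1, 1, 1, 0, 0, -1, -1, 0, 0, 0, 0])),
  ((true, [0, 1, 0, 0, 0, -1, 0, 0, 0, 0, 0, 1, 0]), (false, [0, 0, 0, 2, 1, 0, 0, 0, -2, 0, 0, 0, 0])),
  ((true, [-1, 0, -1, 0, 0, 0, 1, 0, 0, 0, 1, 1, 0]), (false, [-1, 0, 0, 1, 0, 1, 0, -1, 0, 0, 0, 0, 0])),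
  ((false, [-1, 0, -1, 0, 0, 0, 1, 0, 0, 0, 1, 0, 1]), (false, [-1, -1, 0, 1, 1, 1, 1, -1, -1, 0, 0, 0, 0])),
  ((true, [-1, 0, -1, 0, 0, 0, 1, 0, 0, 1, 1, 0, 0]), (false, [-1, -1, -1, 2, 1, 1, 1, 0, -2, 0, 0, 0, 0])),
  ((false, [0, 0, -1, -1, 0, -1, 1, 1, 0, 1, 2, 0, 0]), (false, [0, -1, 0, 0, 1, 0, 1, 0, -1, 0, 0, 0, 0])),
  ((false, [0, 0, -1, -1, 0, -1, 1, 1, 0, 0, 2, 0, 0]), (false, [0, -1, -1, 1, 1, 0, 1, 1, -2, 0, 0, 0, 0])),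
  ((true, [0, 1, -1, -1, -1, -1, 0, 1, 1, 0, 3, 0, 0]), (false, [0, 0, -1, 1, 0, 0, 0, 1, -1, 0, 0, 0, 0]))]

include he in
theorem sp1 (hne : ∀ z ∈ gs10 x y T, z ≠ 0) : Sols (gs10 x y T) cp1 := by
  intro p hp
  unfold cp1 at hp
  simp only [List.mem_cons, List.not_mem_nil, or_false] at hp
  rcases hp with rfl | rfl | rfl | rfl | rfl | rfl | rfl | rfl | rfl | rfl | rfl | rfl | rfl | rfl | rfl | rfl | rfl | rfl | rfl | rfl | rfl | rfl | rfl | rfl | rfl | rfl | rfl | rfl | rfl | rfl | rfl | rfl | rfl | rfl | rfl | rfl | rfl | rfl | rfl | rfl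
  · exact clr hne (by decide) (by decide) rfl rfl (c0 he)
  · exact clr hne (by decide) (by decide) rfl rfl (c1 he)
  · exact clr hne (by decide) (by decide) rfl rfl (c2 he)
  · exact clr hne (by decide) (by decide) rfl rfl (c3 he)
  · exact clr hne (by decide) (by decide) rfl rfl (c4 he)
  · exact clr hne (by decide) (by decide) rfl rfl (c5 he)
  · exact clr hne (by decide) (by decide) rfl rfl (c6 he)
  · exact clr hne (by decide) (by decide) rfl rfl (c7 he)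
  · exact clr hne (by decide) (by decide) rfl rfl (c8 he)
  · exact clr hne (by decide) (by decide) rfl rfl (c9 he)
  · exact clr hne (by decide) (by decide) rfl rfl (c10 he)
  · exact clr hne (by decide) (by decide) rfl rfl (c11 he)
  · exact clr hne (by decide) (by decide) rfl rfl (c12 he)
  · exact clr hne (by decide) (by decide) rfl rfl (c13 he)
  · exact clr hne (by decide) (by decide) rfl rfl (c14 he)
  · exact clr hne (by decide) (by decide) rfl rfl (c15 he)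
  · exact clr hne (by decide) (by decide) rfl rfl (c16 he)
  · exact clr hne (by decide) (by decide) rfl rfl (c17 he)
  · exact clr hne (by decide) (by decide) rfl rfl (c18 he)
  · exact clr hne (by decide) (by decide) rfl rfl (c19 he)
  · exact clr hne (by decide) (by decide) rfl rfl (c20 he)
  · exact clr hne (by decide) (by decide) rfl rfl (c21 he)
  · exact clr hne (by decide) (by decide) rfl rfl (c22 he)
  · exact clr hne (by decide) (by decide) rfl rfl (c23 he)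
  · exact clr hne (by decide) (by decide) rfl rfl (c24 he)
  · exact clr hne (by decide) (by decide) rfl rfl (c25 he)
  · exact clr hne (by decide) (by decide) rfl rfl (c26 he)
  · exact clr hne (by decide) (by decide) rfl rfl (c27 he)
  · exact clr hne (by decide) (by decide) rfl rfl (c28 he)
  · exact clr hne (by decide) (by decide) rfl rfl (c29 he)
  · exact clr hne (by decide) (by decide) rfl rfl (c30 he)
  · exact clr hne (by decide) (by decide) rfl rfl (c31 he)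
  · exact clr hne (by decide) (by decide) rfl rfl (c32 he)
  · exact clr hne (by decide) (by decide) rfl rfl (c33 he)
  · exact clr hne (by decide) (by decide) rfl rfl (c34 he)
  · exact clr hne (by decide) (by decide) rfl rfl (c35 he)
  · exact clr hne (by decide) (by decide) rfl rfl (c36 he)
  · exact clr hne (by decide) (by decide) rfl rfl (c37 he)
  · exact clr hne (by decide) (by decide) rfl rfl (c38 he)
  · exact clr hne (by decide) (by decide) rfl rfl (c39 he)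

end Pool.Agent.UE10
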