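import Pool.Agent.Lib_helper76.UE10.S0

/-!
# The solutions of the unit equation for a point of order ten, part 2c
-/

set_option autoImplicit false
set_option linter.unusedSectionVars false
set_option linter.unusedSimpArgs false
set_option maxRecDepth 100000

namespace Pool.Agent.UE10

open Pool.Agent.KC72
open UE8 (evn okl clr)

variable {F : Type*} [Field F] {x y T : F}

variable (he : y ^ 2 + ((3 * T - T ^ 2 - 1) - T * (T - 1) * (2 * T - 1)) * (x * y) -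
  T ^ 3 * (T - 1) * (2 * T - 1) * (3 * T - T ^ 2 - 1) * y =
    x ^ 3 - T ^ 3 * (T - 1) * (2 * T - 1) * x ^ 2)

include he in
lemma c60 : (bif false then -1 else 1) * evn (gs10 x y T) [0, 0, 1, 1, 0, 1, 0, 0, 0, 1, 1, 1, 0] +
    (bif false then -1 else 1) * evn (gs10 x y T) [0, 1, 0, 0, 0, 0, 1, 1, 0, 0, 0, 0, 0] =
    evn (gs10 x y T) [0, 0, 1, 0, 0, 1, 0, 1, 0, 0, 0, 0, 0] := by
  simp only [gs10, List.cons_append, List.nil_append, evn, cond_true, cond_false]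
  linear_combination (-4 * T ^ 5 + 12 * T ^ 4 - 13 * T ^ 3 + 6 * T ^ 2 - T) * he

include he in
lemma c61 : (bif false then -1 else 1) * evn (gs10 x y T) [0, 0, 0, 1, 0, 0, 0, 0, 1, 1, 0, 0, 1] +
    (bif false then -1 else 1) * evn (gs10 x y T) [1, 0, 0, 1, 1, 0, 0, 0, 0, 0, 0, 0, 0] =
    evn (gs10 x y T) [0, 0, 0, 0, 0, 0, 0, 1, 1, 0, 0, 0, 0] := by
  simp only [gs10, List.cons_append, List.nil_append, evn, cond_true, cond_false]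
  linear_combination (-1) * he

include he in
lemma c62 : (bif true then -1 else 1) * evn (gs10 x y T) [0, 0, 0, 1, 0, 0, 0, 0, 2, 1, 0, 1, 0] +
    (bif false then -1 else 1) * evn (gs10 x y T) [0, 0, 0, 2, 1, 1, 0, 0, 0, 0, 0, 0, 0] =
    evn (gs10 x y T) [0, 0, 0, 0, 0, 0, 0, 1, 2, 0, 0, 0, 0] := by
  simp only [gs10, List.cons_append, List.nil_append, evn, cond_true, cond_false]
  linear_combination (-y + 2 * T ^ 7 - 5 * T ^ 6 + 4 * T ^ 5 - T ^ 4) * he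

include he in
lemma c63 : (bif false then -1 else 1) * evn (gs10 x y T) [0, 1, 0, 1, 0, 0, 0, 1, 2, 0, 0, 1, 1] +
    (bif false then -1 else 1) * evn (gs10 x y T) [0, 0, 1, 2, 1, 1, 1, 0, 0, 0, 0, 0, 0] =
    evn (gs10 x y T) [0, 1, 0, 0, 0, 0, 0, 2, 2, 0, 0, 0, 0] := by
  simp only [gs10, List.cons_append, List.nil_append, evn, cond_true, cond_false]
  linear_combination (2 * x ^ 2 * y * T ^ 3 - 3 * x ^ 2 * y * T ^ 2 + x ^ 2 * y * T + 4 * x ^ 2 * T ^ 11 - 24 * x ^ 2 * T ^ 10 + 57 * x ^ 2 * T ^ 9 - 69 * x ^ 2 * T ^ 8 + 45 * x ^ 2 * T ^ 7 - 15 * x ^ 2 * T ^ 6 + 2 * x ^ 2 * T ^ 5 - x * y ^ 2 - 4 * x * y * T ^ 8 + 10 * x * y * T ^ 7 - 2 * x * y * T ^ 6 - 15 * x * y * T ^ 5 + 17 * x * y * T ^ 4 - 7 * x * y * T ^ 3 + x * y * T ^ 2 - 8 * x * T ^ 15 + 68 * x * T ^ 14 - 242 * x * T ^ 13 + 479 * x * T ^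 12 - 585 * x * T ^ 11 + 459 * x * T ^ 10 - 232 * x * T ^ 9 + 73 * x * T ^ 8 - 13 * x * T ^ 7 + x * T ^ 6 + 2 * y ^ 2 * T ^ 5 - 3 * y ^ 2 * T ^ 4 + y ^ 2 * T ^ 3 + 4 * y * T ^ 12 - 28 * y * T ^ 11 + 77 * y * T ^ 10 - 110 * y * T ^ 9 + 89 * y * T ^ 8 - 41 * y * T ^ 7 + 10 * y * T ^ 6 - y * T ^ 5) * he

include he in
lemma c64 : (bif true then -1 else 1) * evn (gs10 x y T) [0, 0, 1, 1, 0, 1, 0, 0, 1, 3, 0, 0, 0] +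
    (bif false then -1 else 1) * evn (gs10 x y T) [1, 0, 1, 1, 1, 1, 0, 0, 0, 0, 0, 0, 0] =
    evn (gs10 x y T) [0, 1, 0, 0, 0, 0, 1, 1, 1, 0, 0, 0, 0] := by
  simp only [gs10, List.cons_append, List.nil_append, evn, cond_true, cond_false]
  linear_combination (-x * y - 4 * x * T ^ 8 + 16 * x * T ^ 7 - 25 * x * T ^ 6 + 19 * x * T ^ 5 - 7 * x * T ^ 4 + x * T ^ 3 + 2 * y * T ^ 5 - 3 * y * T ^ 4 + y * T ^ 3) * he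

include he in
lemma c65 : (bif true then -1 else 1) * evn (gs10 x y T) [0, 0, 1, 1, 0, 1, 0, 0, 2, 2, 0, 1, 0] +
    (bif false then -1 else 1) * evn (gs10 x y T) [0, 0, 1, 2, 1, 2, 0, 0, 0, 0, 0, 0, 0] =
    evn (gs10 x y T) [0, 1, 0, 0, 0, 0, 1, 1, 2, 0, 0, 0, 0] := by
  simp only [gs10, List.cons_append, List.nil_append, evn, cond_true, cond_false]
  linear_combination (4 * x ^ 2 * T ^ 11 - 20 * x ^ 2 * T ^ 10 + 41 * x ^ 2 * T ^ 9 - 44 * x ^ 2 * T ^ 8 + 26 * x ^ 2 * T ^ 7 - 8 * x ^ 2 * T ^ 6 + x ^ 2 * T ^ 5 - x * y ^ 2 - 8 * x * y * T ^ 8 + 34 * x * y * T ^ 7 - 55 * x * y * T ^ 6 + 42 * x * y * T ^ 5 - 15 * x * y * T ^ 4 + 2 * x * y * T ^ 3 + 2 * y ^ 2 * T ^ 5 - 3 * y ^ 2 * T ^ 4 + y ^ 2 * T ^ 3 + 4 * y * T ^ 12 - 28 * y * T ^ 11 + 77 * y * T ^ 10 - 110 * y * T ^ 9 + 89 * y * T ^ 8 - 41 * y *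 T ^ 7 + 10 * y * T ^ 6 - y * T ^ 5) * he

include he in
lemma c66 : (bif true then -1 else 1) * evn (gs10 x y T) [0, 1, 1, 1, 0, 1, 0, 1, 2, 0, 0, 2, 0] +
    (bif false then -1 else 1) * evn (gs10 x y T) [0, 0, 2, 2, 1, 2, 1, 0, 0, 0, 0, 0, 0] =
    evn (gs10 x y T) [0, 2, 0, 0, 0, 0, 1, 2, 2, 0, 0, 0, 0] := by
  simp only [gs10, List.cons_append, List.nil_append, evn, cond_true, cond_false]
  linear_combination (-8 * x ^ 4 * T ^ 13 + 52 * x ^ 4 * T ^ 12 - 146 * x ^ 4 * T ^ 11 + 231 * x ^ 4 * T ^ 10 - 225 * x ^ 4 * T ^ 9 + 138 * x ^ 4 * T ^ 8 - 52 * x ^ 4 * T ^ 7 + 11 * x ^ 4 * T ^ 6 - x ^ 4 * T ^ 5 + 2 * x ^ 3 * y ^ 2 * T ^ 3 - 3 * x ^ 3 * y ^ 2 * T ^ 2 + x ^ 3 * y ^ 2 * T + 8 * x ^ 3 * y * T ^ 11 - 28 * x ^ 3 * y * T ^ 10 + 10 * x ^ 3 * y * T ^ 9 + 91 * x ^ 3 * y * T ^ 8 - 187 * x ^ 3 * y * T ^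 7 + 169 * x ^ 3 * y * T ^ 6 - 81 * x ^ 3 * y * T ^ 5 + 20 * x ^ 3 * y * T ^ 4 - 2 * x ^ 3 * y * T ^ 3 + 16 * x ^ 3 * T ^ 18 - 128 * x ^ 3 * T ^ 17 + 456 * x ^ 3 * T ^ 16 - 952 * x ^ 3 * T ^ 15 + 1289 * x ^ 3 * T ^ 14 - 1182 * x ^ 3 * T ^ 13 + 743 * x ^ 3 * T ^ 12 - 316 * x ^ 3 * T ^ 11 + 87 * x ^ 3 * T ^ 10 - 14 * x ^ 3 * T ^ 9 + x ^ 3 * T ^ 8 - x ^ 2 * y ^ 3 - 8 * x ^ 2 * y ^ 2 * T ^ 8 + 10 * x ^ 2 * y ^ 2 * T ^ 7 + 37 * x ^ 2 * y ^ 2 * T ^ 6 - 100 * x ^ 2 * y ^ 2 * T ^ 5 + 98 * x ^ 2 * y ^ 2 * T ^ 4 - 47 * x ^ 2 * y ^ 2 * T ^ 3 + 11 * x ^ 2 * y ^ 2 * T ^ 2 - x ^ 2 * y ^ 2 * T - 72 * x ^ 2 * y * T ^ 15 + 524 * x ^ 2 * y * T ^ 14 - 1662 * x ^ 2 * y * T ^ 13 + 3013 * x ^ 2 * y * T ^ 12 - 3438 * x ^ 2 * y * T ^ 11 + 2559 * x ^ 2 * y * T ^ 10 - 1242 * x ^ 2 * y * T ^ 9 + 379 * x ^ 2 * y * T ^ 8 - 66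 * x ^ 2 * y * T ^ 7 + 5 * x ^ 2 * y * T ^ 6 + 4 * x * y ^ 3 * T ^ 5 - 6 * x * y ^ 3 * T ^ 4 + 2 * x * y ^ 3 * T ^ 3 + 8 * x * y ^ 2 * T ^ 13 - 12 * x * y ^ 2 * T ^ 12 - 62 * x * y ^ 2 * T ^ 11 + 199 * x * y ^ 2 * T ^ 10 - 197 * x * y ^ 2 * T ^ 9 + x * y ^ 2 * T ^ 8 + 156 * x * y ^ 2 * T ^ 7 - 140 * x * y ^ 2 * T ^ 6 + 58 * x * y ^ 2 * T ^ 5 - 12 * x * y ^ 2 * T ^ 4 + x * y ^ 2 * T ^ 3 - 16 * x * y * T ^ 20 + 208 * x * y * T ^ 19 - 1192 * x * y * T ^ 18 + 4000 * x * y * T ^ 17 - 8801 * x * y * T ^ 16 + 13451 * x * y * T ^ 15 - 14731 * x * y * T ^ 14 + 11731 * x * y * T ^ 13 - 6806 * x * y * T ^ 12 + 2846 * x * y * T ^ 11 - 835 * x * y * T ^ 10 + 163 * x * y * T ^ 9 - 19 * x * y * T ^ 8 + x * y * T ^ 7 - 4 * y ^ 3 * T ^ 10 + 12 * y ^ 3 * T ^ 9 - 13 * y ^ 3 * T ^ 8 + 6 * y ^ 3 * T ^ 7 - y ^ 3 * T ^ 6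 + 8 * y ^ 2 * T ^ 17 - 92 * y ^ 2 * T ^ 16 + 454 * y ^ 2 * T ^ 15 - 1273 * y ^ 2 * T ^ 14 + 2264 * y ^ 2 * T ^ 13 - 2693 * y ^ 2 * T ^ 12 + 2194 * y ^ 2 * T ^ 11 - 1228 * y ^ 2 * T ^ 10 + 464 * y ^ 2 * T ^ 9 - 113 * y ^ 2 * T ^ 8 + 16 * y ^ 2 * T ^ 7 - y ^ 2 * T ^ 6) * he

include he in
lemma c67 : (bif true then -1 else 1) * evn (gs10 x y T) [0, 0, 0, 0, 0, 0, 0, 0, 2, 2, 1, 0, 0] +
    (bif false then -1 else 1) * evn (gs10 x y T) [0, 0, 0, 1, 1, 1, 0, 0, 0, 0, 0, 0, 0] =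
    evn (gs10 x y T) [1, 0, 0, 0, 1, 0, 0, 0, 1, 0, 0, 0, 0] := by
  simp only [gs10, List.cons_append, List.nil_append, evn, cond_true, cond_false]
  linear_combination (-T ^ 3 + T ^ 2) * he

include he in
lemma c68 : (bif false then -1 else 1) * evn (gs10 x y T) [0, 1, 0, 0, 0, 0, 0, 1, 2, 0, 1, 0, 1] +
    (bif false then -1 else 1) * evn (gs10 x y T) [0, 0, 1, 1, 1, 1, 1, 0, 0, 0, 0, 0, 0] =
    evn (gs10 x y T) [1, 1, 0, 0, 1, 0, 0, 1, 1, 0, 0, 0, 0] := by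
  simp only [gs10, List.cons_append, List.nil_append, evn, cond_true, cond_false]
  linear_combination (2 * x ^ 2 * T ^ 5 - 5 * x ^ 2 * T ^ 4 + 4 * x ^ 2 * T ^ 3 - x ^ 2 * T ^ 2 + x * y * T ^ 3 - 4 * x * y * T ^ 2 + 4 * x * y * T - x * y + 4 * x * T ^ 11 - 28 * x * T ^ 10 + 77 * x * T ^ 9 - 110 * x * T ^ 8 + 89 * x * T ^ 7 - 41 * x * T ^ 6 + 10 * x * T ^ 5 - x * T ^ 4 - 2 * y * T ^ 8 + 11 * y * T ^ 7 - 21 * y * T ^ 6 + 18 * y * T ^ 5 - 7 * y * T ^ 4 + y * T ^ 3) * he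

include he in
lemma c69 : (bif false then -1 else 1) * evn (gs10 x y T) [0, 1, 0, 0, 0, 0, 0, 1, 2, 0, 2, 1, 0] +
    (bif false then -1 else 1) * evn (gs10 x y T) [0, 0, 1, 1, 1, 1, 1, 0, 0, 0, 0, 0, 0] =
    evn (gs10 x y T) [0, 1, 0, 1, 1, 1, 0, 1, 0, 0, 0, 0, 0] := by
  simp only [gs10, List.cons_append, List.nil_append, evn, cond_true, cond_false]
  linear_combination (2 * x * y * T ^ 3 - 5 * x * y * T ^ 2 + 4 * x * y * T - x * y + 4 * x * T ^ 11 - 24 * x * T ^ 10 + 61 * x * T ^ 9 - 85 * x * T ^ 8 + 70 * x * T ^ 7 - 34 * x * T ^ 6 + 9 * x * T ^ 5 - x * T ^ 4 - 4 * y * T ^ 8 + 16 * y * T ^ 7 - 25 * y * T ^ 6 + 19 * y * T ^ 5 - 7 * y * T ^ 4 + y * T ^ 3) * he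

end Pool.Agent.UE10
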