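import Pool.Agent.Lib_helper76.UE10.S0

/-!
# The solutions of the unit equation for a point of order ten, part 2d
-/

set_option autoImplicit false
set_option linter.unusedSectionVars false
set_option linter.unusedSimpArgs false
set_option maxRecDepth 100000

namespace Pool.Agent.UE10

open Pool.Agent.KC72
open UE8 (evn okl clr)

variable {F : Type*} [Field F] {x y T : F}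

variable (he : y ^ 2 + ((3 * T - T ^ 2 - 1) - T * (T - 1) * (2 * T - 1)) * (x * y) -
  T ^ 3 * (T - 1) * (2 * T - 1) * (3 * T - T ^ 2 - 1) * y =
    x ^ 3 - T ^ 3 * (T - 1) * (2 * T - 1) * x ^ 2)

include he in
lemma c70 : (bif true then -1 else 1) * evn (gs10 x y T) [0, 0, 1, 0, 0, 1, 0, 1, 1, 2, 0, 0, 0] +
    (bif false then -1 else 1) * evn (gs10 x y T) [1, 0, 1, 1, 1, 1, 0, 0, 0, 0, 1, 1, 0] =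
    evn (gs10 x y T) [0, 1, 0, 0, 0, 0, 1, 1, 1, 0, 0, 0, 1] := by
  simp only [gs10, List.cons_append, List.nil_append, evn, cond_true, cond_false]
  linear_combination (-2 * x * y * T ^ 2 + 3 * x * y * T - x * y - 4 * x * T ^ 10 + 28 * x * T ^ 9 - 77 * x * T ^ 8 + 110 * x * T ^ 7 - 89 * x * T ^ 6 + 41 * x * T ^ 5 - 10 * x * T ^ 4 + x * T ^ 3) * he

include he in
lemma c71 : (bif false then -1 else 1) * evn (gs10 x y T) [0, 0, 1, 0, 0, 1, 0, 1, 2, 1, 0, 0, 0] +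
    (bif true then -1 else 1) * evn (gs10 x y T) [0, 0, 1, 2, 1, 2, 0, 0, 0, 0, 1, 0, 0] =
    evn (gs10 x y T) [0, 1, 0, 0, 0, 0, 1, 1, 2, 0, 0, 0, 0] := by
  simp only [gs10, List.cons_append, List.nil_append, evn, cond_true, cond_false]
  linear_combination (4 * x ^ 2 * T ^ 11 - 20 * x ^ 2 * T ^ 10 + 41 * x ^ 2 * T ^ 9 - 44 * x ^ 2 * T ^ 8 + 26 * x ^ 2 * T ^ 7 - 8 * x ^ 2 * T ^ 6 + x ^ 2 * T ^ 5 + x * y ^ 2 * T - x * y ^ 2 - 10 * x * y * T ^ 8 + 39 * x * y * T ^ 7 - 59 * x * y * T ^ 6 + 43 * x * y * T ^ 5 - 15 * x * y * T ^ 4 + 2 * x * y * T ^ 3 + 2 * y ^ 2 * T ^ 6 - 7 * y ^ 2 * T ^ 5 + 9 * y ^ 2 * T ^ 4 - 5 * y ^ 2 * T ^ 3 + y ^ 2 * T ^ 2 - 4 * y * T ^ 13 + 32 * y * T ^ 12 - 105 * y * T ^ 11 + 187 * y * T ^ 10 - 199 * y * T ^ 9 + 130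 * y * T ^ 8 - 51 * y * T ^ 7 + 11 * y * T ^ 6 - y * T ^ 5) * he

include he in
lemma c72 : (bif true then -1 else 1) * evn (gs10 x y T) [0, 1, 1, 0, 0, 1, 0, 2, 2, 0, 0, 1, 0] +
    (bif false then -1 else 1) * evn (gs10 x y T) [0, 0, 2, 2, 1, 2, 1, 0, 0, 1, 1, 0, 0] =
    evn (gs10 x y T) [0, 2, 0, 0, 0, 0, 1, 2, 2, 0, 0, 0, 1] := by
  simp only [gs10, List.cons_append, List.nil_append, evn, cond_true, cond_false]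
  linear_combination (-8 * x ^ 4 * T ^ 15 + 76 * x ^ 4 * T ^ 14 - 310 * x ^ 4 * T ^ 13 + 721 * x ^ 4 * T ^ 12 - 1064 * x ^ 4 * T ^ 11 + 1044 * x ^ 4 * T ^ 10 - 691 * x ^ 4 * T ^ 9 + 305 * x ^ 4 * T ^ 8 - 86 * x ^ 4 * T ^ 7 + 14 * x ^ 4 * T ^ 6 - x ^ 4 * T ^ 5 + 2 * x ^ 3 * y ^ 2 * T ^ 5 - 5 * x ^ 3 * y ^ 2 * T ^ 4 + 4 * x ^ 3 * y ^ 2 * T ^ 3 - x ^ 3 * y ^ 2 * T ^ 2 + 8 * x ^ 3 * y * T ^ 13 - 44 * x ^ 3 * y * T ^ 12 + 50 * x ^ 3 * y * T ^ 11 + 171 * x ^ 3 * y * T ^ 10 - 645 * x ^ 3 * y * T ^ 9 + 980 * x ^ 3 * y * T ^ 8 - 850 * x ^ 3 * y * T ^ 7 + 451 * x ^ 3 * y * T ^ 6 - 145 * x ^ 3 * y * T ^ 5 + 26 * x ^ 3 * y * T ^ 4 - 2 * x ^ 3 * y * T ^ 3 + 16 * x ^ 3 * T ^ 20 - 176 * x ^ 3 * T ^ 19 + 856 * x ^ 3 * T ^ 18 - 2448 * x ^ 3 * T ^ 17 + 4601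 * x ^ 3 * T ^ 16 - 6001 * x ^ 3 * T ^ 15 + 5578 * x ^ 3 * T ^ 14 - 3727 * x ^ 3 * T ^ 13 + 1778 * x ^ 3 * T ^ 12 - 591 * x ^ 3 * T ^ 11 + 130 * x ^ 3 * T ^ 10 - 17 * x ^ 3 * T ^ 9 + x ^ 3 * T ^ 8 - x ^ 2 * y ^ 3 * T ^ 2 + x ^ 2 * y ^ 3 * T - 8 * x ^ 2 * y ^ 2 * T ^ 10 + 34 * x ^ 2 * y ^ 2 * T ^ 9 - 29 * x ^ 2 * y ^ 2 * T ^ 8 - 85 * x ^ 2 * y ^ 2 * T ^ 7 + 240 * x ^ 2 * y ^ 2 * T ^ 6 - 271 * x ^ 2 * y ^ 2 * T ^ 5 + 169 * x ^ 2 * y ^ 2 * T ^ 4 - 61 * x ^ 2 * y ^ 2 * T ^ 3 + 12 * x ^ 2 * y ^ 2 * T ^ 2 - x ^ 2 * y ^ 2 * T - 56 * x ^ 2 * y * T ^ 17 + 548 * x ^ 2 * y * T ^ 16 - 2322 * x ^ 2 * y * T ^ 15 + 5667 * x ^ 2 * y * T ^ 14 - 8890 * x ^ 2 * y * T ^ 13 + 9436 * x ^ 2 * y * T ^ 12 - 6925 * x ^ 2 * y * T ^ 11 + 3517 * x ^ 2 * y * T ^ 10 - 1212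 * x ^ 2 * y * T ^ 9 + 270 * x ^ 2 * y * T ^ 8 - 35 * x ^ 2 * y * T ^ 7 + 2 * x ^ 2 * y * T ^ 6 + 4 * x * y ^ 3 * T ^ 7 - 18 * x * y ^ 3 * T ^ 6 + 36 * x * y ^ 3 * T ^ 5 - 40 * x * y ^ 3 * T ^ 4 + 25 * x * y ^ 3 * T ^ 3 - 8 * x * y ^ 3 * T ^ 2 + x * y ^ 3 * T + 8 * x * y ^ 2 * T ^ 15 - 52 * x * y ^ 2 * T ^ 14 + 110 * x * y ^ 2 * T ^ 13 - 27 * x * y ^ 2 * T ^ 12 - 268 * x * y ^ 2 * T ^ 11 + 524 * x * y ^ 2 * T ^ 10 - 487 * x * y ^ 2 * T ^ 9 + 261 * x * y ^ 2 * T ^ 8 - 82 * x * y ^ 2 * T ^ 7 + 14 * x * y ^ 2 * T ^ 6 - x * y ^ 2 * T ^ 5 - 16 * x * y * T ^ 22 + 224 * x * y * T ^ 21 - 1400 * x * y * T ^ 20 + 5192 * x * y * T ^ 19 - 12801 * x * y * T ^ 18 + 22252 * x * y * T ^ 17 - 28182 * x * y * T ^ 16 + 26462 * x * y * T ^ 15 - 18537 * x * y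 * T ^ 14 + 9652 * x * y * T ^ 13 - 3681 * x * y * T ^ 12 + 998 * x * y * T ^ 11 - 182 * x * y * T ^ 10 + 20 * x * y * T ^ 9 - x * y * T ^ 8 - 4 * y ^ 3 * T ^ 12 + 32 * y ^ 3 * T ^ 11 - 105 * y ^ 3 * T ^ 10 + 187 * y ^ 3 * T ^ 9 - 199 * y ^ 3 * T ^ 8 + 130 * y ^ 3 * T ^ 7 - 51 * y ^ 3 * T ^ 6 + 11 * y ^ 3 * T ^ 5 - y ^ 3 * T ^ 4 + 8 * y ^ 2 * T ^ 19 - 100 * y ^ 2 * T ^ 18 + 546 * y ^ 2 * T ^ 17 - 1727 * y ^ 2 * T ^ 16 + 3537 * y ^ 2 * T ^ 15 - 4957 * y ^ 2 * T ^ 14 + 4887 * y ^ 2 * T ^ 13 - 3422 * y ^ 2 * T ^ 12 + 1692 * y ^ 2 * T ^ 11 - 577 * y ^ 2 * T ^ 10 + 129 * y ^ 2 * T ^ 9 - 17 * y ^ 2 * T ^ 8 + y ^ 2 * T ^ 7) * he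

include he in
lemma c73 : (bif false then -1 else 1) * evn (gs10 x y T) [0, 0, 0, 0, 0, 0, 0, 1, 2, 1, 1, 0, 0] +
    (bif true then -1 else 1) * evn (gs10 x y T) [0, 0, 0, 2, 1, 1, 0, 0, 0, 0, 0, 0, 1] =
    evn (gs10 x y T) [1, 0, 0, 1, 1, 0, 0, 0, 1, 0, 0, 1, 0] := by
  simp only [gs10, List.cons_append, List.nil_append, evn, cond_true, cond_false]
  linear_combination (-2 * x * T ^ 4 + 3 * x * T ^ 3 - x * T ^ 2 + y * T ^ 2 - y * T - 2 * T ^ 9 + 11 * T ^ 8 - 21 * T ^ 7 + 18 * T ^ 6 - 7 * T ^ 5 + T ^ 4) * he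

include he in
lemma c74 : (bif false then -1 else 1) * evn (gs10 x y T) [0, 1, 0, 0, 0, 0, 0, 2, 2, 0, 1, 0, 0] +
    (bif false then -1 else 1) * evn (gs10 x y T) [0, 0, 1, 2, 1, 1, 1, 0, 0, 1, 0, 0, 0] =
    evn (gs10 x y T) [1, 1, 0, 1, 1, 0, 0, 1, 1, 0, 0, 1, 0] := by
  simp only [gs10, List.cons_append, List.nil_append, evn, cond_true, cond_false]
  linear_combination (4 * x ^ 3 * T ^ 6 - 12 * x ^ 3 * T ^ 5 + 13 * x ^ 3 * T ^ 4 - 6 * x ^ 3 * T ^ 3 + x ^ 3 * T ^ 2 - 4 * x ^ 2 * y * T ^ 3 + 8 * x ^ 2 * y * T ^ 2 - 5 * x ^ 2 * y * T + x ^ 2 * y + 4 * x ^ 2 * T ^ 12 - 32 * x ^ 2 * T ^ 11 + 93 * x ^ 2 * T ^ 10 - 135 * x ^ 2 * T ^ 9 + 108 * x ^ 2 * T ^ 8 - 48 * x ^ 2 * T ^ 7 + 11 * x ^ 2 * T ^ 6 - x ^ 2 * T ^ 5 + x * y ^ 2 * T - x * y ^ 2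 + 6 * x * y * T ^ 8 - 17 * x * y * T ^ 7 + 17 * x * y * T ^ 6 - 7 * x * y * T ^ 5 + x * y * T ^ 4 - 8 * x * T ^ 16 + 68 * x * T ^ 15 - 242 * x * T ^ 14 + 479 * x * T ^ 13 - 585 * x * T ^ 12 + 459 * x * T ^ 11 - 232 * x * T ^ 10 + 73 * x * T ^ 9 - 13 * x * T ^ 8 + x * T ^ 7 - 2 * y ^ 2 * T ^ 6 + 5 * y ^ 2 * T ^ 5 - 4 * y ^ 2 * T ^ 4 + y ^ 2 * T ^ 3 + 4 * y * T ^ 13 - 28 * y * T ^ 12 + 77 * y * T ^ 11 - 110 * y * T ^ 10 + 89 * y * T ^ 9 - 41 * y * T ^ 8 + 10 * y * T ^ 7 - y * T ^ 6) * he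

include he in
lemma c75 : (bif false then -1 else 1) * evn (gs10 x y T) [0, 1, 0, 0, 0, 0, 0, 2, 2, 0, 2, 0, 0] +
    (bif true then -1 else 1) * evn (gs10 x y T) [0, 0, 1, 2, 1, 1, 1, 0, 0, 1, 0, 0, 0] =
    evn (gs10 x y T) [0, 1, 0, 2, 1, 1, 0, 1, 0, 0, 0, 0, 1] := by
  simp only [gs10, List.cons_append, List.nil_append, evn, cond_true, cond_false]
  linear_combination (-4 * x ^ 2 * y * T ^ 4 + 12 * x ^ 2 * y * T ^ 3 - 13 * x ^ 2 * y * T ^ 2 + 6 * x ^ 2 * y * T - x ^ 2 * y - 4 * x ^ 2 * T ^ 12 + 28 * x ^ 2 * T ^ 11 - 85 * x ^ 2 * T ^ 10 + 146 * x ^ 2 * T ^ 9 - 155 * x ^ 2 * T ^ 8 + 104 * x ^ 2 * T ^ 7 - 43 * x ^ 2 * T ^ 6 + 10 * x ^ 2 * T ^ 5 - x ^ 2 * T ^ 4 + x * y ^ 2 * T ^ 2 - 2 * x * y ^ 2 * T + x * y ^ 2 + 6 * x * y * T ^ 9 - 23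 * x * y * T ^ 8 + 34 * x * y * T ^ 7 - 24 * x * y * T ^ 6 + 8 * x * y * T ^ 5 - x * y * T ^ 4 - 2 * y ^ 2 * T ^ 7 + 7 * y ^ 2 * T ^ 6 - 9 * y ^ 2 * T ^ 5 + 5 * y ^ 2 * T ^ 4 - y ^ 2 * T ^ 3 + 4 * y * T ^ 14 - 32 * y * T ^ 13 + 105 * y * T ^ 12 - 187 * y * T ^ 11 + 199 * y * T ^ 10 - 130 * y * T ^ 9 + 51 * y * T ^ 8 - 11 * y * T ^ 7 + y * T ^ 6) * he

include he in
lemma c76 : (bif false then -1 else 1) * evn (gs10 x y T) [0, 1, 0, 0, 0, 0, 1, 1, 2, 0, 1, 0, 0] +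
    (bif false then -1 else 1) * evn (gs10 x y T) [0, 0, 1, 2, 1, 2, 0, 0, 0, 1, 0, 0, 0] =
    evn (gs10 x y T) [1, 0, 1, 1, 1, 1, 0, 0, 1, 0, 0, 1, 0] := by
  simp only [gs10, List.cons_append, List.nil_append, evn, cond_true, cond_false]
  linear_combination (-2 * x ^ 2 * y * T ^ 4 + 3 * x ^ 2 * y * T ^ 3 - x ^ 2 * y * T ^ 2 - 4 * x ^ 2 * T ^ 12 + 24 * x ^ 2 * T ^ 11 - 61 * x ^ 2 * T ^ 10 + 85 * x ^ 2 * T ^ 9 - 70 * x ^ 2 * T ^ 8 + 34 * x ^ 2 * T ^ 7 - 9 * x ^ 2 * T ^ 6 + x ^ 2 * T ^ 5 + x * y ^ 2 * T - x * y ^ 2 + 4 * x * y * T ^ 9 - 14 * x * y * T ^ 8 + 24 * x * y * T ^ 7 - 27 * x * y * T ^ 6 + 19 * x * y * T ^ 5 - 7 * x * y * T ^ 4 + x * y * T ^ 3 - 2 * y ^ 2 * T ^ 6 + 5 * y ^ 2 * T ^ 5 - 4 * y ^ 2 * T ^ 4 + y ^ 2 * T ^ 3 + 4 * y *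 T ^ 13 - 28 * y * T ^ 12 + 77 * y * T ^ 11 - 110 * y * T ^ 10 + 89 * y * T ^ 9 - 41 * y * T ^ 8 + 10 * y * T ^ 7 - y * T ^ 6) * he

include he in
lemma c77 : (bif true then -1 else 1) * evn (gs10 x y T) [0, 2, 0, 0, 0, 0, 1, 2, 2, 0, 1, 0, 1] +
    (bif false then -1 else 1) * evn (gs10 x y T) [0, 0, 2, 2, 1, 2, 1, 0, 0, 3, 0, 0, 0] =
    evn (gs10 x y T) [1, 1, 1, 1, 1, 1, 0, 1, 1, 0, 0, 2, 0] := by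
  simp only [gs10, List.cons_append, List.nil_append, evn, cond_true, cond_false]
  linear_combination (8 * x ^ 4 * y * T ^ 7 - 28 * x ^ 4 * y * T ^ 6 + 38 * x ^ 4 * y * T ^ 5 - 25 * x ^ 4 * y * T ^ 4 + 8 * x ^ 4 * y * T ^ 3 - x ^ 4 * y * T ^ 2 - 8 * x ^ 4 * T ^ 16 + 84 * x ^ 4 * T ^ 15 - 386 * x ^ 4 * T ^ 14 + 1031 * x ^ 4 * T ^ 13 - 1785 * x ^ 4 * T ^ 12 + 2108 * x ^ 4 * T ^ 11 - 1735 * x ^ 4 * T ^ 10 + 996 * x ^ 4 * T ^ 9 - 391 * x ^ 4 * T ^ 8 + 100 * x ^ 4 * T ^ 7 - 15 * x ^ 4 * T ^ 6 + x ^ 4 * T ^ 5 + 2 * x ^ 3 * y ^ 2 * T ^ 6 - 7 * x ^ 3 * y ^ 2 * T ^ 5 + x ^ 3 * y ^ 2 * T ^ 4 + 15 * x ^ 3 * y ^ 2 * T ^ 3 - 17 * x ^ 3 * y ^ 2 * T ^ 2 + 7 * x ^ 3 * y ^ 2 * T - x ^ 3 * y ^ 2 + 8 * x ^ 3 * y * T ^ 14 - 44 * x ^ 3 * y * T ^ 13 + 42 * x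 ^ 3 * y * T ^ 12 + 211 * x ^ 3 * y * T ^ 11 - 755 * x ^ 3 * y * T ^ 10 + 1200 * x ^ 3 * y * T ^ 9 - 1161 * x ^ 3 * y * T ^ 8 + 741 * x ^ 3 * y * T ^ 7 - 316 * x ^ 3 * y * T ^ 6 + 87 * x ^ 3 * y * T ^ 5 - 14 * x ^ 3 * y * T ^ 4 + x ^ 3 * y * T ^ 3 + 16 * x ^ 3 * T ^ 21 - 192 * x ^ 3 * T ^ 20 + 1032 * x ^ 3 * T ^ 19 - 3304 * x ^ 3 * T ^ 18 + 7049 * x ^ 3 * T ^ 17 - 10602 * x ^ 3 * T ^ 16 + 11579 * x ^ 3 * T ^ 15 - 9305 * x ^ 3 * T ^ 14 + 5505 * x ^ 3 * T ^ 13 - 2369 * x ^ 3 * T ^ 12 + 721 * x ^ 3 * T ^ 11 - 147 * x ^ 3 * T ^ 10 + 18 * x ^ 3 * T ^ 9 - x ^ 3 * T ^ 8 - x ^ 2 * y ^ 3 * T ^ 3 + 4 * x ^ 2 * y ^ 3 * T ^ 2 - 4 * x ^ 2 * y ^ 3 * T + x ^ 2 * y ^ 3 - 8 * x ^ 2 * y ^ 2 * T ^ 11 + 42 * x ^ 2 * y ^ 2 * T ^ 10 - 67 * x ^ 2 * y ^ 2 * T ^ 9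 + 16 * x ^ 2 * y ^ 2 * T ^ 8 + 64 * x ^ 2 * y ^ 2 * T ^ 7 - 78 * x ^ 2 * y ^ 2 * T ^ 6 + 40 * x ^ 2 * y ^ 2 * T ^ 5 - 10 * x ^ 2 * y ^ 2 * T ^ 4 + x ^ 2 * y ^ 2 * T ^ 3 - 40 * x ^ 2 * y * T ^ 18 + 380 * x ^ 2 * y * T ^ 17 - 1582 * x ^ 2 * y * T ^ 16 + 3885 * x ^ 2 * y * T ^ 15 - 6356 * x ^ 2 * y * T ^ 14 + 7378 * x ^ 2 * y * T ^ 13 - 6274 * x ^ 2 * y * T ^ 12 + 3946 * x ^ 2 * y * T ^ 11 - 1817 * x ^ 2 * y * T ^ 10 + 594 * x ^ 2 * y * T ^ 9 - 130 * x ^ 2 * y * T ^ 8 + 17 * x ^ 2 * y * T ^ 7 - x ^ 2 * y * T ^ 6 + 4 * x * y ^ 3 * T ^ 8 - 22 * x * y ^ 3 * T ^ 7 + 42 * x * y ^ 3 * T ^ 6 - 36 * x * y ^ 3 * T ^ 5 + 14 * x * y ^ 3 * T ^ 4 - 2 * x * y ^ 3 * T ^ 3 + 8 * x * y ^ 2 * T ^ 16 - 60 * x * y ^ 2 * T ^ 15 + 194 * x * y ^ 2 * T ^ 14 - 385 *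 x * y ^ 2 * T ^ 13 + 547 * x * y ^ 2 * T ^ 12 - 578 * x * y ^ 2 * T ^ 11 + 438 * x * y ^ 2 * T ^ 10 - 224 * x * y ^ 2 * T ^ 9 + 72 * x * y ^ 2 * T ^ 8 - 13 * x * y ^ 2 * T ^ 7 + x * y ^ 2 * T ^ 6 - 16 * x * y * T ^ 23 + 208 * x * y * T ^ 22 - 1192 * x * y * T ^ 21 + 4000 * x * y * T ^ 20 - 8801 * x * y * T ^ 19 + 13451 * x * y * T ^ 18 - 14731 * x * y * T ^ 17 + 11731 * x * y * T ^ 16 - 6806 * x * y * T ^ 15 + 2846 * x * y * T ^ 14 - 835 * x * y * T ^ 13 + 163 * x * y * T ^ 12 - 19 * x * y * T ^ 11 + x * y * T ^ 10 - 4 * y ^ 3 * T ^ 13 + 28 * y ^ 3 * T ^ 12 - 77 * y ^ 3 * T ^ 11 + 110 * y ^ 3 * T ^ 10 - 89 * y ^ 3 * T ^ 9 + 41 * y ^ 3 * T ^ 8 - 10 * y ^ 3 * T ^ 7 + y ^ 3 * T ^ 6 + 8 * y ^ 2 * T ^ 20 - 92 * y ^ 2 * T ^ 19 + 454 * y ^ 2 * T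 ^ 18 - 1273 * y ^ 2 * T ^ 17 + 2264 * y ^ 2 * T ^ 16 - 2693 * y ^ 2 * T ^ 15 + 2194 * y ^ 2 * T ^ 14 - 1228 * y ^ 2 * T ^ 13 + 464 * y ^ 2 * T ^ 12 - 113 * y ^ 2 * T ^ 11 + 16 * y ^ 2 * T ^ 10 - y ^ 2 * T ^ 9) * he

include he in
lemma c78 : (bif true then -1 else 1) * evn (gs10 x y T) [0, 2, 0, 0, 0, 0, 1, 2, 2, 0, 2, 0, 0] +
    (bif false then -1 else 1) * evn (gs10 x y T) [0, 0, 2, 2, 1, 2, 1, 0, 0, 2, 0, 0, 0] =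
    evn (gs10 x y T) [0, 1, 1, 2, 1, 2, 0, 1, 0, 0, 0, 1, 0] := by
  simp only [gs10, List.cons_append, List.nil_append, evn, cond_true, cond_false]
  linear_combination (-8 * x ^ 4 * T ^ 15 + 68 * x ^ 4 * T ^ 14 - 258 * x ^ 4 * T ^ 13 + 575 * x ^ 4 * T ^ 12 - 833 * x ^ 4 * T ^ 11 + 819 * x ^ 4 * T ^ 10 - 553 * x ^ 4 * T ^ 9 + 253 * x ^ 4 * T ^ 8 - 75 * x ^ 4 * T ^ 7 + 13 * x ^ 4 * T ^ 6 - x ^ 4 * T ^ 5 + 2 * x ^ 3 * y ^ 2 * T ^ 5 - 3 * x ^ 3 * y ^ 2 * T ^ 4 - 3 * x ^ 3 * y ^ 2 * T ^ 3 + 8 * x ^ 3 * y ^ 2 * T ^ 2 - 5 * x ^ 3 * y ^ 2 * T + x ^ 3 * y ^ 2 + 8 * x ^ 3 * y * T ^ 13 - 36 * x ^ 3 * y * T ^ 12 + 22 * x ^ 3 * y * T ^ 11 + 189 * x ^ 3 * y * T ^ 10 - 590 * x ^ 3 * y * T ^ 9 + 859 * x ^ 3 * y * T ^ 8 - 744 * x ^ 3 * y * T ^ 7 + 403 *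 x ^ 3 * y * T ^ 6 - 134 * x ^ 3 * y * T ^ 5 + 25 * x ^ 3 * y * T ^ 4 - 2 * x ^ 3 * y * T ^ 3 + 16 * x ^ 3 * T ^ 20 - 160 * x ^ 3 * T ^ 19 + 728 * x ^ 3 * T ^ 18 - 1992 * x ^ 3 * T ^ 17 + 3649 * x ^ 3 * T ^ 16 - 4712 * x ^ 3 * T ^ 15 + 4396 * x ^ 3 * T ^ 14 - 2984 * x ^ 3 * T ^ 13 + 1462 * x ^ 3 * T ^ 12 - 504 * x ^ 3 * T ^ 11 + 116 * x ^ 3 * T ^ 10 - 16 * x ^ 3 * T ^ 9 + x ^ 3 * T ^ 8 - x ^ 2 * y ^ 3 * T ^ 2 + 2 * x ^ 2 * y ^ 3 * T - x ^ 2 * y ^ 3 - 8 * x ^ 2 * y ^ 2 * T ^ 10 + 26 * x ^ 2 * y ^ 2 * T ^ 9 - 23 * x ^ 2 * y ^ 2 * T ^ 8 - 12 * x ^ 2 * y ^ 2 * T ^ 7 + 35 * x ^ 2 * y ^ 2 * T ^ 6 - 25 * x ^ 2 * y ^ 2 * T ^ 5 + 8 * x ^ 2 * y ^ 2 * T ^ 4 - x ^ 2 * y ^ 2 * T ^ 3 - 56 * x ^ 2 * y * T ^ 17 + 476 * x ^ 2 * y * T ^ 16 - 1798 * x ^ 2 *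 y * T ^ 15 + 3957 * x ^ 2 * y * T ^ 14 - 5573 * x ^ 2 * y * T ^ 13 + 5158 * x ^ 2 * y * T ^ 12 - 3038 * x ^ 2 * y * T ^ 11 + 952 * x ^ 2 * y * T ^ 10 + 28 * x ^ 2 * y * T ^ 9 - 162 * x ^ 2 * y * T ^ 8 + 68 * x ^ 2 * y * T ^ 7 - 13 * x ^ 2 * y * T ^ 6 + x ^ 2 * y * T ^ 5 + 4 * x * y ^ 3 * T ^ 7 - 14 * x * y ^ 3 * T ^ 6 + 18 * x * y ^ 3 * T ^ 5 - 10 * x * y ^ 3 * T ^ 4 + 2 * x * y ^ 3 * T ^ 3 + 8 * x * y ^ 2 * T ^ 15 - 44 * x * y ^ 2 * T ^ 14 + 114 * x * y ^ 2 * T ^ 13 - 193 * x * y ^ 2 * T ^ 12 + 239 * x * y ^ 2 * T ^ 11 - 215 * x * y ^ 2 * T ^ 10 + 132 * x * y ^ 2 * T ^ 9 - 51 * x * y ^ 2 * T ^ 8 + 11 * x * y ^ 2 * T ^ 7 - x * y ^ 2 * T ^ 6 - 16 * x * y * T ^ 22 + 208 * x * y * T ^ 21 - 1224 * x * y * T ^ 20 + 4336 * x * y * T ^ 19 - 10353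 * x * y * T ^ 18 + 17651 * x * y * T ^ 17 - 22181 * x * y * T ^ 16 + 20884 * x * y * T ^ 15 - 14810 * x * y * T ^ 14 + 7874 * x * y * T ^ 13 - 3090 * x * y * T ^ 12 + 868 * x * y * T ^ 11 - 165 * x * y * T ^ 10 + 19 * x * y * T ^ 9 - x * y * T ^ 8 - 4 * y ^ 3 * T ^ 12 + 20 * y ^ 3 * T ^ 11 - 41 * y ^ 3 * T ^ 10 + 44 * y ^ 3 * T ^ 9 - 26 * y ^ 3 * T ^ 8 + 8 * y ^ 3 * T ^ 7 - y ^ 3 * T ^ 6 + 8 * y ^ 2 * T ^ 19 - 76 * y ^ 2 * T ^ 18 + 310 * y ^ 2 * T ^ 17 - 721 * y ^ 2 * T ^ 16 + 1064 * y ^ 2 * T ^ 15 - 1044 * y ^ 2 * T ^ 14 + 691 * y ^ 2 * T ^ 13 - 305 * y ^ 2 * T ^ 12 + 86 * y ^ 2 * T ^ 11 - 14 * y ^ 2 * T ^ 10 + y ^ 2 * T ^ 9) * he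

include he in
lemma c79 : (bif false then -1 else 1) * evn (gs10 x y T) [1, 1, 0, 0, 0, 0, 0, 1, 1, 0, 1, 1, 0] +
    (bif true then -1 else 1) * evn (gs10 x y T) [0, 0, 1, 1, 0, 1, 1, 0, 0, 2, 0, 0, 0] =
    evn (gs10 x y T) [0, 1, 0, 1, 0, 1, 0, 1, 0, 0, 0, 0, 1] := by
  simp only [gs10, List.cons_append, List.nil_append, evn, cond_true, cond_false]
  linear_combination (-4 * x * T ^ 7 + 16 * x * T ^ 6 - 25 * x * T ^ 5 + 19 * x * T ^ 4 - 7 * x * T ^ 3 + x * T ^ 2) * he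

end Pool.Agent.UE10
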