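import Pool.Agent.Lib_helper76.UE10.S2a
import Pool.Agent.Lib_helper76.UE10.S2b
import Pool.Agent.Lib_helper76.UE10.S2c
import Pool.Agent.Lib_helper76.UE10.S2d

/-!
# The solutions of the unit equation for a point of order ten, part 2
-/

set_option autoImplicit false
set_option linter.unusedSectionVars false
set_option linter.unusedSimpArgs false
set_option maxRecDepth 100000

namespace Pool.Agent.UE10

open Pool.Agent.KC72
open UE8 (evn okl clr)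

variable {F : Type*} [Field F] {x y T : F}

variable (he : y ^ 2 + ((3 * T - T ^ 2 - 1) - T * (T - 1) * (2 * T - 1)) * (x * y) -
  T ^ 3 * (T - 1) * (2 * T - 1) * (3 * T - T ^ 2 - 1) * y =
    x ^ 3 - T ^ 3 * (T - 1) * (2 * T - 1) * x ^ 2)

/-- part 2 of the list -/
def cp2 : List (Mo × Mo) := [
  ((false, [-1, -1, -1, 0, 0, 1, 1, 0, 0, -2, 1, 1, 0]), (true, [-1, 0, 0, 1, 0, 1, 0, -1, 0, -2, 0, 0, 1])),
  ((false, [-1, -1, -1, 0, 0, 1, 1, 0, 0, -1, 1, 0, 0]), (false, [-1, -1, 0, 1, 1, 1, 1, -1, -1, -1, 0, 0, 0])),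
  ((false, [-1, -1, -1, 0, 0, 1, 1, 0, 0, 1, 1, -1, 0]), (true, [-1, -1, -1, 2, 1, 1, 1, 0, -2, 0, 0, -1, 1])),
  ((false, [0, -1, -1, -1, 0, 0, 1, 1, 0, 0, 2, 0, -1]), (true, [0, -1, 0, 0, 1, 0, 1, 0, -1, 1, 0, 0, -1])),
  ((true, [0, -1, -1, -1, 0, 0, 1, 1, 0, 0, 2, -1, 0]), (false, [0, -1, -1, 1, 1, 0, 1, 1, -2, 2, 0, -1, 0])),
  ((false, [0, 0, -1, -1, -1, 0, 0, 1, 1, 0, 3, -1, 0]), (true, [0, 0, -1, 1, 0, 0, 0, 1, -1, 1, 0, -1, 1])),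
  ((false, [1, 0, 0, -1, 0, -1, 0, 1, 0, 1, 1, 0, -1]), (true, [0, -1, 0, 0, 1, 0, 1, 0, -1, 0, 0, 1, -1])),
  ((true, [1, 0, 0, -1, 0, -1, 0, 1, 0, -1, 1, 0, 0]), (false, [0, -1, -1, 1, 1, 0, 1, 1, -2, -1, 0, 1, 0])),
  ((false, [1, 1, 0, -1, -1, -1, -1, 1, 1, -1, 2, 0, 0]), (true, [0, 0, -1, 1, 0, 0, 0, 1, -1, -1, 0, 0, 1])),
  ((true, [0, 1, 0, 0, -1, 0, -1, 0, 1, 0, 1, 0, 0]), (false, [0, 0, -1, 1, 0, 0, 0, 1, -1, 1, 0, 0, 0])),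
  ((true, [0, 0, 1, 0, 0, 0, -1, 0, 0, 2, 0, 0, 0]), (false, [1, 0, 1, 1, 0, 0, -1, -1, 0, 0, 0, 0, 0])),
  ((true, [0, 0, 1, 0, 0, 0, -1, 0, 0, 3, 0, 0, 0]), (false, [0, 0, 1, 1, 1, 1, -1, -1, -1, 0, 0, 0, 0])),
  ((true, [0, 0, 1, 0, 0, 0, -1, 0, 0, 1, 0, 1, 0]), (false, [0, -1, 1, 2, 1, 1, 0, -1, -2, 0, 0, 0, 0])),
  ((true, [-1, 0, 0, -1, 0, 0, 0, 1, 0, 2, 1, 0, 0]), (false, [-1, 0, 0, 0, 1, 1, 0, 0, -1, 0, 0, 0, 0])),
  ((true, [-1, 0, 0, -1, 0, 0, 0, 1, 0, 1, 1, 0, 0]), (false, [-1, -1, 0, 1, 1, 1, 1, 0, -2, 0, 0, 0, 0])),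
  ((false, [0, 0, 0, -1, -1, -1, 0, 1, 1, 1, 2, 0, 0]), (false, [0, -1, 0, 1, 0, 0, 1, 0, -1, 0, 0, 0, 0])),
  ((false, [-1, 0, -1, -1, 0, 0, 1, 1, 0, -1, 1, 0, 0]), (false, [-1, 0, 0, 0, 1, 1, 0, 0, -1, -1, 0, 0, 0])),
  ((false, [-1, 0, -1, -1, 0, 0, 1, 1, 0, 0, 1, -1, 0]), (false, [-1, -1, 0, 1, 1, 1, 1, 0, -2, 1, 0, -1, 0])),
  ((true, [0, 0, -1, -1, -1, -1, 1, 1, 1, 0, 2, -1, 0]), (false, [0, -1, 0, 1, 0, 0, 1, 0, -1, 2, 0, -1, 0])),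
  ((true, [1, 0, 0, 0, -1, -1, 0, 0, 1, 0, 1, 0, 0]), (false, [0, -1, 0, 1, 0, 0, 1, 0, -1, 1, 0, 0, 0])),
  ((false, [0, 0, 0, 1, 0, 0, 0, -1, 0, 1, 1, 1, 0]), (false, [0, 1, -1, 0, 0, -1, 1, 0, 0, 0, 0, 0, 0])),
  ((false, [0, 0, 0, 1, 0, 0, 0, -1, 0, 1, 0, 0, 1]), (false, [1, 0, 0, 1, 1, 0, 0, -1, -1, 0, 0, 0, 0])),
  ((true, [0, 0, 0, 1, 0, 0, 0, -1, 0, 1, 0, 1, 0]), (false, [0, 0, 0, 2, 1, 1, 0, -1, -2, 0, 0, 0, 0])),
  ((false, [0, 0, 0, 1, 0, 0, 0, -1, 0, 0, 0, 1, 1]), (false, [0, -1, 1, 2, 1, 1, 1, -2, -2, 0, 0, 0, 0])),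
  ((true, [0, -1, 1, 1, 0, 1, -1, -1, 0, 3, 0, 0, 0]), (false, [1, -1, 1, 1, 1, 1, -1, -1, -1, 0, 0, 0, 0])),
  ((true, [0, -1, 1, 1, 0, 1, -1, -1, 0, 2, 0, 1, 0]), (false, [0, -1, 1, 2, 1, 2, -1, -1, -2, 0, 0, 0, 0])),
  ((true, [0, -1, 1, 1, 0, 1, -1, -1, 0, 0, 0, 2, 0]), (false, [0, -2, 2, 2, 1, 2, 0, -2, -2, 0, 0, 0, 0])),
  ((true, [-1, 0, 0, 0, -1, 0, 0, 0, 1, 2, 1, 0, 0]), (false, [-1, 0, 0, 1, 0, 1, 0, 0, -1, 0, 0, 0, 0])),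
  ((false, [-1, 0, 0, 0, -1, 0, 0, 0, 1, 0, 1, 0, 1]), (false, [-1, -1, 1, 1, 0, 1, 1, -1, -1, 0, 0, 0, 0])),
  ((false, [0, 0, 0, -1, -1, -1, 0, 0, 2, 0, 2, 1, 0]), (false, [0, -1, 1, 0, 0, 0, 1, -1, 0, 0, 0, 0, 0])),
  ((true, [0, -1, 1, 0, 0, 1, -1, 0, 0, 2, 0, 0, -1]), (false, [1, -1, 1, 1, 1, 1, -1, -1, -1, 0, 1, 1, -1])),
  ((false, [0, -1, 1, 0, 0, 1, -1, 0, 0, 1, 0, 0, 0]), (true, [0, -1, 1, 2, 1, 2, -1, -1, -2, 0, 1, 0, 0])),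
  ((true, [0, -1, 1, 0, 0, 1, -1, 0, 0, 0, 0, 1, -1]), (false, [0, -2, 2, 2, 1, 2, 0, -2, -2, 1, 1, 0, -1])),
  ((false, [-1, 0, 0, -1, -1, 0, 0, 1, 1, 1, 1, -1, 0]), (true, [-1, 0, 0, 1, 0, 1, 0, 0, -1, 0, 0, -1, 1])),
  ((false, [-1, 0, 0, -1, -1, 0, 0, 1, 1, 0, 1, -1, 0]), (false, [-1, -1, 1, 1, 0, 1, 1, -1, -1, 1, 0, -1, 0])),
  ((false, [0, 0, 0, -2, -1, -1, 0, 1, 2, 0, 2, 0, -1]), (true, [0, -1, 1, 0, 0, 0, 1, -1, 0, 1, 0, 0, -1])),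
  ((false, [-1, 1, -1, -1, -1, -1, 1, 1, 1, 0, 1, -1, 0]), (false, [-1, 0, 0, 1, 0, 1, 0, 0, -1, 1, 0, -1, 0])),
  ((true, [-1, 1, -1, -1, -1, -1, 1, 1, 1, 0, 1, -2, 1]), (false, [-1, -1, 1, 1, 0, 1, 1, -1, -1, 3, 0, -2, 0])),
  ((true, [0, 1, -1, -2, -1, -2, 1, 1, 2, 0, 2, -1, 0]), (false, [0, -1, 1, 0, 0, 0, 1, -1, 0, 2, 0, -1, 0])),
  ((false, [1, 0, 0, -1, 0, -1, 0, 0, 1, 0, 1, 1, -1]), (true, [0, -1, 1, 0, 0, 0, 1, -1, 0, 2, 0, 0, -1]))]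

include he in
theorem sp2 (hne : ∀ z ∈ gs10 x y T, z ≠ 0) : Sols (gs10 x y T) cp2 := by
  intro p hp
  unfold cp2 at hp
  simp only [List.mem_cons, List.not_mem_nil, or_false] at hp
  rcases hp with rfl | rfl | rfl | rfl | rfl | rfl | rfl | rfl | rfl | rfl | rfl | rfl | rfl | rfl | rfl | rfl | rfl | rfl | rfl | rfl | rfl | rfl | rfl | rfl | rfl | rfl | rfl | rfl | rfl | rfl | rfl | rfl | rfl | rfl | rfl | rfl | rfl | rfl | rfl | rfl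
  · exact clr hne (by decide) (by decide) rfl rfl (c40 he)
  · exact clr hne (by decide) (by decide) rfl rfl (c41 he)
  · exact clr hne (by decide) (by decide) rfl rfl (c42 he)
  · exact clr hne (by decide) (by decide) rfl rfl (c43 he)
  · exact clr hne (by decide) (by decide) rfl rfl (c44 he)
  · exact clr hne (by decide) (by decide) rfl rfl (c45 he)
  · exact clr hne (by decide) (by decide) rfl rfl (c46 he)
  · exact clr hne (by decide) (by decide) rfl rfl (c47 he)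
  · exact clr hne (by decide) (by decide) rfl rfl (c48 he)
  · exact clr hne (by decide) (by decide) rfl rfl (c49 he)
  · exact clr hne (by decide) (by decide) rfl rfl (c50 he)
  · exact clr hne (by decide) (by decide) rfl rfl (c51 he)
  · exact clr hne (by decide) (by decide) rfl rfl (c52 he)
  · exact clr hne (by decide) (by decide) rfl rfl (c53 he)
  · exact clr hne (by decide) (by decide) rfl rfl (c54 he)
  · exact clr hne (by decide) (by decide) rfl rfl (c55 he)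
  · exact clr hne (by decide) (by decide) rfl rfl (c56 he)
  · exact clr hne (by decide) (by decide) rfl rfl (c57 he)
  · exact clr hne (by decide) (by decide) rfl rfl (c58 he)
  · exact clr hne (by decide) (by decide) rfl rfl (c59 he)
  · exact clr hne (by decide) (by decide) rfl rfl (c60 he)
  · exact clr hne (by decide) (by decide) rfl rfl (c61 he)
  · exact clr hne (by decide) (by decide) rfl rfl (c62 he)
  · exact clr hne (by decide) (by decide) rfl rfl (c63 he)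
  · exact clr hne (by decide) (by decide) rfl rfl (c64 he)
  · exact clr hne (by decide) (by decide) rfl rfl (c65 he)
  · exact clr hne (by decide) (by decide) rfl rfl (c66 he)
  · exact clr hne (by decide) (by decide) rfl rfl (c67 he)
  · exact clr hne (by decide) (by decide) rfl rfl (c68 he)
  · exact clr hne (by decide) (by decide) rfl rfl (c69 he)
  · exact clr hne (by decide) (by decide) rfl rfl (c70 he)
  · exact clr hne (by decide) (by decide) rfl rfl (c71 he)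
  · exact clr hne (by decide) (by decide) rfl rfl (c72 he)
  · exact clr hne (by decide) (by decide) rfl rfl (c73 he)
  · exact clr hne (by decide) (by decide) rfl rfl (c74 he)
  · exact clr hne (by decide) (by decide) rfl rfl (c75 he)
  · exact clr hne (by decide) (by decide) rfl rfl (c76 he)
  · exact clr hne (by decide) (by decide) rfl rfl (c77 he)
  · exact clr hne (by decide) (by decide) rfl rfl (c78 he)
  · exact clr hne (by decide) (by decide) rfl rfl (c79 he)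

end Pool.Agent.UE10
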