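import Pool.Agent.Lib_helper76.UE10.S0

/-!
# The solutions of the unit equation for a point of order ten, part 2a
-/

set_option autoImplicit false
set_option linter.unusedSectionVars false
set_option linter.unusedSimpArgs false
set_option maxRecDepth 100000

namespace Pool.Agent.UE10

open Pool.Agent.KC72
open UE8 (evn okl clr)

variable {F : Type*} [Field F] {x y T : F}

variable (he : y ^ 2 + ((3 * T - T ^ 2 - 1) - T * (T - 1) * (2 * T - 1)) * (x * y) -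
  T ^ 3 * (T - 1) * (2 * T - 1) * (3 * T - T ^ 2 - 1) * y =
    x ^ 3 - T ^ 3 * (T - 1) * (2 * T - 1) * x ^ 2)

include he in
lemma c40 : (bif false then -1 else 1) * evn (gs10 x y T) [0, 0, 0, 0, 0, 1, 1, 1, 0, 0, 1, 1, 0] +
    (bif true then -1 else 1) * evn (gs10 x y T) [0, 1, 1, 1, 0, 1, 0, 0, 0, 0, 0, 0, 1] =
    evn (gs10 x y T) [1, 1, 1, 0, 0, 0, 0, 1, 0, 2, 0, 0, 0] := by
  simp only [gs10, List.cons_append, List.nil_append, evn, cond_true, cond_false]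
  linear_combination (-2 * x * T ^ 4 + 3 * x * T ^ 3 - x * T ^ 2 + 2 * y * T ^ 2 - 3 * y * T + y - 4 * T ^ 9 + 24 * T ^ 8 - 53 * T ^ 7 + 57 * T ^ 6 - 32 * T ^ 5 + 9 * T ^ 4 - T ^ 3) * he

include he in
lemma c41 : (bif false then -1 else 1) * evn (gs10 x y T) [0, 0, 0, 0, 0, 1, 1, 1, 1, 0, 1, 0, 0] +
    (bif false then -1 else 1) * evn (gs10 x y T) [0, 0, 1, 1, 1, 1, 1, 0, 0, 0, 0, 0, 0] =
    evn (gs10 x y T) [1, 1, 1, 0, 0, 0, 0, 1, 1, 1, 0, 0, 0] := by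
  simp only [gs10, List.cons_append, List.nil_append, evn, cond_true, cond_false]
  linear_combination (2 * x ^ 2 * T ^ 6 - 5 * x ^ 2 * T ^ 5 + 4 * x ^ 2 * T ^ 4 - x ^ 2 * T ^ 3 - x * y * T ^ 4 + x * y * T ^ 3 + 4 * x * T ^ 11 - 28 * x * T ^ 10 + 77 * x * T ^ 9 - 110 * x * T ^ 8 + 89 * x * T ^ 7 - 41 * x * T ^ 6 + 10 * x * T ^ 5 - x * T ^ 4 + y ^ 2 * T - y ^ 2 - 2 * y * T ^ 8 + 11 * y * T ^ 7 - 21 * y * T ^ 6 + 18 * y * T ^ 5 - 7 * y * T ^ 4 + y * T ^ 3) * he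

include he in
lemma c42 : (bif false then -1 else 1) * evn (gs10 x y T) [0, 0, 0, 0, 0, 1, 1, 0, 2, 1, 1, 0, 0] +
    (bif true then -1 else 1) * evn (gs10 x y T) [0, 0, 0, 2, 1, 1, 1, 0, 0, 0, 0, 0, 1] =
    evn (gs10 x y T) [1, 1, 1, 0, 0, 0, 0, 0, 2, 0, 0, 1, 0] := by
  simp only [gs10, List.cons_append, List.nil_append, evn, cond_true, cond_false]
  linear_combination (2 * x ^ 2 * T ^ 7 - 5 * x ^ 2 * T ^ 6 + 4 * x ^ 2 * T ^ 5 - x ^ 2 * T ^ 4 - 2 * x * y * T ^ 5 + 5 * x * y * T ^ 4 - 6 * x * y * T ^ 3 + 4 * x * y * T ^ 2 - x * y * T + 4 * x * T ^ 12 - 28 * x * T ^ 11 + 77 * x * T ^ 10 - 110 * x * T ^ 9 + 89 * x * T ^ 8 - 41 * x * T ^ 7 + 10 * x * T ^ 6 - x * T ^ 5 + y ^ 2 * T ^ 2 - y ^ 2 * T - 2 * y * T ^ 9 + 11 * y * T ^ 8 - 21 * y * T ^ 7 + 18 * y * T ^ 6 - 7 * y * T ^ 5 + y * T ^ 4) * he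

include he in
lemma c43 : (bif false then -1 else 1) * evn (gs10 x y T) [0, 0, 0, 0, 0, 0, 1, 1, 1, 0, 2, 0, 0] +
    (bif true then -1 else 1) * evn (gs10 x y T) [0, 0, 1, 1, 1, 0, 1, 0, 0, 1, 0, 0, 0] =
    evn (gs10 x y T) [0, 1, 1, 1, 0, 0, 0, 0, 1, 0, 0, 0, 1] := by
  simp only [gs10, List.cons_append, List.nil_append, evn, cond_true, cond_false]
  linear_combination (-x * T ^ 5 + 2 * x * T ^ 4 - x * T ^ 3 + y * T ^ 2 - 2 * y * T + y - 2 * T ^ 9 + 13 * T ^ 8 - 32 * T ^ 7 + 39 * T ^ 6 - 25 * T ^ 5 + 8 * T ^ 4 - T ^ 3) * he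

include he in
lemma c44 : (bif true then -1 else 1) * evn (gs10 x y T) [0, 0, 0, 0, 0, 0, 1, 1, 2, 0, 2, 0, 0] +
    (bif false then -1 else 1) * evn (gs10 x y T) [0, 0, 0, 2, 1, 0, 1, 1, 0, 2, 0, 0, 0] =
    evn (gs10 x y T) [0, 1, 1, 1, 0, 0, 0, 0, 2, 0, 0, 1, 0] := by
  simp only [gs10, List.cons_append, List.nil_append, evn, cond_true, cond_false]
  linear_combination (-2 * x ^ 2 * T ^ 7 + 7 * x ^ 2 * T ^ 6 - 9 * x ^ 2 * T ^ 5 + 5 * x ^ 2 * T ^ 4 - x ^ 2 * T ^ 3 + 2 * x * y * T ^ 5 - 5 * x * y * T ^ 4 + 4 * x * y * T ^ 3 - x * y * T ^ 2 - 4 * x * T ^ 12 + 28 * x * T ^ 11 - 81 * x * T ^ 10 + 126 * x * T ^ 9 - 114 * x * T ^ 8 + 60 * x * T ^ 7 - 17 * x * T ^ 6 + 2 * x * T ^ 5 - y ^ 2 * T ^ 2 + 2 * y ^ 2 * T - y ^ 2 + 2 * y * T ^ 9 - 13 * y * T ^ 8 + 32 * y * T ^ 7 - 39 * y * T ^ 6 + 25 * y * T ^ 5 - 8 * y * T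 ^ 4 + y * T ^ 3) * he

include he in
lemma c45 : (bif false then -1 else 1) * evn (gs10 x y T) [0, 0, 0, 0, 0, 0, 0, 1, 2, 0, 3, 0, 0] +
    (bif true then -1 else 1) * evn (gs10 x y T) [0, 0, 0, 2, 1, 0, 0, 1, 0, 1, 0, 0, 1] =
    evn (gs10 x y T) [0, 0, 1, 1, 1, 0, 0, 0, 1, 0, 0, 1, 0] := by
  simp only [gs10, List.cons_append, List.nil_append, evn, cond_true, cond_false]
  linear_combination (-2 * x * T ^ 5 + 7 * x * T ^ 4 - 9 * x * T ^ 3 + 5 * x * T ^ 2 - x * T + y * T ^ 3 - 3 * y * T ^ 2 + 3 * y * T - y - 2 * T ^ 10 + 15 * T ^ 9 - 45 * T ^ 8 + 71 * T ^ 7 - 64 * T ^ 6 + 33 * T ^ 5 - 9 * T ^ 4 + T ^ 3) * he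

include he in
lemma c46 : (bif false then -1 else 1) * evn (gs10 x y T) [1, 1, 0, 0, 0, 0, 0, 1, 1, 1, 1, 0, 0] +
    (bif true then -1 else 1) * evn (gs10 x y T) [0, 0, 0, 1, 1, 1, 1, 0, 0, 0, 0, 1, 0] =
    evn (gs10 x y T) [0, 1, 0, 1, 0, 1, 0, 0, 1, 0, 0, 0, 1] := by
  simp only [gs10, List.cons_append, List.nil_append, evn, cond_true, cond_false]
  linear_combination (-2 * x * T ^ 7 + 7 * x * T ^ 6 - 9 * x * T ^ 5 + 5 * x * T ^ 4 - x * T ^ 3) * he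

include he in
lemma c47 : (bif true then -1 else 1) * evn (gs10 x y T) [1, 1, 1, 0, 0, 0, 0, 1, 2, 0, 1, 0, 0] +
    (bif false then -1 else 1) * evn (gs10 x y T) [0, 0, 0, 2, 1, 1, 1, 1, 0, 0, 0, 1, 0] =
    evn (gs10 x y T) [0, 1, 1, 1, 0, 1, 0, 0, 2, 1, 0, 0, 0] := by
  simp only [gs10, List.cons_append, List.nil_append, evn, cond_true, cond_false]
  linear_combination (-2 * x ^ 3 * T ^ 9 + 9 * x ^ 3 * T ^ 8 - 16 * x ^ 3 * T ^ 7 + 14 * x ^ 3 * T ^ 6 - 6 * x ^ 3 * T ^ 5 + x ^ 3 * T ^ 4 + 2 * x ^ 2 * y * T ^ 7 - 9 * x ^ 2 * y * T ^ 6 + 18 * x ^ 2 * y * T ^ 5 - 21 * x ^ 2 * y * T ^ 4 + 15 * x ^ 2 * y * T ^ 3 - 6 * x ^ 2 * y * T ^ 2 + x ^ 2 * y * T - 4 * x ^ 2 * T ^ 14 + 36 * x ^ 2 * T ^ 13 - 137 * x ^ 2 * T ^ 12 + 292 * x ^ 2 * T ^ 11 - 386 * x ^ 2 * T ^ 10 + 329 * x ^ 2 * T ^ 9 - 181 * x ^ 2 * T ^ 8 + 62 * x ^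 2 * T ^ 7 - 12 * x ^ 2 * T ^ 6 + x ^ 2 * T ^ 5 - 4 * x * y * T ^ 10 + 20 * x * y * T ^ 9 - 41 * x * y * T ^ 8 + 44 * x * y * T ^ 7 - 26 * x * y * T ^ 6 + 8 * x * y * T ^ 5 - x * y * T ^ 4) * he

include he in
lemma c48 : (bif false then -1 else 1) * evn (gs10 x y T) [1, 1, 1, 0, 0, 0, 0, 1, 2, 0, 2, 0, 0] +
    (bif true then -1 else 1) * evn (gs10 x y T) [0, 0, 0, 2, 1, 1, 1, 1, 0, 0, 0, 0, 1] =
    evn (gs10 x y T) [0, 0, 1, 1, 1, 1, 1, 0, 1, 1, 0, 0, 0] := by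
  simp only [gs10, List.cons_append, List.nil_append, evn, cond_true, cond_false]
  linear_combination (2 * x ^ 3 * T ^ 10 - 11 * x ^ 3 * T ^ 9 + 25 * x ^ 3 * T ^ 8 - 30 * x ^ 3 * T ^ 7 + 20 * x ^ 3 * T ^ 6 - 7 * x ^ 3 * T ^ 5 + x ^ 3 * T ^ 4 - x ^ 2 * y * T ^ 8 + 6 * x ^ 2 * y * T ^ 7 - 17 * x ^ 2 * y * T ^ 6 + 29 * x ^ 2 * y * T ^ 5 - 31 * x ^ 2 * y * T ^ 4 + 20 * x ^ 2 * y * T ^ 3 - 7 * x ^ 2 * y * T ^ 2 + x ^ 2 * y * T + 4 * x ^ 2 * T ^ 15 - 40 * x ^ 2 * T ^ 14 + 173 * x ^ 2 * T ^ 13 - 429 * x ^ 2 * T ^ 12 + 678 * x ^ 2 * T ^ 11 - 715 * x ^ 2 * T ^ 10 + 510 * x ^ 2 * T ^ 9 - 243 * x ^ 2 * T ^ 8 + 74 * x ^ 2 * T ^ 7 - 13 * x ^ 2 * T ^ 6 + x ^ 2 * T ^ 5 - 2 * x * y * T ^ 12 + 17 * x * y * T ^ 11 - 60 * x * y * T ^ 10 + 116 * x * y * T ^ 9 - 135 * x * y * T ^ 8 + 97 * x * y * T ^ 7 - 42 * x * y * T ^ 6 + 10 * x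 * y * T ^ 5 - x * y * T ^ 4) * he

include he in
lemma c49 : (bif true then -1 else 1) * evn (gs10 x y T) [0, 1, 1, 0, 0, 0, 0, 0, 2, 0, 1, 0, 0] +
    (bif false then -1 else 1) * evn (gs10 x y T) [0, 0, 0, 1, 1, 0, 1, 1, 0, 1, 0, 0, 0] =
    evn (gs10 x y T) [0, 0, 1, 0, 1, 0, 1, 0, 1, 0, 0, 0, 0] := by
  simp only [gs10, List.cons_append, List.nil_append, evn, cond_true, cond_false]
  linear_combination (x * T ^ 7 - 5 * x * T ^ 6 + 10 * x * T ^ 5 - 10 * x * T ^ 4 + 5 * x * T ^ 3 - x * T ^ 2) * he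

end Pool.Agent.UE10
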