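import Pool.Agent.Lib_helper76.UE10.S0

/-!
# The solutions of the unit equation for a point of order ten, part 3b
-/

set_option autoImplicit false
set_option linter.unusedSectionVars false
set_option linter.unusedSimpArgs false
set_option maxRecDepth 100000

namespace Pool.Agent.UE10

open Pool.Agent.KC72
open UE8 (evn okl clr)

variable {F : Type*} [Field F] {x y T : F}

variable (he : y ^ 2 + ((3 * T - T ^ 2 - 1) - T * (T - 1) * (2 * T - 1)) * (x * y) -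
  T ^ 3 * (T - 1) * (2 * T - 1) * (3 * T - T ^ 2 - 1) * y =
    x ^ 3 - T ^ 3 * (T - 1) * (2 * T - 1) * x ^ 2)

include he in
lemma c90 : (bif false then -1 else 1) * evn (gs10 x y T) [0, 0, 0, 1, 1, 1, 0, 0, 0, 2, 1, 0, 0] +
    (bif false then -1 else 1) * evn (gs10 x y T) [0, 1, 0, 0, 0, 0, 0, 0, 2, 0, 0, 0, 0] =
    evn (gs10 x y T) [0, 0, 0, 0, 1, 1, 0, 0, 1, 0, 0, 0, 0] := by
  simp only [gs10, List.cons_append, List.nil_append, evn, cond_true, cond_false]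
  linear_combination (-T ^ 6 + 2 * T ^ 5 - T ^ 4) * he

include he in
lemma c91 : (bif true then -1 else 1) * evn (gs10 x y T) [0, 0, 0, 2, 1, 1, 1, 0, 0, 0, 1, 0, 1] +
    (bif false then -1 else 1) * evn (gs10 x y T) [0, 1, 1, 0, 0, 0, 0, 1, 2, 0, 0, 0, 0] =
    evn (gs10 x y T) [0, 0, 0, 1, 1, 1, 1, 0, 1, 0, 0, 0, 0] := by
  simp only [gs10, List.cons_append, List.nil_append, evn, cond_true, cond_false]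
  linear_combination (2 * x ^ 2 * T ^ 8 - 7 * x ^ 2 * T ^ 7 + 9 * x ^ 2 * T ^ 6 - 5 * x ^ 2 * T ^ 5 + x ^ 2 * T ^ 4 - x * y * T ^ 6 + 4 * x * y * T ^ 5 - 8 * x * y * T ^ 4 + 9 * x * y * T ^ 3 - 5 * x * y * T ^ 2 + x * y * T + 4 * x * T ^ 13 - 32 * x * T ^ 12 + 105 * x * T ^ 11 - 187 * x * T ^ 10 + 199 * x * T ^ 9 - 130 * x * T ^ 8 + 51 * x * T ^ 7 - 11 * x * T ^ 6 + x * T ^ 5 - 2 * y * T ^ 10 + 13 * y * T ^ 9 - 32 * y * T ^ 8 + 39 * y * T ^ 7 - 25 * y * T ^ 6 + 8 * y * T ^ 5 - y * T ^ 4) * he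

include he in
lemma c92 : (bif false then -1 else 1) * evn (gs10 x y T) [0, 0, 0, 1, 0, 0, 0, 1, 0, 1, 0, 0, 1] +
    (bif false then -1 else 1) * evn (gs10 x y T) [1, 0, 1, 1, 0, 0, 0, 0, 0, 0, 0, 0, 0] =
    evn (gs10 x y T) [0, 0, 0, 0, 0, 0, 0, 1, 1, 0, 0, 0, 0] := by
  simp only [gs10, List.cons_append, List.nil_append, evn, cond_true, cond_false]
  linear_combination (-1) * he

include he in
lemma c93 : (bif true then -1 else 1) * evn (gs10 x y T) [0, 0, 0, 1, 0, 0, 1, 1, 0, 3, 0, 0, 0] +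
    (bif false then -1 else 1) * evn (gs10 x y T) [0, 1, 1, 1, 0, 1, 0, 0, 0, 0, 0, 0, 0] =
    evn (gs10 x y T) [0, 0, 0, 0, 0, 0, 1, 1, 1, 0, 0, 0, 0] := by
  simp only [gs10, List.cons_append, List.nil_append, evn, cond_true, cond_false]
  linear_combination (-y + 4 * T ^ 7 - 12 * T ^ 6 + 13 * T ^ 5 - 6 * T ^ 4 + T ^ 3) * he

include he in
lemma c94 : (bif true then -1 else 1) * evn (gs10 x y T) [0, 0, 0, 2, 1, 1, 1, 0, 0, 0, 2, 1, 0] +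
    (bif false then -1 else 1) * evn (gs10 x y T) [0, 1, 1, 0, 0, 0, 0, 1, 2, 0, 0, 0, 0] =
    evn (gs10 x y T) [0, 1, 0, 1, 0, 0, 1, 0, 2, 0, 0, 0, 0] := by
  simp only [gs10, List.cons_append, List.nil_append, evn, cond_true, cond_false]
  linear_combination (-2 * x ^ 2 * T ^ 9 + 9 * x ^ 2 * T ^ 8 - 16 * x ^ 2 * T ^ 7 + 14 * x ^ 2 * T ^ 6 - 6 * x ^ 2 * T ^ 5 + x ^ 2 * T ^ 4 + 2 * x * y * T ^ 5 - 7 * x * y * T ^ 4 + 9 * x * y * T ^ 3 - 5 * x * y * T ^ 2 + x * y * T + 8 * x * T ^ 13 - 52 * x * T ^ 12 + 146 * x * T ^ 11 - 231 * x * T ^ 10 + 225 * x * T ^ 9 - 138 * x * T ^ 8 + 52 * x * T ^ 7 - 11 * x * T ^ 6 + x * T ^ 5 - 4 * y * T ^ 10 + 20 * y * T ^ 9 - 41 * y * T ^ 8 + 44 * y * T ^ 7 - 26 * y * T ^ 6 + 8 * y * T ^ 5 - y * T ^ 4) * he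

include he in
lemma c95 : (bif true then -1 else 1) * evn (gs10 x y T) [0, 0, 0, 1, 1, 1, 0, 1, 0, 1, 0, 1, 0] +
    (bif false then -1 else 1) * evn (gs10 x y T) [1, 0, 1, 1, 1, 1, 0, 0, 0, 0, 0, 0, 0] =
    evn (gs10 x y T) [0, 1, 0, 0, 0, 0, 0, 1, 2, 0, 0, 0, 0] := by
  simp only [gs10, List.cons_append, List.nil_append, evn, cond_true, cond_false]
  linear_combination (-x * y - 2 * x * T ^ 8 + 7 * x * T ^ 7 - 9 * x * T ^ 6 + 5 * x * T ^ 5 - x * T ^ 4 + 2 * y * T ^ 5 - 3 * y * T ^ 4 + y * T ^ 3) * he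

include he in
lemma c96 : (bif true then -1 else 1) * evn (gs10 x y T) [0, 0, 0, 1, 1, 1, 1, 1, 0, 2, 0, 1, 0] +
    (bif false then -1 else 1) * evn (gs10 x y T) [0, 1, 1, 1, 1, 2, 0, 0, 0, 0, 0, 0, 0] =
    evn (gs10 x y T) [0, 1, 0, 0, 0, 0, 1, 1, 2, 0, 0, 0, 0] := by
  simp only [gs10, List.cons_append, List.nil_append, evn, cond_true, cond_false]
  linear_combination (4 * x ^ 2 * T ^ 11 - 20 * x ^ 2 * T ^ 10 + 41 * x ^ 2 * T ^ 9 - 44 * x ^ 2 * T ^ 8 + 26 * x ^ 2 * T ^ 7 - 8 * x ^ 2 * T ^ 6 + x ^ 2 * T ^ 5 - x * y ^ 2 - 2 * x * y * T ^ 9 + 5 * x * y * T ^ 8 + 2 * x * y * T ^ 7 - 16 * x * y * T ^ 6 + 17 * x * y * T ^ 5 - 7 * x * y * T ^ 4 + x * y * T ^ 3 + 2 * y ^ 2 * T ^ 5 - 3 * y ^ 2 * T ^ 4 + y ^ 2 * T ^ 3 + 4 * y * T ^ 13 - 28 * y * T ^ 12 + 77 * y * T ^ 11 - 110 * y * T ^ 10 + 89 * y * T ^ 9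 - 41 * y * T ^ 8 + 10 * y * T ^ 7 - y * T ^ 6) * he

include he in
lemma c97 : (bif false then -1 else 1) * evn (gs10 x y T) [0, 0, 0, 2, 1, 1, 1, 1, 0, 0, 0, 1, 1] +
    (bif false then -1 else 1) * evn (gs10 x y T) [1, 0, 1, 2, 1, 1, 1, 0, 0, 0, 0, 0, 0] =
    evn (gs10 x y T) [0, 1, 1, 0, 0, 0, 0, 2, 2, 0, 0, 0, 0] := by
  simp only [gs10, List.cons_append, List.nil_append, evn, cond_true, cond_false]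
  linear_combination (2 * x ^ 3 * y * T ^ 3 - 3 * x ^ 3 * y * T ^ 2 + x ^ 3 * y * T + 4 * x ^ 3 * T ^ 10 - 20 * x ^ 3 * T ^ 9 + 41 * x ^ 3 * T ^ 8 - 44 * x ^ 3 * T ^ 7 + 26 * x ^ 3 * T ^ 6 - 8 * x ^ 3 * T ^ 5 + x ^ 3 * T ^ 4 - x ^ 2 * y ^ 2 + 2 * x ^ 2 * y * T ^ 9 - 15 * x ^ 2 * y * T ^ 8 + 35 * x ^ 2 * y * T ^ 7 - 44 * x ^ 2 * y * T ^ 6 + 45 * x ^ 2 * y * T ^ 5 - 41 * x ^ 2 * y * T ^ 4 + 25 * x ^ 2 * y * T ^ 3 - 8 * x ^ 2 * y * T ^ 2 + x ^ 2 * y * T + 8 * x ^ 2 * T ^ 15 - 76 * x ^ 2 * T ^ 14 + 310 * x ^ 2 * T ^ 13 - 721 * x ^ 2 * T ^ 12 + 1064 * x ^ 2 * T ^ 11 - 1044 * x ^ 2 * T ^ 10 + 691 * x ^ 2 * T ^ 9 - 305 * x ^ 2 * T ^ 8 + 86 * x ^ 2 * T ^ 7 - 14 * x ^ 2 * T ^ 6 + x ^ 2 * T ^ 5 + 6 * x * y ^ 2 * T ^ 4 - 11 * x * y ^ 2 * T ^ 3 + 6 * x * y ^ 2 * T ^ 2 - x * y ^ 2 * T - 8 * x * y * T ^ 13 + 56 *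 x * y * T ^ 12 - 150 * x * y * T ^ 11 + 192 * x * y * T ^ 10 - 101 * x * y * T ^ 9 - 28 * x * y * T ^ 8 + 69 * x * y * T ^ 7 - 39 * x * y * T ^ 6 + 10 * x * y * T ^ 5 - x * y * T ^ 4 + 4 * y ^ 2 * T ^ 10 - 24 * y ^ 2 * T ^ 9 + 53 * y ^ 2 * T ^ 8 - 57 * y ^ 2 * T ^ 7 + 32 * y ^ 2 * T ^ 6 - 9 * y ^ 2 * T ^ 5 + y ^ 2 * T ^ 4) * he

include he in
lemma c98 : (bif true then -1 else 1) * evn (gs10 x y T) [0, 0, 0, 2, 1, 1, 1, 1, 0, 0, 0, 2, 0] +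
    (bif false then -1 else 1) * evn (gs10 x y T) [0, 1, 1, 2, 1, 2, 0, 0, 0, 0, 0, 0, 0] =
    evn (gs10 x y T) [0, 1, 1, 0, 0, 0, 0, 2, 2, 0, 0, 0, 0] := by
  simp only [gs10, List.cons_append, List.nil_append, evn, cond_true, cond_false]
  linear_combination (4 * x ^ 3 * T ^ 10 - 20 * x ^ 3 * T ^ 9 + 41 * x ^ 3 * T ^ 8 - 44 * x ^ 3 * T ^ 7 + 26 * x ^ 3 * T ^ 6 - 8 * x ^ 3 * T ^ 5 + x ^ 3 * T ^ 4 - x ^ 2 * y ^ 2 - 4 * x ^ 2 * y * T ^ 8 + 22 * x ^ 2 * y * T ^ 7 - 50 * x ^ 2 * y * T ^ 6 + 64 * x ^ 2 * y * T ^ 5 - 52 * x ^ 2 * y * T ^ 4 + 27 * x ^ 2 * y * T ^ 3 - 8 * x ^ 2 * y * T ^ 2 + x ^ 2 * y * T + 8 * x ^ 2 * T ^ 15 - 76 * x ^ 2 * T ^ 14 + 310 * x ^ 2 * T ^ 13 - 721 * x ^ 2 * T ^ 12 + 1064 * x ^ 2 * T ^ 11 - 1044 * x ^ 2 * T ^ 10 + 691 * x ^ 2 * T ^ 9 - 305 * x ^ 2 * T ^ 8 + 86 * x ^ 2 * T ^ 7 -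 14 * x ^ 2 * T ^ 6 + x ^ 2 * T ^ 5 + 6 * x * y ^ 2 * T ^ 4 - 11 * x * y ^ 2 * T ^ 3 + 6 * x * y ^ 2 * T ^ 2 - x * y ^ 2 * T - 4 * x * y * T ^ 11 + 8 * x * y * T ^ 10 + 11 * x * y * T ^ 9 - 47 * x * y * T ^ 8 + 56 * x * y * T ^ 7 - 32 * x * y * T ^ 6 + 9 * x * y * T ^ 5 - x * y * T ^ 4 + 4 * y ^ 2 * T ^ 10 - 24 * y ^ 2 * T ^ 9 + 53 * y ^ 2 * T ^ 8 - 57 * y ^ 2 * T ^ 7 + 32 * y ^ 2 * T ^ 6 - 9 * y ^ 2 * T ^ 5 + y ^ 2 * T ^ 4 - 8 * y * T ^ 17 + 68 * y * T ^ 16 - 242 * y * T ^ 15 + 479 * y * T ^ 14 - 585 * y * T ^ 13 + 459 * y * T ^ 12 - 232 * y * T ^ 11 + 73 * y * T ^ 10 - 13 * y * T ^ 9 + y * T ^ 8) * he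

include he in
lemma c99 : (bif true then -1 else 1) * evn (gs10 x y T) [0, 0, 0, 0, 0, 0, 1, 1, 0, 1, 1, 1, 0] +
    (bif false then -1 else 1) * evn (gs10 x y T) [0, 1, 1, 0, 0, 1, 0, 0, 0, 0, 0, 0, 0] =
    evn (gs10 x y T) [1, 0, 1, 0, 0, 0, 1, 0, 0, 0, 0, 0, 0] := by
  simp only [gs10, List.cons_append, List.nil_append, evn, cond_true, cond_false]
  linear_combination (-2 * T ^ 3 + 3 * T ^ 2 - T) * he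

end Pool.Agent.UE10
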