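import Pool.Agent.Lib_helper76.UE10.S0

/-!
# The solutions of the unit equation for a point of order ten, part 3c
-/

set_option autoImplicit false
set_option linter.unusedSectionVars false
set_option linter.unusedSimpArgs false
set_option maxRecDepth 100000

namespace Pool.Agent.UE10

open Pool.Agent.KC72
open UE8 (evn okl clr)

variable {F : Type*} [Field F] {x y T : F}

variable (he : y ^ 2 + ((3 * T - T ^ 2 - 1) - T * (T - 1) * (2 * T - 1)) * (x * y) -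
  T ^ 3 * (T - 1) * (2 * T - 1) * (3 * T - T ^ 2 - 1) * y =
    x ^ 3 - T ^ 3 * (T - 1) * (2 * T - 1) * x ^ 2)

include he in
lemma c100 : (bif false then -1 else 1) * evn (gs10 x y T) [0, 0, 0, 1, 1, 1, 1, 0, 0, 0, 1, 1, 0] +
    (bif true then -1 else 1) * evn (gs10 x y T) [0, 1, 1, 0, 0, 0, 0, 1, 1, 2, 0, 0, 0] =
    evn (gs10 x y T) [0, 1, 0, 1, 0, 0, 1, 0, 1, 0, 0, 0, 1] := by
  simp only [gs10, List.cons_append, List.nil_append, evn, cond_true, cond_false]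
  linear_combination (2 * x * T ^ 8 - 9 * x * T ^ 7 + 16 * x * T ^ 6 - 14 * x * T ^ 5 + 6 * x * T ^ 4 - x * T ^ 3) * he

include he in
lemma c101 : (bif true then -1 else 1) * evn (gs10 x y T) [0, 0, 0, 0, 1, 1, 0, 1, 1, 0, 0, 1, 0] +
    (bif false then -1 else 1) * evn (gs10 x y T) [1, 0, 1, 1, 1, 1, 0, 0, 0, 1, 1, 0, 0] =
    evn (gs10 x y T) [0, 1, 0, 0, 0, 0, 0, 1, 2, 0, 0, 0, 1] := by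
  simp only [gs10, List.cons_append, List.nil_append, evn, cond_true, cond_false]
  linear_combination (-x * y * T ^ 2 + x * y * T - 2 * x * T ^ 10 + 13 * x * T ^ 9 - 32 * x * T ^ 8 + 39 * x * T ^ 7 - 25 * x * T ^ 6 + 8 * x * T ^ 5 - x * T ^ 4) * he

include he in
lemma c102 : (bif false then -1 else 1) * evn (gs10 x y T) [0, 0, 0, 0, 1, 1, 1, 1, 1, 0, 0, 1, 0] +
    (bif true then -1 else 1) * evn (gs10 x y T) [0, 1, 1, 1, 1, 2, 0, 0, 0, 0, 1, 0, 0] =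
    evn (gs10 x y T) [0, 1, 0, 0, 0, 0, 1, 1, 2, 1, 0, 0, 0] := by
  simp only [gs10, List.cons_append, List.nil_append, evn, cond_true, cond_false]
  linear_combination (4 * x ^ 2 * T ^ 12 - 20 * x ^ 2 * T ^ 11 + 41 * x ^ 2 * T ^ 10 - 44 * x ^ 2 * T ^ 9 + 26 * x ^ 2 * T ^ 8 - 8 * x ^ 2 * T ^ 7 + x ^ 2 * T ^ 6 + x * y ^ 2 * T - x * y ^ 2 - 2 * x * y * T ^ 10 + 5 * x * y * T ^ 9 - 6 * x * y * T ^ 8 + 12 * x * y * T ^ 7 - 21 * x * y * T ^ 6 + 18 * x * y * T ^ 5 - 7 * x * y * T ^ 4 + x * y * T ^ 3 + 2 * y ^ 2 * T ^ 7 - 7 * y ^ 2 * T ^ 6 + 9 * y ^ 2 * T ^ 5 - 5 * y ^ 2 * T ^ 4 + y ^ 2 * T ^ 3 - 4 * y * T ^ 14 + 32 * y * T ^ 13 - 105 * y * T ^ 12 + 187 * y * T ^ 11 - 199 * y * T ^ 10 + 130 * y * T ^ 9 - 51 * y * T ^ 8 + 11 * y * T ^ 7 - y * T ^ 6) * he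

include he in
lemma c103 : (bif false then -1 else 1) * evn (gs10 x y T) [0, 0, 0, 1, 1, 1, 1, 1, 1, 0, 0, 1, 0] +
    (bif true then -1 else 1) * evn (gs10 x y T) [1, 0, 1, 2, 1, 1, 1, 0, 0, 0, 1, 0, 0] =
    evn (gs10 x y T) [0, 1, 1, 0, 0, 0, 0, 2, 2, 1, 0, 0, 0] := by
  simp only [gs10, List.cons_append, List.nil_append, evn, cond_true, cond_false]
  linear_combination (-2 * x ^ 3 * y * T ^ 4 + 5 * x ^ 3 * y * T ^ 3 - 4 * x ^ 3 * y * T ^ 2 + x ^ 3 * y * T + 4 * x ^ 3 * T ^ 11 - 20 * x ^ 3 * T ^ 10 + 41 * x ^ 3 * T ^ 9 - 44 * x ^ 3 * T ^ 8 + 26 * x ^ 3 * T ^ 7 - 8 * x ^ 3 * T ^ 6 + x ^ 3 * T ^ 5 + x ^ 2 * y ^ 2 * T - x ^ 2 * y ^ 2 - 2 * x ^ 2 * y * T ^ 10 + 9 * x ^ 2 * y * T ^ 9 - 10 * x ^ 2 * y * T ^ 8 - 15 * x ^ 2 * y * T ^ 7 + 51 * x ^ 2 * y * T ^ 6 - 57 * x ^ 2 *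 y * T ^ 5 + 32 * x ^ 2 * y * T ^ 4 - 9 * x ^ 2 * y * T ^ 3 + x ^ 2 * y * T ^ 2 + 8 * x ^ 2 * T ^ 16 - 76 * x ^ 2 * T ^ 15 + 310 * x ^ 2 * T ^ 14 - 721 * x ^ 2 * T ^ 13 + 1064 * x ^ 2 * T ^ 12 - 1044 * x ^ 2 * T ^ 11 + 691 * x ^ 2 * T ^ 10 - 305 * x ^ 2 * T ^ 9 + 86 * x ^ 2 * T ^ 8 - 14 * x ^ 2 * T ^ 7 + x ^ 2 * T ^ 6 + 2 * x * y ^ 2 * T ^ 7 - 9 * x * y ^ 2 * T ^ 6 + 14 * x * y ^ 2 * T ^ 5 - 9 * x * y ^ 2 * T ^ 4 + 2 * x * y ^ 2 * T ^ 3 - 4 * x * y * T ^ 13 + 32 * x * y * T ^ 12 - 105 * x * y * T ^ 11 + 187 * x * y * T ^ 10 - 199 * x * y * T ^ 9 + 130 * x * y * T ^ 8 - 51 * x * y * T ^ 7 + 11 * x * y * T ^ 6 - x * y * T ^ 5) * he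

include he in
lemma c104 : (bif false then -1 else 1) * evn (gs10 x y T) [0, 0, 0, 1, 1, 1, 1, 1, 1, 0, 0, 2, 0] +
    (bif false then -1 else 1) * evn (gs10 x y T) [0, 1, 1, 2, 1, 2, 0, 0, 0, 0, 1, 0, 1] =
    evn (gs10 x y T) [0, 1, 1, 0, 0, 0, 0, 2, 2, 3, 0, 0, 0] := by
  simp only [gs10, List.cons_append, List.nil_append, evn, cond_true, cond_false]
  linear_combination (4 * x ^ 3 * T ^ 13 - 20 * x ^ 3 * T ^ 12 + 41 * x ^ 3 * T ^ 11 - 44 * x ^ 3 * T ^ 10 + 26 * x ^ 3 * T ^ 9 - 8 * x ^ 3 * T ^ 8 + x ^ 3 * T ^ 7 - x ^ 2 * y ^ 2 * T ^ 3 + 4 * x ^ 2 * y ^ 2 * T ^ 2 - 4 * x ^ 2 * y ^ 2 * T + x ^ 2 * y ^ 2 - 4 * x ^ 2 * y * T ^ 11 + 22 * x ^ 2 * y * T ^ 10 - 66 * x ^ 2 * y * T ^ 9 + 128 * x ^ 2 * y * T ^ 8 - 156 * x ^ 2 * y * T ^ 7 + 115 * x ^ 2 * y * T ^ 6 - 49 * x ^ 2 *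 y * T ^ 5 + 11 * x ^ 2 * y * T ^ 4 - x ^ 2 * y * T ^ 3 + 8 * x ^ 2 * T ^ 18 - 76 * x ^ 2 * T ^ 17 + 310 * x ^ 2 * T ^ 16 - 721 * x ^ 2 * T ^ 15 + 1064 * x ^ 2 * T ^ 14 - 1044 * x ^ 2 * T ^ 13 + 691 * x ^ 2 * T ^ 12 - 305 * x ^ 2 * T ^ 11 + 86 * x ^ 2 * T ^ 10 - 14 * x ^ 2 * T ^ 9 + x ^ 2 * T ^ 8 + 4 * x * y ^ 2 * T ^ 8 - 14 * x * y ^ 2 * T ^ 7 + 14 * x * y ^ 2 * T ^ 6 + 2 * x * y ^ 2 * T ^ 5 - 11 * x * y ^ 2 * T ^ 4 + 6 * x * y ^ 2 * T ^ 3 - x * y ^ 2 * T ^ 2 - 16 * x * y * T ^ 15 + 124 * x * y * T ^ 14 - 384 * x * y * T ^ 13 + 611 * x * y * T ^ 12 - 504 * x * y * T ^ 11 + 134 * x * y * T ^ 10 + 125 * x * y * T ^ 9 - 137 * x * y * T ^ 8 + 58 * x * y * T ^ 7 - 12 * x * y * T ^ 6 + x * y * T ^ 5 + 4 * y ^ 2 * T ^ 13 - 32 * y ^ 2 * T ^ 12 + 105 * y ^ 2 * T ^ 11 - 187 * y ^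 2 * T ^ 10 + 199 * y ^ 2 * T ^ 9 - 130 * y ^ 2 * T ^ 8 + 51 * y ^ 2 * T ^ 7 - 11 * y ^ 2 * T ^ 6 + y ^ 2 * T ^ 5 - 8 * y * T ^ 20 + 100 * y * T ^ 19 - 546 * y * T ^ 18 + 1727 * y * T ^ 17 - 3537 * y * T ^ 16 + 4957 * y * T ^ 15 - 4887 * y * T ^ 14 + 3422 * y * T ^ 13 - 1692 * y * T ^ 12 + 577 * y * T ^ 11 - 129 * y * T ^ 10 + 17 * y * T ^ 9 - y * T ^ 8) * he

include he in
lemma c105 : (bif false then -1 else 1) * evn (gs10 x y T) [0, 0, 0, 0, 0, 0, 1, 1, 1, 0, 1, 1, 0] +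
    (bif true then -1 else 1) * evn (gs10 x y T) [0, 1, 1, 1, 0, 1, 0, 0, 0, 0, 0, 0, 1] =
    evn (gs10 x y T) [1, 0, 1, 1, 0, 0, 1, 0, 0, 2, 0, 0, 0] := by
  simp only [gs10, List.cons_append, List.nil_append, evn, cond_true, cond_false]
  linear_combination (-2 * x * T ^ 5 + 3 * x * T ^ 4 - x * T ^ 3 + 2 * y * T ^ 2 - 3 * y * T + y - 4 * T ^ 9 + 24 * T ^ 8 - 53 * T ^ 7 + 57 * T ^ 6 - 32 * T ^ 5 + 9 * T ^ 4 - T ^ 3) * he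

include he in
lemma c106 : (bif true then -1 else 1) * evn (gs10 x y T) [0, 1, 0, 1, 0, 0, 1, 1, 2, 0, 0, 0, 1] +
    (bif false then -1 else 1) * evn (gs10 x y T) [1, 0, 1, 2, 1, 1, 1, 0, 0, 0, 2, 0, 0] =
    evn (gs10 x y T) [0, 1, 1, 0, 0, 0, 0, 2, 2, 1, 0, 0, 0] := by
  simp only [gs10, List.cons_append, List.nil_append, evn, cond_true, cond_false]
  linear_combination (2 * x ^ 3 * y * T ^ 5 - 7 * x ^ 3 * y * T ^ 4 + 9 * x ^ 3 * y * T ^ 3 - 5 * x ^ 3 * y * T ^ 2 + x ^ 3 * y * T + 4 * x ^ 3 * T ^ 13 - 32 * x ^ 3 * T ^ 12 + 109 * x ^ 3 * T ^ 11 - 207 * x ^ 3 * T ^ 10 + 240 * x ^ 3 * T ^ 9 - 174 * x ^ 3 * T ^ 8 + 77 * x ^ 3 * T ^ 7 - 19 * x ^ 3 * T ^ 6 + 2 * x ^ 3 * T ^ 5 - x ^ 2 * y ^ 2 * T ^ 2 + 2 * x ^ 2 * y ^ 2 * T - x ^ 2 * y ^ 2 - 4 * x ^ 2 * y * T ^ 10 + 18 * x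 ^ 2 * y * T ^ 9 - 26 * x ^ 2 * y * T ^ 8 - x ^ 2 * y * T ^ 7 + 45 * x ^ 2 * y * T ^ 6 - 56 * x ^ 2 * y * T ^ 5 + 32 * x ^ 2 * y * T ^ 4 - 9 * x ^ 2 * y * T ^ 3 + x ^ 2 * y * T ^ 2 - 8 * x ^ 2 * T ^ 17 + 84 * x ^ 2 * T ^ 16 - 386 * x ^ 2 * T ^ 15 + 1031 * x ^ 2 * T ^ 14 - 1785 * x ^ 2 * T ^ 13 + 2108 * x ^ 2 * T ^ 12 - 1735 * x ^ 2 * T ^ 11 + 996 * x ^ 2 * T ^ 10 - 391 * x ^ 2 * T ^ 9 + 100 * x ^ 2 * T ^ 8 - 15 * x ^ 2 * T ^ 7 + x ^ 2 * T ^ 6 + 2 * x * y ^ 2 * T ^ 7 - 7 * x * y ^ 2 * T ^ 6 + 9 * x * y ^ 2 * T ^ 5 - 5 * x * y ^ 2 * T ^ 4 + x * y ^ 2 * T ^ 3 + 4 * x * y * T ^ 14 - 36 * x * y * T ^ 13 + 137 * x * y * T ^ 12 - 292 * x * y * T ^ 11 + 386 * x * y * T ^ 10 - 329 * x * y * T ^ 9 + 181 * x * y * T ^ 8 - 62 * x * y * T ^ 7 + 12 * x * y * T ^ 6 - x * y * T ^ 5) * he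

include he in
lemma c107 : (bif false then -1 else 1) * evn (gs10 x y T) [0, 0, 0, 1, 0, 0, 1, 1, 2, 0, 0, 1, 0] +
    (bif false then -1 else 1) * evn (gs10 x y T) [0, 0, 1, 2, 1, 2, 0, 0, 0, 0, 2, 0, 0] =
    evn (gs10 x y T) [0, 0, 1, 0, 0, 0, 0, 2, 2, 2, 0, 0, 0] := by
  simp only [gs10, List.cons_append, List.nil_append, evn, cond_true, cond_false]
  linear_combination (-4 * x ^ 2 * T ^ 12 + 24 * x ^ 2 * T ^ 11 - 61 * x ^ 2 * T ^ 10 + 85 * x ^ 2 * T ^ 9 - 70 * x ^ 2 * T ^ 8 + 34 * x ^ 2 * T ^ 7 - 9 * x ^ 2 * T ^ 6 + x ^ 2 * T ^ 5 - x * y ^ 2 * T ^ 2 + 2 * x * y ^ 2 * T - x * y ^ 2 + 10 * x * y * T ^ 9 - 49 * x * y * T ^ 8 + 98 * x * y * T ^ 7 - 102 * x * y * T ^ 6 + 58 * x * y * T ^ 5 - 17 * x * y * T ^ 4 + 2 * x * y * T ^ 3 - 2 * y ^ 2 * T ^ 7 + 9 * y ^ 2 * T ^ 6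 - 16 * y ^ 2 * T ^ 5 + 14 * y ^ 2 * T ^ 4 - 6 * y ^ 2 * T ^ 3 + y ^ 2 * T ^ 2 + 4 * y * T ^ 14 - 36 * y * T ^ 13 + 137 * y * T ^ 12 - 292 * y * T ^ 11 + 386 * y * T ^ 10 - 329 * y * T ^ 9 + 181 * y * T ^ 8 - 62 * y * T ^ 7 + 12 * y * T ^ 6 - y * T ^ 5) * he

include he in
lemma c108 : (bif false then -1 else 1) * evn (gs10 x y T) [0, 1, 0, 0, 0, 0, 1, 1, 2, 0, 1, 0, 0] +
    (bif false then -1 else 1) * evn (gs10 x y T) [0, 1, 1, 1, 1, 2, 0, 0, 0, 0, 0, 0, 0] =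
    evn (gs10 x y T) [1, 0, 1, 1, 1, 1, 1, 0, 0, 1, 0, 0, 0] := by
  simp only [gs10, List.cons_append, List.nil_append, evn, cond_true, cond_false]
  linear_combination (-2 * x ^ 2 * y * T ^ 4 + 3 * x ^ 2 * y * T ^ 3 - x ^ 2 * y * T ^ 2 - 4 * x ^ 2 * T ^ 12 + 24 * x ^ 2 * T ^ 11 - 61 * x ^ 2 * T ^ 10 + 85 * x ^ 2 * T ^ 9 - 70 * x ^ 2 * T ^ 8 + 34 * x ^ 2 * T ^ 7 - 9 * x ^ 2 * T ^ 6 + x ^ 2 * T ^ 5 + x * y ^ 2 * T - x * y ^ 2 + 4 * x * y * T ^ 9 - 14 * x * y * T ^ 8 + 24 * x * y * T ^ 7 - 27 * x * y * T ^ 6 + 19 * x * y * T ^ 5 - 7 * x * y * T ^ 4 + x * y * T ^ 3 - 2 * y ^ 2 * T ^ 6 + 5 * y ^ 2 * T ^ 5 - 4 * y ^ 2 * T ^ 4 + y ^ 2 * T ^ 3 + 4 * y * T ^ 13 - 28 * y * T ^ 12 + 77 * y * T ^ 11 - 110 * y * T ^ 10 + 89 * y * T ^ 9 - 41 * y * T ^ 8 + 10 * y * T ^ 7 - y * T ^ 6)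 * he

include he in
lemma c109 : (bif false then -1 else 1) * evn (gs10 x y T) [0, 1, 0, 0, 0, 0, 0, 2, 2, 1, 1, 0, 0] +
    (bif true then -1 else 1) * evn (gs10 x y T) [0, 1, 0, 2, 1, 2, 0, 0, 0, 0, 0, 0, 1] =
    evn (gs10 x y T) [1, 0, 0, 2, 1, 1, 1, 0, 0, 0, 0, 1, 0] := by
  simp only [gs10, List.cons_append, List.nil_append, evn, cond_true, cond_false]
  linear_combination (-4 * x ^ 2 * y * T ^ 4 + 8 * x ^ 2 * y * T ^ 3 - 5 * x ^ 2 * y * T ^ 2 + x ^ 2 * y * T - 4 * x ^ 2 * T ^ 12 + 24 * x ^ 2 * T ^ 11 - 61 * x ^ 2 * T ^ 10 + 85 * x ^ 2 * T ^ 9 - 70 * x ^ 2 * T ^ 8 + 34 * x ^ 2 * T ^ 7 - 9 * x ^ 2 * T ^ 6 + x ^ 2 * T ^ 5 + x * y ^ 2 * T ^ 2 - x * y ^ 2 * T + 6 * x * y * T ^ 9 - 17 * x * y * T ^ 8 + 17 * x * y * T ^ 7 - 7 * x * y * T ^ 6 + x * y * T ^ 5 - 2 * y ^ 2 *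 T ^ 7 + 5 * y ^ 2 * T ^ 6 - 4 * y ^ 2 * T ^ 5 + y ^ 2 * T ^ 4 + 4 * y * T ^ 14 - 28 * y * T ^ 13 + 77 * y * T ^ 12 - 110 * y * T ^ 11 + 89 * y * T ^ 10 - 41 * y * T ^ 9 + 10 * y * T ^ 8 - y * T ^ 7) * he

end Pool.Agent.UE10
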