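import Pool.Agent.Lib_helper76.UE10.S0

/-!
# The solutions of the unit equation for a point of order ten, part 3d
-/

set_option autoImplicit false
set_option linter.unusedSectionVars false
set_option linter.unusedSimpArgs false
set_option maxRecDepth 100000

namespace Pool.Agent.UE10

open Pool.Agent.KC72
open UE8 (evn okl clr)

variable {F : Type*} [Field F] {x y T : F}

variable (he : y ^ 2 + ((3 * T - T ^ 2 - 1) - T * (T - 1) * (2 * T - 1)) * (x * y) -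
  T ^ 3 * (T - 1) * (2 * T - 1) * (3 * T - T ^ 2 - 1) * y =
    x ^ 3 - T ^ 3 * (T - 1) * (2 * T - 1) * x ^ 2)

include he in
lemma c110 : (bif false then -1 else 1) * evn (gs10 x y T) [0, 0, 1, 1, 0, 1, 0, 0, 0, 2, 1, 0, 0] +
    (bif false then -1 else 1) * evn (gs10 x y T) [0, 1, 0, 0, 0, 0, 0, 1, 1, 0, 0, 0, 0] =
    evn (gs10 x y T) [0, 0, 0, 1, 0, 1, 0, 1, 0, 0, 0, 0, 0] := by
  simp only [gs10, List.cons_append, List.nil_append, evn, cond_true, cond_false]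
  linear_combination (-2 * T ^ 5 + 5 * T ^ 4 - 4 * T ^ 3 + T ^ 2) * he

include he in
lemma c111 : (bif false then -1 else 1) * evn (gs10 x y T) [0, 0, 1, 1, 1, 1, 1, 0, 0, 1, 1, 0, 0] +
    (bif false then -1 else 1) * evn (gs10 x y T) [0, 1, 1, 0, 0, 0, 0, 1, 2, 0, 0, 0, 0] =
    evn (gs10 x y T) [0, 0, 0, 1, 1, 1, 1, 1, 0, 0, 0, 0, 0] := by
  simp only [gs10, List.cons_append, List.nil_append, evn, cond_true, cond_false]
  linear_combination (2 * x ^ 2 * T ^ 8 - 7 * x ^ 2 * T ^ 7 + 9 * x ^ 2 * T ^ 6 - 5 * x ^ 2 * T ^ 5 + x ^ 2 * T ^ 4 - x * y * T ^ 6 + 4 * x * y * T ^ 5 - 8 * x * y * T ^ 4 + 9 * x * y * T ^ 3 - 5 * x * y * T ^ 2 + x * y * T + 4 * x * T ^ 13 - 32 * x * T ^ 12 + 105 * x * T ^ 11 - 187 * x * T ^ 10 + 199 * x * T ^ 9 - 130 * x * T ^ 8 + 51 * x * T ^ 7 - 11 * x * T ^ 6 + x * T ^ 5 - 2 * y * T ^ 10 + 13 * y * T ^ 9 - 32 * y * T ^ 8 + 39 * y * T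 ^ 7 - 25 * y * T ^ 6 + 8 * y * T ^ 5 - y * T ^ 4) * he

include he in
lemma c112 : (bif true then -1 else 1) * evn (gs10 x y T) [0, 0, 1, 0, 0, 0, 1, 0, 0, 2, 0, 0, 0] +
    (bif false then -1 else 1) * evn (gs10 x y T) [1, 1, 1, 0, 0, 0, 0, 0, 0, 0, 0, 0, 0] =
    evn (gs10 x y T) [0, 0, 0, 0, 0, 0, 1, 1, 0, 0, 0, 0, 0] := by
  simp only [gs10, List.cons_append, List.nil_append, evn, cond_true, cond_false]
  linear_combination (-1) * he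

include he in
lemma c113 : (bif true then -1 else 1) * evn (gs10 x y T) [0, 0, 1, 1, 1, 1, 1, 0, 0, 1, 2, 0, 0] +
    (bif false then -1 else 1) * evn (gs10 x y T) [0, 1, 1, 0, 0, 0, 0, 1, 2, 0, 0, 0, 0] =
    evn (gs10 x y T) [0, 1, 0, 0, 1, 0, 1, 1, 1, 0, 0, 0, 0] := by
  simp only [gs10, List.cons_append, List.nil_append, evn, cond_true, cond_false]
  linear_combination (-2 * x ^ 2 * T ^ 8 + 9 * x ^ 2 * T ^ 7 - 16 * x ^ 2 * T ^ 6 + 14 * x ^ 2 * T ^ 5 - 6 * x ^ 2 * T ^ 4 + x ^ 2 * T ^ 3 - x * y * T ^ 6 + 6 * x * y * T ^ 5 - 13 * x * y * T ^ 4 + 13 * x * y * T ^ 3 - 6 * x * y * T ^ 2 + x * y * T - 4 * x * T ^ 14 + 36 * x * T ^ 13 - 137 * x * T ^ 12 + 292 * x * T ^ 11 - 386 * x * T ^ 10 + 329 * x * T ^ 9 - 181 * x * T ^ 8 + 62 * x * T ^ 7 - 12 * x * T ^ 6 + x * T ^ 5 + 2 * y * T ^ 11 - 15 * y * T ^ 10 + 45 * y * T ^ 9 - 71 * y * T ^ 8 + 64 * y * T ^ 7 - 33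 * y * T ^ 6 + 9 * y * T ^ 5 - y * T ^ 4) * he

include he in
lemma c114 : (bif true then -1 else 1) * evn (gs10 x y T) [0, 0, 1, 1, 0, 1, 1, 0, 0, 3, 0, 0, 0] +
    (bif false then -1 else 1) * evn (gs10 x y T) [1, 1, 1, 1, 0, 1, 0, 0, 0, 0, 0, 0, 0] =
    evn (gs10 x y T) [0, 1, 0, 0, 0, 0, 1, 1, 1, 0, 0, 0, 0] := by
  simp only [gs10, List.cons_append, List.nil_append, evn, cond_true, cond_false]
  linear_combination (-x * y - 4 * x * T ^ 8 + 16 * x * T ^ 7 - 25 * x * T ^ 6 + 19 * x * T ^ 5 - 7 * x * T ^ 4 + x * T ^ 3 + 2 * y * T ^ 5 - 3 * y * T ^ 4 + y * T ^ 3) * he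

include he in
lemma c115 : (bif true then -1 else 1) * evn (gs10 x y T) [0, 0, 0, 1, 1, 1, 1, 0, 0, 1, 0, 1, 0] +
    (bif false then -1 else 1) * evn (gs10 x y T) [1, 1, 0, 1, 1, 1, 0, 0, 0, 0, 0, 0, 0] =
    evn (gs10 x y T) [0, 1, 0, 0, 0, 0, 0, 1, 2, 0, 0, 0, 0] := by
  simp only [gs10, List.cons_append, List.nil_append, evn, cond_true, cond_false]
  linear_combination (-x * y - 2 * x * T ^ 8 + 7 * x * T ^ 7 - 9 * x * T ^ 6 + 5 * x * T ^ 5 - x * T ^ 4 + 2 * y * T ^ 5 - 3 * y * T ^ 4 + y * T ^ 3) * he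

include he in
lemma c116 : (bif true then -1 else 1) * evn (gs10 x y T) [0, 0, 0, 1, 1, 1, 1, 0, 0, 0, 1, 0, 0] +
    (bif false then -1 else 1) * evn (gs10 x y T) [0, 1, 1, 0, 0, 0, 0, 0, 2, 1, 0, 0, 0] =
    evn (gs10 x y T) [0, 1, 0, 0, 1, 0, 1, 0, 1, 0, 0, 0, 0] := by
  simp only [gs10, List.cons_append, List.nil_append, evn, cond_true, cond_false]
  linear_combination (-x * T ^ 7 + 4 * x * T ^ 6 - 6 * x * T ^ 5 + 4 * x * T ^ 4 - x * T ^ 3) * he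

include he in
lemma c117 : (bif false then -1 else 1) * evn (gs10 x y T) [0, 0, 0, 1, 0, 1, 1, 1, 0, 1, 0, 0, 0] +
    (bif true then -1 else 1) * evn (gs10 x y T) [1, 1, 1, 1, 0, 1, 0, 0, 0, 0, 1, 0, 0] =
    evn (gs10 x y T) [0, 1, 0, 0, 0, 0, 1, 1, 1, 0, 0, 0, 0] := by
  simp only [gs10, List.cons_append, List.nil_append, evn, cond_true, cond_false]
  linear_combination (x * y * T - x * y - 4 * x * T ^ 8 + 16 * x * T ^ 7 - 25 * x * T ^ 6 + 19 * x * T ^ 5 - 7 * x * T ^ 4 + x * T ^ 3) * he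

include he in
lemma c118 : (bif false then -1 else 1) * evn (gs10 x y T) [0, 0, 0, 1, 1, 1, 1, 1, 0, 0, 0, 1, 0] +
    (bif true then -1 else 1) * evn (gs10 x y T) [1, 1, 1, 1, 1, 1, 0, 0, 0, 0, 1, 0, 0] =
    evn (gs10 x y T) [0, 1, 1, 0, 0, 0, 0, 1, 2, 1, 0, 0, 0] := by
  simp only [gs10, List.cons_append, List.nil_append, evn, cond_true, cond_false]
  linear_combination (x ^ 2 * y * T - x ^ 2 * y - 2 * x ^ 2 * T ^ 9 + 7 * x ^ 2 * T ^ 8 - 9 * x ^ 2 * T ^ 7 + 5 * x ^ 2 * T ^ 6 - x ^ 2 * T ^ 5 + 2 * x * y * T ^ 7 - 9 * x * y * T ^ 6 + 14 * x * y * T ^ 5 - 9 * x * y * T ^ 4 + 2 * x * y * T ^ 3 - 4 * x * T ^ 14 + 32 * x * T ^ 13 - 105 * x * T ^ 12 + 187 * x * T ^ 11 - 199 * x * T ^ 10 + 130 * x * T ^ 9 - 51 * x * T ^ 8 + 11 * x * T ^ 7 - x * T ^ 6) * he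

include he in
lemma c119 : (bif false then -1 else 1) * evn (gs10 x y T) [0, 0, 0, 0, 1, 0, 1, 1, 1, 0, 0, 1, 0] +
    (bif false then -1 else 1) * evn (gs10 x y T) [1, 0, 1, 1, 1, 1, 0, 0, 0, 0, 2, 0, 0] =
    evn (gs10 x y T) [0, 0, 1, 0, 0, 0, 0, 1, 2, 2, 0, 0, 0] := by
  simp only [gs10, List.cons_append, List.nil_append, evn, cond_true, cond_false]
  linear_combination (-x * y * T ^ 2 + 2 * x * y * T - x * y - 2 * x * T ^ 10 + 15 * x * T ^ 9 - 45 * x * T ^ 8 + 71 * x * T ^ 7 - 64 * x * T ^ 6 + 33 * x * T ^ 5 - 9 * x * T ^ 4 + x * T ^ 3) * he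

end Pool.Agent.UE10
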