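import Pool.Agent.Lib_helper76.UE10.S3a
import Pool.Agent.Lib_helper76.UE10.S3b
import Pool.Agent.Lib_helper76.UE10.S3c
import Pool.Agent.Lib_helper76.UE10.S3d

/-!
# The solutions of the unit equation for a point of order ten, part 3
-/

set_option autoImplicit false
set_option linter.unusedSectionVars false
set_option linter.unusedSimpArgs false
set_option maxRecDepth 100000

namespace Pool.Agent.UE10

open Pool.Agent.KC72
open UE8 (evn okl clr)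

variable {F : Type*} [Field F] {x y T : F}

variable (he : y ^ 2 + ((3 * T - T ^ 2 - 1) - T * (T - 1) * (2 * T - 1)) * (x * y) -
  T ^ 3 * (T - 1) * (2 * T - 1) * (3 * T - T ^ 2 - 1) * y =
    x ^ 3 - T ^ 3 * (T - 1) * (2 * T - 1) * x ^ 2)

/-- part 3 of the list -/
def cp3 : List (Mo × Mo) := [
  ((false, [0, 0, 0, 0, 1, 0, 0, 0, -1, 0, 1, 1, 0]), (false, [0, 1, 0, -1, 0, -1, 0, 1, 0, 0, 0, 0, 0])),
  ((true, [0, 0, 0, 0, 1, 0, 0, 0, -1, 0, 0, 1, 0]), (false, [1, 0, 0, 1, 1, 0, 0, 0, -2, 0, 0, 0, 0])),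
  ((true, [0, 0, 0, 0, 1, 0, 0, 0, -1, 1, 0, 1, 0]), (false, [0, 0, 1, 1, 1, 1, 0, -1, -2, 0, 0, 0, 0])),
  ((true, [0, -1, 0, 1, 1, 1, 0, -1, -1, 1, 0, 1, 0]), (false, [1, -1, 0, 2, 1, 1, 0, -1, -2, 0, 0, 0, 0])),
  ((true, [0, -1, 0, 1, 1, 1, 0, -1, -1, 0, 0, 2, 0]), (false, [0, -1, 1, 2, 1, 2, 0, -2, -2, 0, 0, 0, 0])),
  ((true, [-1, 0, 0, -1, 0, 0, 0, 0, 1, 0, 1, 1, 0]), (false, [-1, 0, 1, 0, 0, 1, 0, -1, 0, 0, 0, 0, 0])),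
  ((false, [0, -1, 0, 1, 0, 1, 0, -1, 0, 1, 0, 0, 0]), (true, [1, -1, 0, 2, 1, 1, 0, -1, -2, 0, 1, 0, 0])),
  ((false, [0, -1, 0, 1, 0, 1, 0, -1, 0, -1, 0, 1, 0]), (true, [0, -1, 1, 2, 1, 2, 0, -2, -2, -1, 1, 0, 0])),
  ((false, [-1, 0, 0, -1, -1, 0, 0, 0, 2, -1, 1, 0, 0]), (false, [-1, 0, 1, 0, 0, 1, 0, -1, 0, -1, 0, 0, 0])),
  ((false, [-1, 1, 0, -2, -1, -1, 0, 1, 2, 0, 1, -1, 0]), (false, [-1, 0, 1, 0, 0, 1, 0, -1, 0, 1, 0, -1, 0])),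
  ((false, [0, 0, 0, 1, 0, 0, 0, 0, -1, 2, 1, 0, 0]), (false, [0, 1, 0, 0, -1, -1, 0, 0, 1, 0, 0, 0, 0])),
  ((true, [0, 0, 0, 1, 0, 0, 0, 0, -1, 0, 1, 0, 1]), (false, [0, 1, 1, -1, -1, -1, -1, 1, 1, 0, 0, 0, 0])),
  ((false, [0, 0, 0, 1, 0, 0, 0, 0, -1, 1, 0, 0, 1]), (false, [1, 0, 1, 1, 0, 0, 0, -1, -1, 0, 0, 0, 0])),
  ((true, [0, 0, 0, 1, 0, 0, 0, 0, -1, 3, 0, 0, 0]), (false, [0, 1, 1, 1, 0, 1, -1, -1, -1, 0, 0, 0, 0])),
  ((true, [0, -1, 0, 1, 1, 1, 0, 0, -2, 0, 2, 1, 0]), (false, [0, 0, 1, -1, 0, 0, -1, 1, 0, 0, 0, 0, 0])),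
  ((true, [0, -1, 0, 1, 1, 1, 0, 0, -2, 1, 0, 1, 0]), (false, [1, -1, 1, 1, 1, 1, 0, -1, -2, 0, 0, 0, 0])),
  ((true, [0, -1, 0, 1, 1, 1, 0, 0, -2, 2, 0, 1, 0]), (false, [0, 0, 1, 1, 1, 2, -1, -1, -2, 0, 0, 0, 0])),
  ((false, [0, -1, -1, 2, 1, 1, 1, -1, -2, 0, 0, 1, 1]), (false, [1, -1, 0, 2, 1, 1, 1, -2, -2, 0, 0, 0, 0])),
  ((true, [0, -1, -1, 2, 1, 1, 1, -1, -2, 0, 0, 2, 0]), (false, [0, 0, 0, 2, 1, 2, 0, -2, -2, 0, 0, 0, 0])),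
  ((true, [-1, 0, -1, 0, 0, 0, 0, 1, 0, 1, 1, 1, 0]), (false, [-1, 1, 0, 0, 0, 1, -1, 0, 0, 0, 0, 0, 0])),
  ((false, [0, -1, 0, 0, 1, 1, 0, 0, -1, 0, 1, 1, -1]), (true, [0, 0, 1, -1, 0, 0, -1, 1, 0, 2, 0, 0, -1])),
  ((true, [0, -1, 0, 0, 1, 1, 0, 0, -1, 0, 0, 1, -1]), (false, [1, -1, 1, 1, 1, 1, 0, -1, -2, 1, 1, 0, -1])),
  ((false, [0, -1, 0, 0, 1, 1, 0, 0, -1, -1, 0, 1, 0]), (true, [0, 0, 1, 1, 1, 2, -1, -1, -2, -1, 1, 0, 0])),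
  ((false, [0, -1, -1, 1, 1, 1, 1, -1, -1, -1, 0, 1, 0]), (true, [1, -1, 0, 2, 1, 1, 1, -2, -2, -1, 1, 0, 0])),
  ((false, [0, -1, -1, 1, 1, 1, 1, -1, -1, -3, 0, 2, 0]), (false, [0, 0, 0, 2, 1, 2, 0, -2, -2, -3, 1, 0, 1])),
  ((false, [-1, 0, -1, -1, 0, 0, 0, 1, 1, -2, 1, 1, 0]), (true, [-1, 1, 0, 0, 0, 1, -1, 0, 0, -2, 0, 0, 1])),
  ((true, [0, 0, -1, 1, 0, 0, 1, -1, 0, -1, 0, 0, 1]), (false, [1, -1, 0, 2, 1, 1, 1, -2, -2, -1, 2, 0, 0])),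
  ((false, [0, 0, -1, 1, 0, 0, 1, -1, 0, -2, 0, 1, 0]), (false, [0, 0, 0, 2, 1, 2, 0, -2, -2, -2, 2, 0, 0])),
  ((false, [-1, 1, -1, -1, -1, -1, 0, 1, 2, -1, 1, 0, 0]), (false, [-1, 1, 0, 0, 0, 1, -1, 0, 0, -1, 0, 0, 0])),
  ((false, [-1, 1, 0, -2, -1, -1, -1, 2, 2, 1, 1, -1, 0]), (true, [-1, 1, 0, 0, 0, 1, -1, 0, 0, 0, 0, -1, 1])),
  ((false, [0, 0, 1, 0, 0, 0, 0, -1, 0, 2, 1, 0, 0]), (false, [0, 1, 0, -1, 0, -1, 0, 0, 1, 0, 0, 0, 0])),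
  ((false, [0, 0, 1, 0, 0, 0, 0, -1, 0, 1, 1, 0, 0]), (false, [0, 1, 1, -1, -1, -1, -1, 0, 2, 0, 0, 0, 0])),
  ((true, [0, 0, 1, 0, 0, 0, 0, -1, 0, 2, 0, 0, 0]), (false, [1, 1, 1, 0, 0, 0, -1, -1, 0, 0, 0, 0, 0])),
  ((true, [0, -1, 1, 1, 0, 1, 0, -1, -1, 1, 2, 0, 0]), (false, [0, 0, 1, 0, -1, 0, -1, 0, 1, 0, 0, 0, 0])),
  ((true, [0, -1, 1, 1, 0, 1, 0, -1, -1, 3, 0, 0, 0]), (false, [1, 0, 1, 1, 0, 1, -1, -1, -1, 0, 0, 0, 0])),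
  ((true, [0, -1, 0, 1, 1, 1, 1, -1, -2, 1, 0, 1, 0]), (false, [1, 0, 0, 1, 1, 1, 0, -1, -2, 0, 0, 0, 0])),
  ((true, [0, -1, 0, 1, 0, 1, 0, 0, -1, 0, 1, 0, 0]), (false, [0, 0, 1, 0, -1, 0, -1, 0, 1, 1, 0, 0, 0])),
  ((false, [0, -1, 0, 1, 0, 1, 0, 0, -1, 1, 0, 0, 0]), (true, [1, 0, 1, 1, 0, 1, -1, -1, -1, 0, 1, 0, 0])),
  ((false, [0, -1, -1, 1, 1, 1, 1, 0, -2, -1, 0, 1, 0]), (true, [1, 0, 0, 1, 1, 1, 0, -1, -2, -1, 1, 0, 0])),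
  ((false, [0, 0, -1, 0, 1, 0, 1, 0, -1, -2, 0, 1, 0]), (false, [1, 0, 0, 1, 1, 1, 0, -1, -2, -2, 2, 0, 0]))]

include he in
theorem sp3 (hne : ∀ z ∈ gs10 x y T, z ≠ 0) : Sols (gs10 x y T) cp3 := by
  intro p hp
  unfold cp3 at hp
  simp only [List.mem_cons, List.not_mem_nil, or_false] at hp
  rcases hp with rfl | rfl | rfl | rfl | rfl | rfl | rfl | rfl | rfl | rfl | rfl | rfl | rfl | rfl | rfl | rfl | rfl | rfl | rfl | rfl | rfl | rfl | rfl | rfl | rfl | rfl | rfl | rfl | rfl | rfl | rfl | rfl | rfl | rfl | rfl | rfl | rfl | rfl | rfl | rfl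
  · exact clr hne (by decide) (by decide) rfl rfl (c80 he)
  · exact clr hne (by decide) (by decide) rfl rfl (c81 he)
  · exact clr hne (by decide) (by decide) rfl rfl (c82 he)
  · exact clr hne (by decide) (by decide) rfl rfl (c83 he)
  · exact clr hne (by decide) (by decide) rfl rfl (c84 he)
  · exact clr hne (by decide) (by decide) rfl rfl (c85 he)
  · exact clr hne (by decide) (by decide) rfl rfl (c86 he)
  · exact clr hne (by decide) (by decide) rfl rfl (c87 he)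
  · exact clr hne (by decide) (by decide) rfl rfl (c88 he)
  · exact clr hne (by decide) (by decide) rfl rfl (c89 he)
  · exact clr hne (by decide) (by decide) rfl rfl (c90 he)
  · exact clr hne (by decide) (by decide) rfl rfl (c91 he)
  · exact clr hne (by decide) (by decide) rfl rfl (c92 he)
  · exact clr hne (by decide) (by decide) rfl rfl (c93 he)
  · exact clr hne (by decide) (by decide) rfl rfl (c94 he)
  · exact clr hne (by decide) (by decide) rfl rfl (c95 he)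
  · exact clr hne (by decide) (by decide) rfl rfl (c96 he)
  · exact clr hne (by decide) (by decide) rfl rfl (c97 he)
  · exact clr hne (by decide) (by decide) rfl rfl (c98 he)
  · exact clr hne (by decide) (by decide) rfl rfl (c99 he)
  · exact clr hne (by decide) (by decide) rfl rfl (c100 he)
  · exact clr hne (by decide) (by decide) rfl rfl (c101 he)
  · exact clr hne (by decide) (by decide) rfl rfl (c102 he)
  · exact clr hne (by decide) (by decide) rfl rfl (c103 he)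
  · exact clr hne (by decide) (by decide) rfl rfl (c104 he)
  · exact clr hne (by decide) (by decide) rfl rfl (c105 he)
  · exact clr hne (by decide) (by decide) rfl rfl (c106 he)
  · exact clr hne (by decide) (by decide) rfl rfl (c107 he)
  · exact clr hne (by decide) (by decide) rfl rfl (c108 he)
  · exact clr hne (by decide) (by decide) rfl rfl (c109 he)
  · exact clr hne (by decide) (by decide) rfl rfl (c110 he)
  · exact clr hne (by decide) (by decide) rfl rfl (c111 he)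
  · exact clr hne (by decide) (by decide) rfl rfl (c112 he)
  · exact clr hne (by decide) (by decide) rfl rfl (c113 he)
  · exact clr hne (by decide) (by decide) rfl rfl (c114 he)
  · exact clr hne (by decide) (by decide) rfl rfl (c115 he)
  · exact clr hne (by decide) (by decide) rfl rfl (c116 he)
  · exact clr hne (by decide) (by decide) rfl rfl (c117 he)
  · exact clr hne (by decide) (by decide) rfl rfl (c118 he)
  · exact clr hne (by decide) (by decide) rfl rfl (c119 he)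

end Pool.Agent.UE10
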