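import Pool.Agent.Lib_helper76.UE10.S0

/-!
# The solutions of the unit equation for a point of order ten, part 3a
-/

set_option autoImplicit false
set_option linter.unusedSectionVars false
set_option linter.unusedSimpArgs false
set_option maxRecDepth 100000

namespace Pool.Agent.UE10

open Pool.Agent.KC72
open UE8 (evn okl clr)

variable {F : Type*} [Field F] {x y T : F}

variable (he : y ^ 2 + ((3 * T - T ^ 2 - 1) - T * (T - 1) * (2 * T - 1)) * (x * y) -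
  T ^ 3 * (T - 1) * (2 * T - 1) * (3 * T - T ^ 2 - 1) * y =
    x ^ 3 - T ^ 3 * (T - 1) * (2 * T - 1) * x ^ 2)

include he in
lemma c80 : (bif false then -1 else 1) * evn (gs10 x y T) [0, 0, 0, 1, 1, 1, 0, 0, 0, 0, 1, 1, 0] +
    (bif false then -1 else 1) * evn (gs10 x y T) [0, 1, 0, 0, 0, 0, 0, 1, 1, 0, 0, 0, 0] =
    evn (gs10 x y T) [0, 0, 0, 1, 0, 1, 0, 0, 1, 0, 0, 0, 0] := by
  simp only [gs10, List.cons_append, List.nil_append, evn, cond_true, cond_false]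
  linear_combination (-2 * T ^ 5 + 5 * T ^ 4 - 4 * T ^ 3 + T ^ 2) * he

include he in
lemma c81 : (bif true then -1 else 1) * evn (gs10 x y T) [0, 0, 0, 0, 1, 0, 0, 0, 1, 0, 0, 1, 0] +
    (bif false then -1 else 1) * evn (gs10 x y T) [1, 0, 0, 1, 1, 0, 0, 0, 0, 0, 0, 0, 0] =
    evn (gs10 x y T) [0, 0, 0, 0, 0, 0, 0, 0, 2, 0, 0, 0, 0] := by
  simp only [gs10, List.cons_append, List.nil_append, evn, cond_true, cond_false]
  linear_combination (-1) * he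

include he in
lemma c82 : (bif true then -1 else 1) * evn (gs10 x y T) [0, 0, 0, 0, 1, 0, 0, 1, 1, 1, 0, 1, 0] +
    (bif false then -1 else 1) * evn (gs10 x y T) [0, 0, 1, 1, 1, 1, 0, 0, 0, 0, 0, 0, 0] =
    evn (gs10 x y T) [0, 0, 0, 0, 0, 0, 0, 1, 2, 0, 0, 0, 0] := by
  simp only [gs10, List.cons_append, List.nil_append, evn, cond_true, cond_false]
  linear_combination (-y - 2 * T ^ 8 + 11 * T ^ 7 - 21 * T ^ 6 + 18 * T ^ 5 - 7 * T ^ 4 + T ^ 3) * he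

include he in
lemma c83 : (bif true then -1 else 1) * evn (gs10 x y T) [0, 0, 0, 1, 1, 1, 0, 0, 1, 1, 0, 1, 0] +
    (bif false then -1 else 1) * evn (gs10 x y T) [1, 0, 0, 2, 1, 1, 0, 0, 0, 0, 0, 0, 0] =
    evn (gs10 x y T) [0, 1, 0, 0, 0, 0, 0, 1, 2, 0, 0, 0, 0] := by
  simp only [gs10, List.cons_append, List.nil_append, evn, cond_true, cond_false]
  linear_combination (-x * y - 2 * x * T ^ 8 + 7 * x * T ^ 7 - 9 * x * T ^ 6 + 5 * x * T ^ 5 - x * T ^ 4 + 2 * y * T ^ 5 - 3 * y * T ^ 4 + y * T ^ 3) * he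

include he in
lemma c84 : (bif true then -1 else 1) * evn (gs10 x y T) [0, 0, 0, 1, 1, 1, 0, 1, 1, 0, 0, 2, 0] +
    (bif false then -1 else 1) * evn (gs10 x y T) [0, 0, 1, 2, 1, 2, 0, 0, 0, 0, 0, 0, 0] =
    evn (gs10 x y T) [0, 1, 0, 0, 0, 0, 0, 2, 2, 0, 0, 0, 0] := by
  simp only [gs10, List.cons_append, List.nil_append, evn, cond_true, cond_false]
  linear_combination (4 * x ^ 2 * T ^ 10 - 20 * x ^ 2 * T ^ 9 + 41 * x ^ 2 * T ^ 8 - 44 * x ^ 2 * T ^ 7 + 26 * x ^ 2 * T ^ 6 - 8 * x ^ 2 * T ^ 5 + x ^ 2 * T ^ 4 - x * y ^ 2 - 4 * x * y * T ^ 8 + 14 * x * y * T ^ 7 - 14 * x * y * T ^ 6 - 2 * x * y * T ^ 5 + 11 * x * y * T ^ 4 - 6 * x * y * T ^ 3 + x * y * T ^ 2 + 2 * y ^ 2 * T ^ 5 - 3 * y ^ 2 * T ^ 4 + y ^ 2 * T ^ 3 + 4 * y * T ^ 12 - 28 * y * T ^ 11 + 77 * y * T ^ 10 - 110 * y * T ^ 9 + 89 * y * T ^ 8 - 41 * y * T ^ 7 + 10 * y * T ^ 6 - y * T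 ^ 5) * he

include he in
lemma c85 : (bif true then -1 else 1) * evn (gs10 x y T) [0, 0, 0, 0, 0, 0, 0, 1, 1, 0, 1, 1, 0] +
    (bif false then -1 else 1) * evn (gs10 x y T) [0, 0, 1, 1, 0, 1, 0, 0, 0, 0, 0, 0, 0] =
    evn (gs10 x y T) [1, 0, 0, 1, 0, 0, 0, 1, 0, 0, 0, 0, 0] := by
  simp only [gs10, List.cons_append, List.nil_append, evn, cond_true, cond_false]
  linear_combination (-2 * T ^ 2 + 3 * T - 1) * he

include he in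
lemma c86 : (bif false then -1 else 1) * evn (gs10 x y T) [0, 0, 0, 1, 0, 1, 0, 0, 2, 1, 0, 0, 0] +
    (bif true then -1 else 1) * evn (gs10 x y T) [1, 0, 0, 2, 1, 1, 0, 0, 0, 0, 1, 0, 0] =
    evn (gs10 x y T) [0, 1, 0, 0, 0, 0, 0, 1, 2, 0, 0, 0, 0] := by
  simp only [gs10, List.cons_append, List.nil_append, evn, cond_true, cond_false]
  linear_combination (x * y * T - x * y - 2 * x * T ^ 8 + 7 * x * T ^ 7 - 9 * x * T ^ 6 + 5 * x * T ^ 5 - x * T ^ 4) * he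

include he in
lemma c87 : (bif false then -1 else 1) * evn (gs10 x y T) [0, 0, 0, 1, 0, 1, 0, 1, 2, 0, 0, 1, 0] +
    (bif true then -1 else 1) * evn (gs10 x y T) [0, 0, 1, 2, 1, 2, 0, 0, 0, 0, 1, 0, 0] =
    evn (gs10 x y T) [0, 1, 0, 0, 0, 0, 0, 2, 2, 1, 0, 0, 0] := by
  simp only [gs10, List.cons_append, List.nil_append, evn, cond_true, cond_false]
  linear_combination (4 * x ^ 2 * T ^ 11 - 20 * x ^ 2 * T ^ 10 + 41 * x ^ 2 * T ^ 9 - 44 * x ^ 2 * T ^ 8 + 26 * x ^ 2 * T ^ 7 - 8 * x ^ 2 * T ^ 6 + x ^ 2 * T ^ 5 + x * y ^ 2 * T - x * y ^ 2 - 10 * x * y * T ^ 8 + 39 * x * y * T ^ 7 - 59 * x * y * T ^ 6 + 43 * x * y * T ^ 5 - 15 * x * y * T ^ 4 + 2 * x * y * T ^ 3 + 2 * y ^ 2 * T ^ 6 - 7 * y ^ 2 * T ^ 5 + 9 * y ^ 2 * T ^ 4 - 5 * y ^ 2 * T ^ 3 + y ^ 2 * T ^ 2 - 4 * y * T ^ 13 + 32 * y * T ^ 12 - 105 * y * T ^ 11 + 187 * y * T ^ 10 - 199 * y * T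 ^ 9 + 130 * y * T ^ 8 - 51 * y * T ^ 7 + 11 * y * T ^ 6 - y * T ^ 5) * he

include he in
lemma c88 : (bif false then -1 else 1) * evn (gs10 x y T) [0, 0, 0, 0, 0, 0, 0, 1, 2, 0, 1, 0, 0] +
    (bif false then -1 else 1) * evn (gs10 x y T) [0, 0, 1, 1, 1, 1, 0, 0, 0, 0, 0, 0, 0] =
    evn (gs10 x y T) [1, 0, 0, 1, 1, 0, 0, 1, 0, 1, 0, 0, 0] := by
  simp only [gs10, List.cons_append, List.nil_append, evn, cond_true, cond_false]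
  linear_combination (-2 * x * T ^ 3 + 3 * x * T ^ 2 - x * T + y * T - y - 2 * T ^ 8 + 11 * T ^ 7 - 21 * T ^ 6 + 18 * T ^ 5 - 7 * T ^ 4 + T ^ 3) * he

include he in
lemma c89 : (bif false then -1 else 1) * evn (gs10 x y T) [0, 1, 0, 0, 0, 0, 0, 2, 2, 0, 1, 0, 0] +
    (bif false then -1 else 1) * evn (gs10 x y T) [0, 0, 1, 2, 1, 2, 0, 0, 0, 1, 0, 0, 0] =
    evn (gs10 x y T) [1, 0, 0, 2, 1, 1, 0, 1, 0, 0, 0, 1, 0] := by
  simp only [gs10, List.cons_append, List.nil_append, evn, cond_true, cond_false]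
  linear_combination (-4 * x ^ 2 * y * T ^ 3 + 8 * x ^ 2 * y * T ^ 2 - 5 * x ^ 2 * y * T + x ^ 2 * y - 4 * x ^ 2 * T ^ 11 + 24 * x ^ 2 * T ^ 10 - 61 * x ^ 2 * T ^ 9 + 85 * x ^ 2 * T ^ 8 - 70 * x ^ 2 * T ^ 7 + 34 * x ^ 2 * T ^ 6 - 9 * x ^ 2 * T ^ 5 + x ^ 2 * T ^ 4 + x * y ^ 2 * T - x * y ^ 2 + 6 * x * y * T ^ 8 - 17 * x * y * T ^ 7 + 17 * x * y * T ^ 6 - 7 * x * y * T ^ 5 + x * y * T ^ 4 - 2 * y ^ 2 * T ^ 6 + 5 * y ^ 2 * T ^ 5 - 4 * y ^ 2 * T ^ 4 + y ^ 2 * T ^ 3 + 4 * y * T ^ 13 - 28 * y * T ^ 12 + 77 * y * T ^ 11 - 110 * y * T ^ 10 + 89 * y * T ^ 9 - 41 * y * T ^ 8 + 10 * y * T ^ 7 - y * T ^ 6) * he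

end Pool.Agent.UE10
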