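import Pool.Agent.Lib_helper76.UE10.S0

/-!
# The solutions of the unit equation for a point of order ten, part 4d
-/

set_option autoImplicit false
set_option linter.unusedSectionVars false
set_option linter.unusedSimpArgs false
set_option maxRecDepth 100000

namespace Pool.Agent.UE10

open Pool.Agent.KC72
open UE8 (evn okl clr)

variable {F : Type*} [Field F] {x y T : F}

variable (he : y ^ 2 + ((3 * T - T ^ 2 - 1) - T * (T - 1) * (2 * T - 1)) * (x * y) -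
  T ^ 3 * (T - 1) * (2 * T - 1) * (3 * T - T ^ 2 - 1) * y =
    x ^ 3 - T ^ 3 * (T - 1) * (2 * T - 1) * x ^ 2)

include he in
lemma c147 : (bif true then -1 else 1) * evn (gs10 x y T) [0, 0, 0, 0, 0, 1, 0, 0, 0, 0, 1, 0, 0] +
    (bif false then -1 else 1) * evn (gs10 x y T) [0, 0, 0, 0, 0, 0, 0, 0, 1, 0, 0, 1, 0] =
    evn (gs10 x y T) [0, 0, 0, 0, 0, 0, 1, 0, 0, 1, 0, 0, 0] := by
  simp only [gs10, List.cons_append, List.nil_append, evn, cond_true, cond_false]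
  linear_combination (0) * he

include he in
lemma c148 : (bif false then -1 else 1) * evn (gs10 x y T) [0, 0, 0, 0, 0, 1, 0, 0, 0, 0, 2, 0, 0] +
    (bif false then -1 else 1) * evn (gs10 x y T) [0, 0, 0, 0, 0, 0, 0, 0, 1, 0, 0, 1, 0] =
    evn (gs10 x y T) [0, 0, 0, 0, 0, 0, 0, 1, 0, 2, 0, 0, 0] := by
  simp only [gs10, List.cons_append, List.nil_append, evn, cond_true, cond_false]
  linear_combination (0) * he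

include he in
lemma c149 : (bif true then -1 else 1) * evn (gs10 x y T) [0, 0, 0, 0, 0, 0, 1, 0, 0, 0, 1, 0, 0] +
    (bif false then -1 else 1) * evn (gs10 x y T) [0, 0, 0, 0, 0, 0, 0, 0, 1, 0, 0, 1, 0] =
    evn (gs10 x y T) [0, 0, 0, 0, 0, 0, 0, 1, 0, 1, 0, 0, 0] := by
  simp only [gs10, List.cons_append, List.nil_append, evn, cond_true, cond_false]
  linear_combination (0) * he

include he in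
lemma c150 : (bif false then -1 else 1) * evn (gs10 x y T) [2, 1, 1, 1, 0, 0, 0, 0, 2, 0, 0, 0, 0] +
    (bif true then -1 else 1) * evn (gs10 x y T) [0, 0, 0, 1, 1, 1, 2, 1, 0, 0, 0, 0, 0] =
    evn (gs10 x y T) [0, 1, 1, 0, 1, 1, 0, 1, 1, 1, 0, 0, 0] := by
  simp only [gs10, List.cons_append, List.nil_append, evn, cond_true, cond_false]
  linear_combination (-x ^ 4 * T ^ 6 + 2 * x ^ 4 * T ^ 5 - x ^ 4 * T ^ 4 + 2 * x ^ 3 * y * T ^ 3 - 2 * x ^ 3 * y * T ^ 2 - 2 * x ^ 3 * T ^ 11 + 15 * x ^ 3 * T ^ 10 - 39 * x ^ 3 * T ^ 9 + 48 * x ^ 3 * T ^ 8 - 30 * x ^ 3 * T ^ 7 + 9 * x ^ 3 * T ^ 6 - x ^ 3 * T ^ 5 - x ^ 2 * y ^ 2 + 2 * x ^ 2 * y * T ^ 9 - 10 * x ^ 2 * y * T ^ 8 + 14 * x ^ 2 * y * T ^ 7 - 9 * x ^ 2 * y * T ^ 6 + 10 * x ^ 2 * y * T ^ 5 - 12 * x ^ 2 * y * T ^ 4 + 6 * x ^ 2 * y * T ^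 3 - x ^ 2 * y * T ^ 2 + 4 * x ^ 2 * T ^ 15 - 32 * x ^ 2 * T ^ 14 + 105 * x ^ 2 * T ^ 13 - 187 * x ^ 2 * T ^ 12 + 199 * x ^ 2 * T ^ 11 - 130 * x ^ 2 * T ^ 10 + 51 * x ^ 2 * T ^ 9 - 11 * x ^ 2 * T ^ 8 + x ^ 2 * T ^ 7 - x * y ^ 2 * T ^ 6 + 4 * x * y ^ 2 * T ^ 5 - 2 * x * y ^ 2 * T ^ 4 - 2 * x * y ^ 2 * T ^ 3 + x * y ^ 2 * T ^ 2 - 2 * x * y * T ^ 13 + 9 * x * y * T ^ 12 - 4 * x * y * T ^ 11 - 38 * x * y * T ^ 10 + 85 * x * y * T ^ 9 - 81 * x * y * T ^ 8 + 40 * x * y * T ^ 7 - 10 * x * y * T ^ 6 + x * y * T ^ 5 + 2 * y ^ 2 * T ^ 10 - 11 * y ^ 2 * T ^ 9 + 21 * y ^ 2 * T ^ 8 - 18 * y ^ 2 * T ^ 7 + 7 * y ^ 2 * T ^ 6 - y ^ 2 * T ^ 5) * he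

include he in
lemma c151 : (bif false then -1 else 1) * evn (gs10 x y T) [0, 0, 0, 0, 1, 0, 0, 0, 0, 1, 1, 2, 0] +
    (bif false then -1 else 1) * evn (gs10 x y T) [0, 1, 1, 0, 0, 0, 0, 0, 0, 0, 0, 0, 0] =
    evn (gs10 x y T) [1, 0, 0, 1, 0, 0, 0, 0, 0, 0, 0, 0, 0] := by
  simp only [gs10, List.cons_append, List.nil_append, evn, cond_true, cond_false]
  linear_combination (0) * he

include he in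
lemma c152 : (bif true then -1 else 1) * evn (gs10 x y T) [0, 0, 0, 1, 1, 1, 2, 1, 0, 0, 0, 0, 0] +
    (bif false then -1 else 1) * evn (gs10 x y T) [1, 2, 2, 0, 0, 0, 0, 0, 2, 0, 0, 0, 0] =
    evn (gs10 x y T) [0, 1, 1, 0, 1, 0, 2, 0, 1, 1, 0, 0, 0] := by
  simp only [gs10, List.cons_append, List.nil_append, evn, cond_true, cond_false]
  linear_combination (-x ^ 4 * T ^ 6 + 2 * x ^ 4 * T ^ 5 - x ^ 4 * T ^ 4 + 2 * x ^ 3 * y * T ^ 3 - 2 * x ^ 3 * y * T ^ 2 - 2 * x ^ 3 * T ^ 11 + 15 * x ^ 3 * T ^ 10 - 39 * x ^ 3 * T ^ 9 + 48 * x ^ 3 * T ^ 8 - 30 * x ^ 3 * T ^ 7 + 9 * x ^ 3 * T ^ 6 - x ^ 3 * T ^ 5 - x ^ 2 * y ^ 2 + 2 * x ^ 2 * y * T ^ 9 - 10 * x ^ 2 * y * T ^ 8 + 14 * x ^ 2 * y * T ^ 7 - 9 * x ^ 2 * y * T ^ 6 + 10 * x ^ 2 * y * T ^ 5 - 12 * x ^ 2 * y * T ^ 4 + 6 * x ^ 2 * y * T ^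 3 - x ^ 2 * y * T ^ 2 + 4 * x ^ 2 * T ^ 15 - 32 * x ^ 2 * T ^ 14 + 105 * x ^ 2 * T ^ 13 - 187 * x ^ 2 * T ^ 12 + 199 * x ^ 2 * T ^ 11 - 130 * x ^ 2 * T ^ 10 + 51 * x ^ 2 * T ^ 9 - 11 * x ^ 2 * T ^ 8 + x ^ 2 * T ^ 7 - x * y ^ 2 * T ^ 6 + 4 * x * y ^ 2 * T ^ 5 - 2 * x * y ^ 2 * T ^ 4 - 2 * x * y ^ 2 * T ^ 3 + x * y ^ 2 * T ^ 2 - 2 * x * y * T ^ 13 + 9 * x * y * T ^ 12 - 4 * x * y * T ^ 11 - 38 * x * y * T ^ 10 + 85 * x * y * T ^ 9 - 81 * x * y * T ^ 8 + 40 * x * y * T ^ 7 - 10 * x * y * T ^ 6 + x * y * T ^ 5 + 2 * y ^ 2 * T ^ 10 - 11 * y ^ 2 * T ^ 9 + 21 * y ^ 2 * T ^ 8 - 18 * y ^ 2 * T ^ 7 + 7 * y ^ 2 * T ^ 6 - y ^ 2 * T ^ 5) * he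

include he in
lemma c153 : (bif false then -1 else 1) * evn (gs10 x y T) [0, 0, 0, 0, 0, 0, 2, 0, 0, 0, 0, 0, 0] +
    (bif false then -1 else 1) * evn (gs10 x y T) [1, 0, 0, 0, 0, 0, 0, 0, 1, 0, 1, 2, 0] =
    evn (gs10 x y T) [0, 0, 0, 0, 0, 1, 0, 1, 0, 0, 0, 0, 0] := by
  simp only [gs10, List.cons_append, List.nil_append, evn, cond_true, cond_false]
  linear_combination (0) * he

include he in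
lemma c154 : (bif false then -1 else 1) * evn (gs10 x y T) [0, 2, 2, 0, 0, 1, 0, 1, 1, 0, 0, 0, 0] +
    (bif true then -1 else 1) * evn (gs10 x y T) [0, 0, 0, 1, 1, 1, 2, 1, 0, 0, 1, 2, 0] =
    evn (gs10 x y T) [1, 1, 1, 1, 0, 0, 2, 0, 1, 0, 0, 0, 0] := by
  simp only [gs10, List.cons_append, List.nil_append, evn, cond_true, cond_false]
  linear_combination (-4 * x ^ 4 * T ^ 9 + 16 * x ^ 4 * T ^ 8 - 25 * x ^ 4 * T ^ 7 + 19 * x ^ 4 * T ^ 6 - 7 * x ^ 4 * T ^ 5 + x ^ 4 * T ^ 4 + 8 * x ^ 3 * y * T ^ 6 - 24 * x ^ 3 * y * T ^ 5 + 26 * x ^ 3 * y * T ^ 4 - 12 * x ^ 3 * y * T ^ 3 + 2 * x ^ 3 * y * T ^ 2 - 8 * x ^ 3 * T ^ 14 + 76 * x ^ 3 * T ^ 13 - 286 * x ^ 3 * T ^ 12 + 581 * x ^ 3 * T ^ 11 - 714 * x ^ 3 * T ^ 10 + 555 * x ^ 3 * T ^ 9 - 274 * x ^ 3 * T ^ 8 + 83 * x ^ 3 * T ^ 7 - 14 * x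 ^ 3 * T ^ 6 + x ^ 3 * T ^ 5 - 4 * x ^ 2 * y ^ 2 * T ^ 3 + 8 * x ^ 2 * y ^ 2 * T ^ 2 - 5 * x ^ 2 * y ^ 2 * T + x ^ 2 * y ^ 2 + 8 * x ^ 2 * y * T ^ 12 - 56 * x ^ 2 * y * T ^ 11 + 146 * x ^ 2 * y * T ^ 10 - 200 * x ^ 2 * y * T ^ 9 + 192 * x ^ 2 * y * T ^ 8 - 187 * x ^ 2 * y * T ^ 7 + 179 * x ^ 2 * y * T ^ 6 - 122 * x ^ 2 * y * T ^ 5 + 50 * x ^ 2 * y * T ^ 4 - 11 * x ^ 2 * y * T ^ 3 + x ^ 2 * y * T ^ 2 + 16 * x ^ 2 * T ^ 18 - 160 * x ^ 2 * T ^ 17 + 696 * x ^ 2 * T ^ 16 - 1752 * x ^ 2 * T ^ 15 + 2849 * x ^ 2 * T ^ 14 - 3152 * x ^ 2 * T ^ 13 + 2426 * x ^ 2 * T ^ 12 - 1301 * x ^ 2 * T ^ 11 + 477 * x ^ 2 * T ^ 10 - 114 * x ^ 2 * T ^ 9 + 16 * x ^ 2 * T ^ 8 - x ^ 2 * T ^ 7 - 4 * x * y ^ 2 * T ^ 9 + 24 * x * y ^ 2 * T ^ 8 - 45 * x * y ^ 2 * T ^ 7 + 29 * x * y ^ 2 * T ^ 6 + 6 * x * y ^ 2 * T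 ^ 5 - 16 * x * y ^ 2 * T ^ 4 + 7 * x * y ^ 2 * T ^ 3 - x * y ^ 2 * T ^ 2 - 8 * x * y * T ^ 16 + 52 * x * y * T ^ 15 - 98 * x * y * T ^ 14 - 73 * x * y * T ^ 13 + 615 * x * y * T ^ 12 - 1190 * x * y * T ^ 11 + 1271 * x * y * T ^ 10 - 850 * x * y * T ^ 9 + 365 * x * y * T ^ 8 - 98 * x * y * T ^ 7 + 15 * x * y * T ^ 6 - x * y * T ^ 5 + 8 * y ^ 2 * T ^ 13 - 60 * y ^ 2 * T ^ 12 + 182 * y ^ 2 * T ^ 11 - 297 * y ^ 2 * T ^ 10 + 288 * y ^ 2 * T ^ 9 - 171 * y ^ 2 * T ^ 8 + 61 * y ^ 2 * T ^ 7 - 12 * y ^ 2 * T ^ 6 + y ^ 2 * T ^ 5) * he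

end Pool.Agent.UE10
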