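import Pool.Agent.Lib_helper76.UE10.S4a
import Pool.Agent.Lib_helper76.UE10.S4b
import Pool.Agent.Lib_helper76.UE10.S4c
import Pool.Agent.Lib_helper76.UE10.S4d

/-!
# The solutions of the unit equation for a point of order ten, part 4
-/

set_option autoImplicit false
set_option linter.unusedSectionVars false
set_option linter.unusedSimpArgs false
set_option maxRecDepth 100000

namespace Pool.Agent.UE10

open Pool.Agent.KC72
open UE8 (evn okl clr)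

variable {F : Type*} [Field F] {x y T : F}

variable (he : y ^ 2 + ((3 * T - T ^ 2 - 1) - T * (T - 1) * (2 * T - 1)) * (x * y) -
  T ^ 3 * (T - 1) * (2 * T - 1) * (3 * T - T ^ 2 - 1) * y =
    x ^ 3 - T ^ 3 * (T - 1) * (2 * T - 1) * x ^ 2)

/-- part 4 of the list -/
def cp4 : List (Mo × Mo) := [
  ((false, [0, 1, 0, 0, 0, 0, -1, 0, 0, 0, 1, 1, 0]), (false, [0, 1, -1, 0, 0, -1, 0, 1, 0, 0, 0, 0, 0])),
  ((true, [0, 1, 0, 0, 0, 0, -1, 0, 0, 0, 1, 0, 1]), (false, [0, 1, 0, -1, 0, -1, -1, 1, 1, 0, 0, 0, 0])),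
  ((false, [0, 1, 0, 0, 0, 0, -1, 0, 0, 1, 1, 0, 0]), (false, [0, 1, 0, 0, -1, -1, -1, 0, 2, 0, 0, 0, 0])),
  ((false, [0, 1, 0, 0, 0, 0, -1, 0, 0, 0, 0, 0, 1]), (false, [2, 1, 0, 0, 0, -1, -1, 0, 0, 0, 0, 0, 0])),
  ((true, [0, 0, 1, 0, 0, 1, -1, -1, 0, 1, 2, 0, 0]), (false, [0, 0, 1, -1, 0, 0, -1, 0, 1, 0, 0, 0, 0])),
  ((true, [0, 0, 1, 0, 0, 1, -1, -1, 0, 0, 2, 0, 0]), (false, [0, 0, 1, 0, -1, 0, -1, -1, 2, 0, 0, 0, 0])),
  ((true, [0, 0, 1, 0, 0, 1, -1, -1, 0, 2, 0, 0, 0]), (false, [2, 0, 1, 0, 0, 0, -1, -1, 0, 0, 0, 0, 0])),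
  ((false, [0, 0, 0, 1, 0, 1, 0, -1, -1, 0, 3, 0, 0]), (false, [0, 0, 0, 1, -1, 0, 0, -1, 1, 0, 0, 0, 0])),
  ((false, [0, 0, 0, 1, 0, 1, 0, -1, -1, 1, 0, 0, 1]), (false, [2, 0, 0, 1, 0, 0, 0, -1, -1, 0, 0, 0, 0])),
  ((true, [0, 0, 0, 0, 1, 1, 0, 0, -2, 0, 0, 1, 0]), (false, [2, 0, 0, 0, 1, 0, 0, 0, -2, 0, 0, 0, 0])),
  ((false, [0, -1, 1, 0, 0, 1, 0, -1, 0, 1, 1, 0, -1]), (true, [0, 0, 1, -1, 0, 0, -1, 0, 1, 0, 0, 1, -1])),
  ((true, [0, -1, 1, 0, 0, 1, 0, -1, 0, -1, 1, 0, 0]), (false, [0, 0, 1, 0, -1, 0, -1, -1, 2, -1, 0, 1, 0])),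
  ((true, [0, -1, 1, 0, 0, 1, 0, -1, 0, 2, 0, 0, -1]), (false, [2, 0, 1, 0, 0, 0, -1, -1, 0, 0, 1, 1, -1])),
  ((false, [0, -1, 0, 1, 0, 1, 1, -1, -1, -1, 2, 0, 0]), (true, [0, 0, 0, 1, -1, 0, 0, -1, 1, -1, 0, 0, 1])),
  ((false, [0, -1, 0, 1, 0, 1, 1, -1, -1, 1, 0, 0, 0]), (true, [2, 0, 0, 1, 0, 0, 0, -1, -1, 0, 1, 0, 0])),
  ((true, [0, -1, 0, 0, 1, 1, 1, 0, -2, 0, 0, 1, -1]), (false, [2, 0, 0, 0, 1, 0, 0, 0, -2, 1, 1, 0, -1])),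
  ((true, [0, 0, -1, 1, 0, 0, 1, 0, -1, 0, 1, 0, 0]), (false, [0, 0, 0, 1, -1, 0, 0, -1, 1, 1, 0, 0, 0])),
  ((true, [0, 0, -1, 1, 0, 0, 1, 0, -1, -1, 0, 0, 1]), (false, [2, 0, 0, 1, 0, 0, 0, -1, -1, -1, 2, 0, 0])),
  ((false, [0, 0, -1, 0, 1, 0, 1, 1, -2, -2, 0, 1, 0]), (false, [2, 0, 0, 0, 1, 0, 0, 0, -2, -2, 2, 0, 0])),
  ((true, [0, 0, 0, -1, 1, 0, 0, 1, -1, -1, 0, 1, -1]), (false, [2, 0, 0, 0, 1, 0, 0, 0, -2, -1, 3, 0, -1])),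
  ((false, [1, 0, 0, 0, 0, -1, 0, 0, 0, 1, 1, 1, 0]), (false, [0, 0, 0, 0, 0, -1, 1, 0, 0, 0, 0, 0, 0])),
  ((false, [1, 0, 0, 0, 0, -1, 0, 0, 0, 0, 1, 1, 0]), (false, [0, 0, 0, 0, 0, -1, 0, 1, 0, 0, 0, 0, 0])),
  ((false, [1, 0, 0, 0, 0, -1, 0, 0, 0, 2, 1, 0, 0]), (false, [0, 0, 0, 0, 0, -1, 0, 0, 1, 0, 0, 0, 0])),
  ((true, [1, 0, 0, 0, 0, 0, -1, 0, 0, 0, 2, 1, 0]), (false, [0, 0, 0, 0, 0, 0, -1, 1, 0, 0, 0, 0, 0])),
  ((true, [1, 0, 0, 0, 0, 0, -1, 0, 0, 1, 2, 0, 0]), (false, [0, 0, 0, 0, 0, 0, -1, 0, 1, 0, 0, 0, 0])),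
  ((false, [1, 0, 0, 0, 0, 0, 0, -1, 0, 0, 3, 0, 0]), (false, [0, 0, 0, 0, 0, 0, 0, -1, 1, 0, 0, 0, 0])),
  ((true, [0, 0, 0, 0, 0, 1, -1, 0, 0, 0, 1, 0, 0]), (false, [0, 0, 0, 0, 0, 0, -1, 1, 0, 1, 0, 0, 0])),
  ((true, [0, 0, 0, 0, 0, 1, -1, 0, 0, -1, 1, 0, 0]), (false, [0, 0, 0, 0, 0, 0, -1, 0, 1, -1, 0, 1, 0])),
  ((false, [0, 0, 0, 0, 0, 1, 0, -1, 0, -2, 2, 0, 0]), (false, [0, 0, 0, 0, 0, 0, 0, -1, 1, -2, 0, 1, 0])),
  ((true, [0, 0, 0, 0, 0, 0, 1, -1, 0, -1, 1, 0, 0]), (false, [0, 0, 0, 0, 0, 0, 0, -1, 1, -1, 0, 1, 0])),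
  ((false, [2, 0, 0, 1, -1, -1, 0, -1, 1, -1, 0, 0, 0]), (true, [0, -1, -1, 1, 0, 0, 2, 0, -1, -1, 0, 0, 0])),
  ((false, [-1, 0, 0, -1, 1, 0, 0, 0, 0, 1, 1, 2, 0]), (false, [-1, 1, 1, -1, 0, 0, 0, 0, 0, 0, 0, 0, 0])),
  ((true, [0, -1, -1, 1, 0, 1, 0, 1, -1, -1, 0, 0, 0]), (false, [1, 1, 1, 0, -1, 0, -2, 0, 1, -1, 0, 0, 0])),
  ((false, [0, 0, 0, 0, 0, -1, 2, -1, 0, 0, 0, 0, 0]), (false, [1, 0, 0, 0, 0, -1, 0, -1, 1, 0, 1, 2, 0])),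
  ((false, [-1, 1, 1, -1, 0, 1, -2, 1, 0, 0, 0, 0, 0]), (true, [-1, -1, -1, 0, 1, 1, 0, 1, -1, 0, 1, 2, 0]))]

include he in
theorem sp4 (hne : ∀ z ∈ gs10 x y T, z ≠ 0) : Sols (gs10 x y T) cp4 := by
  intro p hp
  unfold cp4 at hp
  simp only [List.mem_cons, List.not_mem_nil, or_false] at hp
  rcases hp with rfl | rfl | rfl | rfl | rfl | rfl | rfl | rfl | rfl | rfl | rfl | rfl | rfl | rfl | rfl | rfl | rfl | rfl | rfl | rfl | rfl | rfl | rfl | rfl | rfl | rfl | rfl | rfl | rfl | rfl | rfl | rfl | rfl | rfl | rfl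
  · exact clr hne (by decide) (by decide) rfl rfl (c120 he)
  · exact clr hne (by decide) (by decide) rfl rfl (c121 he)
  · exact clr hne (by decide) (by decide) rfl rfl (c122 he)
  · exact clr hne (by decide) (by decide) rfl rfl (c123 he)
  · exact clr hne (by decide) (by decide) rfl rfl (c124 he)
  · exact clr hne (by decide) (by decide) rfl rfl (c125 he)
  · exact clr hne (by decide) (by decide) rfl rfl (c126 he)
  · exact clr hne (by decide) (by decide) rfl rfl (c127 he)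
  · exact clr hne (by decide) (by decide) rfl rfl (c128 he)
  · exact clr hne (by decide) (by decide) rfl rfl (c129 he)
  · exact clr hne (by decide) (by decide) rfl rfl (c130 he)
  · exact clr hne (by decide) (by decide) rfl rfl (c131 he)
  · exact clr hne (by decide) (by decide) rfl rfl (c132 he)
  · exact clr hne (by decide) (by decide) rfl rfl (c133 he)
  · exact clr hne (by decide) (by decide) rfl rfl (c134 he)
  · exact clr hne (by decide) (by decide) rfl rfl (c135 he)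
  · exact clr hne (by decide) (by decide) rfl rfl (c136 he)
  · exact clr hne (by decide) (by decide) rfl rfl (c137 he)
  · exact clr hne (by decide) (by decide) rfl rfl (c138 he)
  · exact clr hne (by decide) (by decide) rfl rfl (c139 he)
  · exact clr hne (by decide) (by decide) rfl rfl (c140 he)
  · exact clr hne (by decide) (by decide) rfl rfl (c141 he)
  · exact clr hne (by decide) (by decide) rfl rfl (c142 he)
  · exact clr hne (by decide) (by decide) rfl rfl (c143 he)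
  · exact clr hne (by decide) (by decide) rfl rfl (c144 he)
  · exact clr hne (by decide) (by decide) rfl rfl (c145 he)
  · exact clr hne (by decide) (by decide) rfl rfl (c146 he)
  · exact clr hne (by decide) (by decide) rfl rfl (c147 he)
  · exact clr hne (by decide) (by decide) rfl rfl (c148 he)
  · exact clr hne (by decide) (by decide) rfl rfl (c149 he)
  · exact clr hne (by decide) (by decide) rfl rfl (c150 he)
  · exact clr hne (by decide) (by decide) rfl rfl (c151 he)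
  · exact clr hne (by decide) (by decide) rfl rfl (c152 he)
  · exact clr hne (by decide) (by decide) rfl rfl (c153 he)
  · exact clr hne (by decide) (by decide) rfl rfl (c154 he)

end Pool.Agent.UE10
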