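import Pool.Agent.Lib_helper76.UE10.S0

/-!
# The solutions of the unit equation for a point of order ten, part 4a
-/

set_option autoImplicit false
set_option linter.unusedSectionVars false
set_option linter.unusedSimpArgs false
set_option maxRecDepth 100000

namespace Pool.Agent.UE10

open Pool.Agent.KC72
open UE8 (evn okl clr)

variable {F : Type*} [Field F] {x y T : F}

variable (he : y ^ 2 + ((3 * T - T ^ 2 - 1) - T * (T - 1) * (2 * T - 1)) * (x * y) -
  T ^ 3 * (T - 1) * (2 * T - 1) * (3 * T - T ^ 2 - 1) * y =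
    x ^ 3 - T ^ 3 * (T - 1) * (2 * T - 1) * x ^ 2)

include he in
lemma c120 : (bif false then -1 else 1) * evn (gs10 x y T) [0, 1, 1, 0, 0, 1, 0, 0, 0, 0, 1, 1, 0] +
    (bif false then -1 else 1) * evn (gs10 x y T) [0, 1, 0, 0, 0, 0, 1, 1, 0, 0, 0, 0, 0] =
    evn (gs10 x y T) [0, 0, 1, 0, 0, 1, 1, 0, 0, 0, 0, 0, 0] := by
  simp only [gs10, List.cons_append, List.nil_append, evn, cond_true, cond_false]
  linear_combination (-4 * T ^ 5 + 12 * T ^ 4 - 13 * T ^ 3 + 6 * T ^ 2 - T) * he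

include he in
lemma c121 : (bif true then -1 else 1) * evn (gs10 x y T) [0, 1, 0, 1, 0, 1, 0, 0, 0, 0, 1, 0, 1] +
    (bif false then -1 else 1) * evn (gs10 x y T) [0, 1, 0, 0, 0, 0, 0, 1, 1, 0, 0, 0, 0] =
    evn (gs10 x y T) [0, 0, 0, 1, 0, 1, 1, 0, 0, 0, 0, 0, 0] := by
  simp only [gs10, List.cons_append, List.nil_append, evn, cond_true, cond_false]
  linear_combination (-2 * T ^ 5 + 5 * T ^ 4 - 4 * T ^ 3 + T ^ 2) * he

include he in
lemma c122 : (bif false then -1 else 1) * evn (gs10 x y T) [0, 1, 0, 0, 1, 1, 0, 0, 0, 1, 1, 0, 0] +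
    (bif false then -1 else 1) * evn (gs10 x y T) [0, 1, 0, 0, 0, 0, 0, 0, 2, 0, 0, 0, 0] =
    evn (gs10 x y T) [0, 0, 0, 0, 1, 1, 1, 0, 0, 0, 0, 0, 0] := by
  simp only [gs10, List.cons_append, List.nil_append, evn, cond_true, cond_false]
  linear_combination (-T ^ 6 + 2 * T ^ 5 - T ^ 4) * he

include he in
lemma c123 : (bif false then -1 else 1) * evn (gs10 x y T) [0, 1, 0, 0, 0, 1, 0, 0, 0, 0, 0, 0, 1] +
    (bif false then -1 else 1) * evn (gs10 x y T) [2, 1, 0, 0, 0, 0, 0, 0, 0, 0, 0, 0, 0] =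
    evn (gs10 x y T) [0, 0, 0, 0, 0, 1, 1, 0, 0, 0, 0, 0, 0] := by
  simp only [gs10, List.cons_append, List.nil_append, evn, cond_true, cond_false]
  linear_combination (-1) * he

include he in
lemma c124 : (bif true then -1 else 1) * evn (gs10 x y T) [0, 0, 1, 1, 0, 1, 0, 0, 0, 1, 2, 0, 0] +
    (bif false then -1 else 1) * evn (gs10 x y T) [0, 0, 1, 0, 0, 0, 0, 1, 1, 0, 0, 0, 0] =
    evn (gs10 x y T) [0, 0, 0, 1, 0, 0, 1, 1, 0, 0, 0, 0, 0] := by
  simp only [gs10, List.cons_append, List.nil_append, evn, cond_true, cond_false]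
  linear_combination (2 * T ^ 5 - 7 * T ^ 4 + 9 * T ^ 3 - 5 * T ^ 2 + T) * he

include he in
lemma c125 : (bif true then -1 else 1) * evn (gs10 x y T) [0, 0, 1, 0, 1, 1, 0, 0, 0, 0, 2, 0, 0] +
    (bif false then -1 else 1) * evn (gs10 x y T) [0, 0, 1, 0, 0, 0, 0, 0, 2, 0, 0, 0, 0] =
    evn (gs10 x y T) [0, 0, 0, 0, 1, 0, 1, 1, 0, 0, 0, 0, 0] := by
  simp only [gs10, List.cons_append, List.nil_append, evn, cond_true, cond_false]
  linear_combination (-T ^ 6 + 6 * T ^ 5 - 13 * T ^ 4 + 13 * T ^ 3 - 6 * T ^ 2 + T) * he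

include he in
lemma c126 : (bif true then -1 else 1) * evn (gs10 x y T) [0, 0, 1, 0, 0, 1, 0, 0, 0, 2, 0, 0, 0] +
    (bif false then -1 else 1) * evn (gs10 x y T) [2, 0, 1, 0, 0, 0, 0, 0, 0, 0, 0, 0, 0] =
    evn (gs10 x y T) [0, 0, 0, 0, 0, 0, 1, 1, 0, 0, 0, 0, 0] := by
  simp only [gs10, List.cons_append, List.nil_append, evn, cond_true, cond_false]
  linear_combination (-1) * he

include he in
lemma c127 : (bif false then -1 else 1) * evn (gs10 x y T) [0, 0, 0, 1, 1, 1, 0, 0, 0, 0, 3, 0, 0] +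
    (bif false then -1 else 1) * evn (gs10 x y T) [0, 0, 0, 1, 0, 0, 0, 0, 2, 0, 0, 0, 0] =
    evn (gs10 x y T) [0, 0, 0, 0, 1, 0, 0, 1, 1, 0, 0, 0, 0] := by
  simp only [gs10, List.cons_append, List.nil_append, evn, cond_true, cond_false]
  linear_combination (-T ^ 6 + 4 * T ^ 5 - 6 * T ^ 4 + 4 * T ^ 3 - T ^ 2) * he

include he in
lemma c128 : (bif false then -1 else 1) * evn (gs10 x y T) [0, 0, 0, 1, 0, 1, 0, 0, 0, 1, 0, 0, 1] +
    (bif false then -1 else 1) * evn (gs10 x y T) [2, 0, 0, 1, 0, 0, 0, 0, 0, 0, 0, 0, 0] =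
    evn (gs10 x y T) [0, 0, 0, 0, 0, 0, 0, 1, 1, 0, 0, 0, 0] := by
  simp only [gs10, List.cons_append, List.nil_append, evn, cond_true, cond_false]
  linear_combination (-1) * he

end Pool.Agent.UE10
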