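import Pool.Agent.Lib_helper76.UE10.Z
import Pool.Agent.Lib_helper72.KX.T10t
import Pool.Agent.Lib_helper24.FAM.DefsU

/-!
# Points of order ten: the clause
-/

set_option autoImplicit false

namespace Pool.Agent.FK4

open Pool.Agent.MK4 WeierstrassCurve.Affine
open Pool.Agent.TN (Wt)
open Pool.Agent.UEG (P0)

variable {k : Type*} [Field k] [DecidableEq k] [CharZero k] {W : WeierstrassCurve.Affine k}
  {F : Type*} [Field F] [Algebra k F] {X Y : F}

/-- **points of order ten**, from the clauses for the special curves -/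
theorem ten_of (hg : Generic W X Y) (P : W.Point) (h : addOrderOf P = 10)
    (a1 : To10 P X Y → Line P X Y) (a2 : To10' P X Y → Line P X Y)
    (a3 : To10t 3 P X Y → ClosedIn (AddSubgroup.zmultiples P) X Y ⊥)
    (a4 : To10t (5 / 2) P X Y → ClosedIn (AddSubgroup.zmultiples P) X Y ⊥)
    (a5 : To10t (-1 / 2) P X Y → ClosedIn (AddSubgroup.zmultiples P) X Y ⊥)
    (a6 : To10t (3 / 2) P X Y → ClosedIn (AddSubgroup.zmultiples P) X Y ⊥) : Ten P X Y := by
  obtain ⟨t, x, y, hb, ht, ht1, ht2, ht3, hT, hg', hO, hS, -, g1, g2, g3, g4, g5, g6⟩ :=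
    tate10t hg P h
  have ex : UE10.x4 t = t / (t - (t - 1) ^ 2) * UE10.cc t := by
    unfold UE10.x4 UE10.cc
    rw [div_mul_div_comm]
    congr 1 <;> ring
  refine ⟨t, UE10.bb t, UE10.cc t, UE10.x4 t, x, y, rfl, rfl, ex, hT,
    fun hi => UE10.ten_gen hg ht ht1 ht2 ht3 hO hg' hS hi, ?_, ?_⟩
  · rintro (h | h | h | h)
    · exact a1 (g1 (Or.inl h))
    · exact a1 (g1 (Or.inr h))
    · exact a2 (g2 (Or.inl h))
    · exact a2 (g2 (Or.inr h))
  · rintro (h | h | h | h | h | h | h | h)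
    · exact a3 (g5 (Or.inl h))
    · exact a3 (g5 (Or.inr h))
    · exact a4 (g6 (Or.inl h))
    · exact a4 (g6 (Or.inr h))
    · exact a5 (g3 (Or.inl h))
    · exact a5 (g3 (Or.inr h))
    · exact a6 (g4 (Or.inl h))
    · exact a6 (g4 (Or.inr h))

end Pool.Agent.FK4
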