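import Pool.Agent.Lib_helper76.UE10.Ten
import Pool.Agent.Lib_helper72.KXb.Only
import Pool.Agent.Lib_helper72.KXc.Only
import Pool.Agent.Lib_helper72.KXd.Only
import Pool.Agent.Lib_helper72.KXe.Only

/-!
# Points of order ten: the clause, from the two curves of dimension one
-/

set_option autoImplicit false

namespace Pool.Agent.FK4

open Pool.Agent.MK4 WeierstrassCurve.Affine

variable {k : Type*} [Field k] [DecidableEq k] [CharZero k] {W : WeierstrassCurve.Affine k}
  {F : Type*} [Field F] [Algebra k F] {X Y : F}

/-- **points of order ten**, from the two curves of dimension one -/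
theorem ten_of' (hg : Generic W X Y) (P : W.Point) (h : addOrderOf P = 10)
    (a1 : To10 P X Y → Line P X Y) (a2 : To10' P X Y → Line P X Y) : Ten P X Y :=
  ten_of hg P h a1 a2 (KXd.only hg) (KXe.only hg) (KXb.only hg) (KXc.only hg)

end Pool.Agent.FK4
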