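import Pool.Agent.Lib_helper76.UE10.T
import Pool.Agent.Lib_helper76.UEN.K
import Pool.Agent.Lib_helper76.MC10g.Ok
import Pool.Agent.Lib_helper40.UP10.Main10
import Pool.Agent.Lib_helper87.FAM.Siegel10
import Pool.Agent.Lib_helper24.FAM.DefsT

/-!
# Points of order ten: the unit equation and the closed elements for independent parameters
-/

set_option autoImplicit false
set_option linter.unusedSectionVars false

open scoped TensorProduct

namespace Pool.Agent.UE10

open WeierstrassCurve.Affine Polynomial WithZero GK UP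
open UEG (Gen IsUn P0)
open UEN
open TN (Wt Orb)
open KC72
open FK4 (LineS Supp supp_iff OnlyConst Generic UnitEq10 S3 Indep4 ClosedIn SameS addP)

variable {k : Type*} [Field k] [DecidableEq k] [CharZero k] {t : k}
  {F : Type*} [Field F] [Algebra k F] {x y : F}

/-- the classes of the certificate -/
theorem same10 : MC.sameC MC10g.c10g.cls k10 = true := by decide +kernel

lemma ind4_of (hi : Indep4 t (t - 1) (2 * t - 1) (t ^ 2 - 3 * t + 1)) : Ind4 t := hi

/-- **the unit equation for a point of order ten** -/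
theorem unitEq10 (ht : t ≠ 0) (ht1 : t - 1 ≠ 0) (ht2 : 2 * t - 1 ≠ 0)
    (ht3 : t - (t - 1) ^ 2 ≠ 0) (hb : bb t ≠ 0)
    (hi : Indep4 t (t - 1) (2 * t - 1) (t ^ 2 - 3 * t + 1))
    (hO : addOrderOf (P0 (cc t) hb) = 10) (h : Generic (Wt (bb t) (cc t)) x y) :
    UnitEq10 (AddSubgroup.zmultiples (P0 (cc t) hb)) x y (bb t) (cc t) (x4 t) x y := by
  classical
  have hfin : Finite (AddSubgroup.zmultiples (P0 (cc t) hb)) :=
    Finite.of_equiv _ (en hO).toEquiv
  have hft : Fintype (AddSubgroup.zmultiples (P0 (cc t) hb)) := Fintype.ofFinite _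
  have hg := h.toU
  have hq : t ^ 2 - 3 * t + 1 ≠ 0 := by rw [w_eq]; exact neg_ne_zero.mpr ht3
  have hG := indG_of (F := F) (GK.siegel10 hb hq hO hi)
  intro f
  constructor
  · rintro ⟨h1, h2⟩
    rcases unit10 ht ht1 ht2 ht3 hO hg main10 hG (supp_iff.mp h1) (supp_iff.mp h2) with
      ⟨a, rfl⟩ | h3 | ⟨j, h3⟩
    · left
      refine ⟨a, ?_, ?_, rfl⟩
      · rintro rfl; exact h1.1 (map_zero _)
      · rintro rfl; exact h2.1 (by rw [map_one, sub_self])
    · exact Or.inr (Or.inl h3)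
    · exact Or.inr (Or.inr ⟨j, _, rfl, h3⟩)
  · rintro (⟨a, h0, h1, rfl⟩ | h3 | ⟨j, z, rfl, h3⟩)
    · refine ⟨FK4.supp_const h0, ?_⟩
      rw [← map_one (algebraMap k F), ← map_sub]
      exact FK4.supp_const (sub_ne_zero.mpr (Ne.symm h1))
    · exact h3.supp
    · obtain ⟨u1, u2⟩ := ggj_un ht ht1 ht2 ht3 hO hg j
      exact supp_s3 (supp_iff.mpr u1) (supp_iff.mpr u2) h3

/-- **the closed elements** -/
theorem closed10 (ht : t ≠ 0) (ht1 : t - 1 ≠ 0) (ht2 : 2 * t - 1 ≠ 0)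
    (ht3 : t - (t - 1) ^ 2 ≠ 0) (hb : bb t ≠ 0)
    (hi : Indep4 t (t - 1) (2 * t - 1) (t ^ 2 - 3 * t + 1))
    (hO : addOrderOf (P0 (cc t) hb) = 10) (h : Generic (Wt (bb t) (cc t)) x y) :
    OnlyConst (AddSubgroup.zmultiples (P0 (cc t) hb)) x y := by
  have hq : t ^ 2 - 3 * t + 1 ≠ 0 := by rw [w_eq]; exact neg_ne_zero.mpr ht3
  exact closed10_of main10 ht ht1 ht2 ht3 hb hi hO
    (fun {hft} _ _ => indG_of (F := F) (GK.siegel10 hb hq hO hi)) h MC10g.c10g_ok rfl rfl same10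
    T10_ok srch10 exmat10 (fun hne he => sols10 ht3 hne he)

variable {W : WeierstrassCurve.Affine k} {X Y : F} {P : W.Point}

/-- **points of order ten with independent parameters** -/
theorem ten_gen (hg : Generic W X Y) (ht : t ≠ 0) (ht1 : t - 1 ≠ 0)
    (ht2 : 2 * t - 1 ≠ 0) (ht3 : t ^ 2 - 3 * t + 1 ≠ 0) {hb : bb t ≠ 0}
    (hO : addOrderOf (P0 (cc t) hb) = 10) (h : Generic (Wt (bb t) (cc t)) x y)
    (hS : SameS (AddSubgroup.zmultiples P) X Y (AddSubgroup.zmultiples (P0 (cc t) hb)) x y)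
    (hi : Indep4 t (t - 1) (2 * t - 1) (t ^ 2 - 3 * t + 1)) :
    UnitEq10 (AddSubgroup.zmultiples P) X Y (bb t) (cc t) (x4 t) x y ∧
      ClosedIn (AddSubgroup.zmultiples P) X Y ⊥ := by
  have ht3' : t - (t - 1) ^ 2 ≠ 0 := by
    intro h'; apply ht3; rw [w_eq, h', neg_zero]
  constructor
  · have h1 := unitEq10 ht ht1 ht2 ht3' hb hi hO h
    unfold UnitEq10 at h1 ⊢
    simp only [hS.supp, hS.lineS]
    exact h1
  · refine FK4.closedIn_bot hg fun z hz hc => ?_
    rw [hS.sp] at hz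
    exact closed10 ht ht1 ht2 ht3' hb hi hO h z hz hc

end Pool.Agent.UE10
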